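import Pool.Agent.K4H11.FR.Lam
import Pool.Agent.K4H11.AM.Mod2

/-!
# Galois action and degrees in the Fong–Reynolds correspondence
-/

set_option autoImplicit false
set_option linter.unusedSectionVars false
set_option linter.style.haveILetI false

open scoped BigOperators Classical

noncomputable section

namespace Pool.Agent.K4H11.FR

open Pool.Agent.Q90.WR Pool.Agent.H254R3.IN Pool.Agent.Q259.BW Pool.Agent.Q288.MB
open Pool.Agent.K4H11.AM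

/-- An injective map of irreducible characters which commutes with all field automorphisms. -/
structure GalMap {G W : Type} [Group G] [Group W] (Φ : (G → ℂ) → (W → ℂ)) : Prop where
  irr : ∀ χ, IsIrr χ → IsIrr (Φ χ)
  inj : ∀ χ ψ, IsIrr χ → IsIrr ψ → Φ χ = Φ ψ → χ = ψ
  gal : ∀ (σ : ℂ ≃+* ℂ) (χ : G → ℂ), Φ (fun g => σ (χ g)) = fun w => σ (Φ χ w)

section galmap

variable {G W : Type} [Group G] [Finite G] [Group W] [Finite W] {Φ : (G → ℂ) → (W → ℂ)}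
  (hΦ : GalMap Φ)

include hΦ in
theorem gal_image (σ : ℂ ≃+* ℂ) (B : Set (G → ℂ)) : gal σ (Φ '' B) = Φ '' gal σ B := by
  ext χ
  constructor
  · rintro ⟨_, ⟨ψ, hψ, rfl⟩, rfl⟩
    exact ⟨_, ⟨ψ, hψ, rfl⟩, hΦ.gal σ ψ⟩
  · rintro ⟨_, ⟨ψ, hψ, rfl⟩, rfl⟩
    exact ⟨_, ⟨ψ, hψ, rfl⟩, hΦ.gal σ ψ⟩

include hΦ in
theorem injOn_irr {A : Set (G → ℂ)} (hA : ∀ χ ∈ A, IsIrr χ) : Set.InjOn Φ A :=
  fun χ hχ ψ hψ h => hΦ.inj χ ψ (hA χ hχ) (hA ψ hψ) h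

include hΦ in
theorem image_inj {A C : Set (G → ℂ)} (hA : ∀ χ ∈ A, IsIrr χ) (hC : ∀ χ ∈ C, IsIrr χ)
    (h : Φ '' A = Φ '' C) : A = C := by
  ext χ
  constructor
  · intro hχ
    obtain ⟨ψ, hψ, he⟩ : Φ χ ∈ Φ '' C := h ▸ ⟨χ, hχ, rfl⟩
    rw [← hΦ.inj ψ χ (hC ψ hψ) (hA χ hχ) he]
    exact hψ
  · intro hχ
    obtain ⟨ψ, hψ, he⟩ : Φ χ ∈ Φ '' A := h ▸ ⟨χ, hχ, rfl⟩
    rw [← hΦ.inj ψ χ (hA ψ hψ) (hC χ hχ) he]
    exact hψ

include hΦ in
theorem numConj_image {B : Set (G → ℂ)} (hB : ∀ χ ∈ B, IsIrr χ) :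
    numConj (Φ '' B) = numConj B := by
  have h1 : conjs (Φ '' B) = (fun C : Set (G → ℂ) => Φ '' C) '' conjs B := by
    ext C
    constructor
    · rintro ⟨σ, rfl⟩
      exact ⟨gal σ B, ⟨σ, rfl⟩, (gal_image hΦ σ B).symm⟩
    · rintro ⟨_, ⟨σ, rfl⟩, rfl⟩
      exact ⟨σ, (gal_image hΦ σ B).symm⟩
  change (conjs (Φ '' B)).ncard = (conjs B).ncard
  rw [h1]
  refine Set.InjOn.ncard_image ?_
  rintro _ ⟨σ, rfl⟩ _ ⟨τ, rfl⟩ h
  exact image_inj hΦ (gal_irr hB) (gal_irr hB) h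

include hΦ in
theorem finrank_image {χ : G → ℂ} (hχ : IsIrr χ) :
    Module.finrank ℚ (IntermediateField.adjoin ℚ (Set.range (Φ χ))) =
      Module.finrank ℚ (IntermediateField.adjoin ℚ (Set.range χ)) := by
  rw [← conj_eq_finrank hχ, ← conj_eq_finrank (hΦ.irr χ hχ)]
  have h1 : conjF (Φ χ) = Φ '' conjF χ := by
    ext ψ
    constructor
    · rintro ⟨σ, rfl⟩
      exact ⟨_, ⟨σ, rfl⟩, hΦ.gal σ χ⟩
    · rintro ⟨_, ⟨σ, rfl⟩, rfl⟩
      exact ⟨σ, hΦ.gal σ χ⟩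
  rw [h1]
  refine Set.InjOn.ncard_image ?_
  rintro _ ⟨σ, rfl⟩ _ ⟨τ, rfl⟩ h
  exact hΦ.inj _ _ (irr_gal σ hχ) (irr_gal τ hχ) h

include hΦ in
theorem oddPart_image {A : Set (G → ℂ)} (hA : ∀ χ ∈ A, IsIrr χ) :
    oddPart (Φ '' A) = Φ '' oddPart A := by
  ext ψ
  constructor
  · rintro ⟨⟨χ, hχ, rfl⟩, h⟩
    refine ⟨χ, ⟨hχ, ?_⟩, rfl⟩
    unfold OddDeg at h ⊢
    rwa [finrank_image hΦ (hA χ hχ)] at h
  · rintro ⟨χ, ⟨hχ, h⟩, rfl⟩
    refine ⟨⟨χ, hχ, rfl⟩, ?_⟩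
    unfold OddDeg at h ⊢
    rwa [finrank_image hΦ (hA χ hχ)]

include hΦ in
theorem card_oddPart {A : Set (G → ℂ)} (hA : ∀ χ ∈ A, IsIrr χ) :
    Nat.card (oddPart (Φ '' A)) = Nat.card (oddPart A) := by
  rw [oddPart_image hΦ hA]
  exact Nat.card_image_of_injOn fun χ hχ ψ hψ h => hΦ.inj χ ψ (hA χ hχ.1) (hA ψ hψ.1) h

end galmap

section comp

variable {T G W : Type} [Group T] [Fintype T] [Group G] [Fintype G] [Group W] [Fintype W]
  {π : T →* G} {i : G →* T} (hπ : ∀ g, π (i g) = g) {j : T →* W} (hj : Function.Injective j)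
  (Λ : T →* ℂ)

/-- inflate, multiply by `Λ`, and induce -/
def fr (π : T →* G) (Λ : T →* ℂ) (j : T →* W) (χ : G → ℂ) : W → ℂ := indj j (tw π Λ χ)

theorem indS_twS (B : Set (G → ℂ)) : indS j (twS π Λ B) = fr π Λ j '' B := by
  ext ψ
  constructor
  · rintro ⟨_, ⟨χ, hχ, rfl⟩, rfl⟩
    exact ⟨χ, hχ, rfl⟩
  · rintro ⟨χ, hχ, rfl⟩
    exact ⟨_, ⟨χ, hχ, rfl⟩, rfl⟩

include hj in
theorem fr_one (χ : G → ℂ) : fr π Λ j χ 1 = (j.range.index : ℂ) * χ 1 := by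
  unfold fr
  rw [indj_one hj]
  have h1 := j.range.card_mul_index
  rw [card_range hj] at h1
  have h2 : (Nat.card T : ℂ)⁻¹ * Nat.card W = (j.range.index : ℂ) := by
    rw [← h1]
    have := cardG_ne T
    push_cast
    field_simp
  rw [h2]
  unfold tw
  rw [map_one, map_one, one_mul]

include hπ hj in
theorem fr_irr (h3 : Moves π j Λ) (χ : G → ℂ) (hχ : IsIrr χ) : IsIrr (fr π Λ j χ) := by
  have ho : Orth j (twS π Λ {χ | IsIrr χ}) := orth_tw h3 _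
  exact indj_irr hj ho ⟨χ, hχ, rfl⟩ (tw_irr hπ Λ hχ)

include hπ hj in
theorem fr_inj (h3 : Moves π j Λ) (χ ψ : G → ℂ) (hχ : IsIrr χ) (hψ : IsIrr ψ)
    (h : fr π Λ j χ = fr π Λ j ψ) : χ = ψ := by
  have ho : Orth j (twS π Λ {χ | IsIrr χ}) := orth_tw h3 _
  have hi : ∀ θ ∈ twS π Λ {χ | IsIrr χ}, IsIrr θ := twS_irr hπ Λ fun χ hχ => hχ
  exact tw_inj hπ Λ (indj_inj hj ho hi ⟨χ, hχ, rfl⟩ ⟨ψ, hψ, rfl⟩ h)

include hπ hj in
theorem fr_gal (h3 : Moves π j Λ) (hΛ : ∀ (σ : ℂ ≃+* ℂ) t, σ (Λ t) = Λ t) :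
    GalMap (fr π Λ j) := by
  refine ⟨fr_irr hπ hj Λ h3, fr_inj hπ hj Λ h3, ?_⟩
  intro σ χ
  funext w
  unfold fr indj cst tw
  rw [map_mul, map_inv₀, map_natCast, map_sum]
  congr 1
  refine Finset.sum_congr rfl fun x _ => ?_
  rw [map_sum]
  refine Finset.sum_congr rfl fun t _ => ?_
  split_ifs
  · rw [map_mul, hΛ]
  · rw [map_zero]

end comp

section dat

variable {O : ValuationSubring ℂ} {p : ℕ} [hp : Fact p.Prime]

/-- There is a bijection between `B` and `C` which multiplies all degrees by a positive integer and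
maps `B₀` onto `C₀`. -/
def DegBij {G W : Type} [One G] [One W] (B B₀ : Set (G → ℂ)) (C C₀ : Set (W → ℂ)) : Prop :=
  ∃ (m : ℕ) (β : B ≃ C), 0 < m ∧ ∀ χ : B, (β χ).1 1 = m * χ.1 1 ∧ ((β χ).1 ∈ C₀ ↔ χ.1 ∈ B₀)

/-- The data `X` and `Y` have isomorphic defect groups, and there are bijections between the
blocks and between their Brauer correspondents which multiply all degrees by a constant and
preserve the property to be of height zero. -/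
def Corr (p : ℕ) (X Y : Dat) : Prop :=
  Nonempty (Y.D ≃* X.D) ∧ DegBij X.B (X.ht0 p) Y.B (Y.ht0 p) ∧
    DegBij X.b (X.ht0' p) Y.b (Y.ht0' p)

theorem card_of_bij {G W : Type} {B : Set (G → ℂ)} {C : Set (W → ℂ)} {B₀ : Set (G → ℂ)}
    {C₀ : Set (W → ℂ)} (hB : B₀ ⊆ B) (hC : C₀ ⊆ C) (β : B ≃ C)
    (h : ∀ χ : B, (β χ : W → ℂ) ∈ C₀ ↔ (χ : G → ℂ) ∈ B₀) : Nat.card C₀ = Nat.card B₀ := by
  let f : B₀ → C₀ := fun χ => ⟨β ⟨χ.1, hB χ.2⟩, (h ⟨χ.1, hB χ.2⟩).mpr χ.2⟩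
  have hf : Function.Bijective f := by
    constructor
    · intro χ ψ hχψ
      have h1 : β ⟨χ.1, hB χ.2⟩ = β ⟨ψ.1, hB ψ.2⟩ :=
        Subtype.ext (congrArg (fun z : C₀ => (z : W → ℂ)) hχψ)
      have h2 := β.injective h1
      exact Subtype.ext (congrArg (fun z : B => (z : G → ℂ)) h2)
    · intro ψ
      have h1 : β (β.symm ⟨ψ.1, hC ψ.2⟩) = ⟨ψ.1, hC ψ.2⟩ := β.apply_symm_apply _
      have h2 : (β.symm ⟨ψ.1, hC ψ.2⟩ : G → ℂ) ∈ B₀ := by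
        rw [← h, h1]
        exact ψ.2
      refine ⟨⟨_, h2⟩, Subtype.ext ?_⟩
      exact congrArg (fun z : C => (z : W → ℂ)) h1
  exact (Nat.card_congr (Equiv.ofBijective f hf)).symm

theorem Corr.card {X Y : Dat} (h : Corr p X Y) :
    Nat.card (Y.ht0 p) = Nat.card (X.ht0 p) ∧ Nat.card (Y.ht0' p) = Nat.card (X.ht0' p) := by
  obtain ⟨-, ⟨m, β, -, h1⟩, ⟨m', γ, -, h2⟩⟩ := h
  exact ⟨card_of_bij (fun χ h => h.1) (fun χ h => h.1) β fun χ => (h1 χ).2,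
    card_of_bij (fun χ h => h.1) (fun χ h => h.1) γ fun χ => (h2 χ).2⟩

theorem bij_image {G W : Type} {Φ : (G → ℂ) → (W → ℂ)} {B B₀ : Set (G → ℂ)}
    (hinj : Set.InjOn Φ B) (hB : B₀ ⊆ B) {m : ℕ} (hm : 0 < m) [One G] [One W]
    (h1 : ∀ χ, Φ χ 1 = m * χ 1) :
    DegBij B B₀ (Φ '' B) (Φ '' B₀) := by
  refine ⟨m, Equiv.Set.imageOfInjOn Φ B hinj, hm, fun χ => ⟨h1 χ.1, ?_⟩⟩
  change Φ χ.1 ∈ Φ '' B₀ ↔ χ.1 ∈ B₀
  constructor
  · rintro ⟨ψ, hψ, he⟩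
    rw [← hinj (hB hψ) χ.2 he]
    exact hψ
  · exact fun h => ⟨χ.1, h, rfl⟩

/-- A block of `G` and its Brauer correspondent correspond to a block of `W` and its Brauer
correspondent; the numbers of Galois conjugates and of characters with fields of values of odd
degree agree if `Λ` is rational. -/
theorem realise' (hpO : (p : ℂ) ∈ O.nonunits) {X : Dat} [Fintype X.G] (hX : X.IsBrauer p O)
    {T W : Type} [Group T] [Fintype T] [Group W] [Fintype W] {π : T →* X.G} {i : X.G →* T}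
    (hπ : ∀ g, π (i g) = g) {j : T →* W} (hj : Function.Injective j)
    (hK : ¬ p ∣ Nat.card π.ker) (Λ : T →* ℂ)
    (h2 : ∀ (x : W) (k : T), π k = 1 → ∃ k', π k' = 1 ∧ j k' = x⁻¹ * j k * x)
    (h3 : Moves π j Λ) :
    ∃ Y : Dat, Nonempty (Y.G ≃* W) ∧ Y.IsBrauer p O ∧ Corr p X Y ∧
      ((∀ (σ : ℂ ≃+* ℂ) t, σ (Λ t) = Λ t) → numConj Y.B = numConj X.B ∧
        Nat.card (oddPart (Y.ht0 p)) = Nat.card (oddPart (X.ht0 p)) ∧
        Nat.card (oddPart (Y.ht0' p)) = Nat.card (oddPart (X.ht0' p))) := by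
  obtain ⟨a1, -, -⟩ := Dtw_spec hpO hX hπ hK Λ
  letI : Fintype (Dtw X hπ Λ).G := inferInstanceAs (Fintype T)
  have hDp : IsPGroup p X.D := (isDefectGroup_iff.mp hX.defect).choose_spec.2.1
  have h3' : Moves (piN hπ X.D) (jN j (X.D.map i)) (linN Λ (X.D.map i)) :=
    moves_local hπ hj hpO hK Λ hDp h2 h3
  have o1 : Orth (T := (Dtw X hπ Λ).G) j (Dtw X hπ Λ).B := orth_tw h3 X.B
  have o2 : Orth (T := NN (Dtw X hπ Λ).D) (jN (T := (Dtw X hπ Λ).G) j (Dtw X hπ Λ).D)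
      (Dtw X hπ Λ).b := orth_tw h3' X.b
  obtain ⟨b1, -, -⟩ := Dind_spec (X := Dtw X hπ Λ) hpO a1 (W := W) (j := j) hj o1 o2
  set Y := Dind (Dtw X hπ Λ) j with hY
  have hjN : Function.Injective (jN j (X.D.map i)) := jN_inj hj _
  have hπN := piN_jN hπ X.D
  have hiB := hX.block.irr
  have hib := hX.brauer.1.irr
  have eB : Y.B = fr π Λ j '' X.B := indS_twS (π := π) (j := j) Λ X.B
  have eb : Y.b = fr (piN hπ X.D) (linN Λ (X.D.map i)) (jN j (X.D.map i)) '' X.b :=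
    indS_twS (π := piN hπ X.D) (j := jN j (X.D.map i)) (linN Λ (X.D.map i)) X.b
  have eB0 : Y.ht0 p = fr π Λ j '' (X.ht0 p) := by
    have e1 : Y.ht0 p = indS j (twS π Λ (X.ht0 p)) := by
      have e2 := irr0_indS (p := p) hj (twS_irr hπ Λ hiB) (X.D.map i)
      rw [irr0_twS hπ hK Λ X.B X.D] at e2
      exact e2
    rw [e1]
    exact indS_twS (π := π) (j := j) Λ (X.ht0 p)
  have eb0 : Y.ht0' p =
      fr (piN hπ X.D) (linN Λ (X.D.map i)) (jN j (X.D.map i)) '' (X.ht0' p) := by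
    have e1 : Y.ht0' p = indS (jN j (X.D.map i))
        (twS (piN hπ X.D) (linN Λ (X.D.map i)) (X.ht0' p)) := by
      have e2 := irr0_indS (p := p) hjN (twS_irr hπN (linN Λ (X.D.map i)) hib)
        ((DD X.D).map (jN i X.D))
      rw [irr0_twS hπN (ker_piN hπ hK X.D) (linN Λ (X.D.map i)) X.b (DD X.D),
        map_DD (sec_inj hπ), map_DD hj] at e2
      exact e2
    rw [e1]
    exact indS_twS (π := piN hπ X.D) (j := jN j (X.D.map i)) (linN Λ (X.D.map i)) (X.ht0' p)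
  have idx : ∀ {A C : Type} [Group A] [Group C] [Fintype C] (f : A →* C), 0 < f.range.index :=
    fun f => Nat.pos_of_ne_zero Subgroup.index_ne_zero_of_finite
  refine ⟨Y, ⟨MulEquiv.refl W⟩, b1, ⟨?_, ?_, ?_⟩, ?_⟩
  · exact ⟨((X.D.equivMapOfInjective i (sec_inj hπ)).trans
      ((X.D.map i).equivMapOfInjective j hj)).symm⟩
  · rw [eB, eB0]
    exact bij_image (fun χ hχ ψ hψ h => fr_inj hπ hj Λ h3 χ ψ (hiB χ hχ) (hiB ψ hψ) h)
      (fun χ h => h.1) (idx j) (fun χ => fr_one hj Λ χ)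
  · rw [eb, eb0]
    exact bij_image (fun χ hχ ψ hψ h =>
        fr_inj hπN hjN (linN Λ (X.D.map i)) h3' χ ψ (hib χ hχ) (hib ψ hψ) h)
      (fun χ h => h.1) (idx (jN j (X.D.map i))) (fun χ => fr_one hjN (linN Λ (X.D.map i)) χ)
  · intro hΛ
    have g1 := fr_gal hπ hj Λ h3 hΛ
    have g2 := fr_gal hπN hjN (linN Λ (X.D.map i)) h3' fun σ t => hΛ σ t
    refine ⟨?_, ?_, ?_⟩
    · rw [eB]
      exact numConj_image g1 hiB
    · rw [eB0]
      exact card_oddPart g1 fun χ h => hiB χ h.1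
    · rw [eb0]
      exact card_oddPart g2 fun χ h => hib χ h.1

end dat

end Pool.Agent.K4H11.FR
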