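import Pool.Agent.K4H11.FR.Uni
import Pool.Agent.K4H11.FR.GalM

/-!
# Realisation of blocks in groups `V ⋊ H` and in perfect groups
-/

set_option autoImplicit false
set_option linter.unusedSectionVars false
set_option linter.style.haveILetI false

open scoped BigOperators Classical

noncomputable section

namespace Pool.Agent.K4H11.FR

open Pool.Agent.Q90.WR Pool.Agent.H254R3.IN Pool.Agent.Q259.BW Pool.Agent.Q288.MB
open Pool.Agent.K4H11.AM

/-- `W` is the semidirect product of an elementary abelian `q`-group with the group `H`. -/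
def IsExt (q : ℕ) (H W : Type) [Group H] [Group W] : Prop :=
  ∃ (V : Type) (_ : CommGroup V) (φ : H →* MulAut V), (∀ v : V, v ^ q = 1) ∧
    Nonempty (W ≃* V ⋊[φ] H)

/-- `W` is a perfect group, and it is the semidirect product of an elementary abelian `q`-group
with an alternating group of degree at least five which acts faithfully on it. -/
structure IsPerfectExt (q : ℕ) (W : Type) [Group W] : Prop where
  perfect : commutator W = ⊤
  split : ∃ (n : ℕ) (V : Type) (_ : CommGroup V) (φ : alternatingGroup (Fin n) →* MulAut V),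
    5 ≤ n ∧ (∀ v : V, v ^ q = 1) ∧ Function.Injective φ ∧
      Nonempty (W ≃* V ⋊[φ] alternatingGroup (Fin n))

/-- The numbers of characters of height zero in the block and its Brauer correspondent agree. -/
def AMEq (p : ℕ) (X : Dat) : Prop := Nat.card (X.ht0 p) = Nat.card (X.ht0' p)

/-- The Alperin–McKay conjecture for all `p`-blocks of all finite groups. -/
def AM (p : ℕ) (O : ValuationSubring ℂ) : Prop := ∀ X : Dat, X.IsBrauer p O → AMEq p X

/-- The numbers of characters of height zero with a field of values of odd degree in the block and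
its Brauer correspondent have the same parity. -/
def OddParity (p : ℕ) (X : Dat) : Prop :=
  Nat.card (oddPart (X.ht0 p)) ≡ Nat.card (oddPart (X.ht0' p)) [MOD 2]

theorem V0_pow {H : Type} [Group H] [Fintype H] (R : Subgroup H) (q : ℕ) [Fact q.Prime]
    (v : V0 R q) : v ^ q = 1 := by
  apply Subtype.ext
  funext ω
  have h1 : ((v ^ q : V0 R q) : Fn R q) ω = ((v : Fn R q) ω) ^ q := rfl
  rw [h1]
  change Multiplicative.ofAdd (q • Multiplicative.toAdd ((v : Fn R q) ω)) = Multiplicative.ofAdd 0
  congr 1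
  rw [← Nat.cast_smul_eq_nsmul (ZMod q), ZMod.natCast_self, zero_smul]

section uni

variable {G H : Type} [Group G] [Fintype G] [Group H] [Fintype H] (ι : G →* H) (q : ℕ)
  [hq : Fact q.Prime]

theorem phi_ker_le (h3 : 3 ≤ Nat.card (H ⧸ ι.range)) :
    (phi (R := ι.range) (q := q)).ker ≤ ι.range := by
  intro a ha
  by_contra hn
  obtain ⟨f, hf⟩ := exists_moved ι q h3 hn
  apply hf
  have h1 : phi (R := ι.range) (q := q) a⁻¹ = 1 := by
    rw [map_inv, show phi (R := ι.range) (q := q) a = 1 from ha, inv_one]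
  rw [h1]
  rfl

theorem lam_rational (σ : ℂ ≃+* ℂ) (f : V0 ι.range 2) : σ (lam ι 2 f) = lam ι 2 f := by
  have h1 : lam ι 2 f * lam ι 2 f = 1 := by
    rw [← lam_mul, ← pow_two, V0_pow, lam_one]
  rcases mul_self_eq_one_iff.mp h1 with h | h
  · rw [h, map_one]
  · rw [h, map_neg, map_one]

variable {O : ValuationSubring ℂ} {p : ℕ} [hp : Fact p.Prime]

theorem universal (hpO : (p : ℂ) ∈ O.nonunits) (hpq : q ≠ p) {X : Dat} (hX : X.IsBrauer p O)
    {H : Type} [Group H] [Fintype H] (ι : X.G →* H) (hι : Function.Injective ι)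
    (h3 : 3 ≤ Nat.card (H ⧸ ι.range)) :
    ∃ Y : Dat, Nonempty (Y.G ≃* WW ι.range q) ∧ Y.IsBrauer p O ∧ Corr p X Y ∧
      (q = 2 → numConj Y.B = numConj X.B ∧
        Nat.card (oddPart (Y.ht0 p)) = Nat.card (oddPart (X.ht0 p)) ∧
        Nat.card (oddPart (Y.ht0' p)) = Nat.card (oddPart (X.ht0' p))) := by
  have := hX.fin
  letI := Fintype.ofFinite X.G
  letI : Fintype (TT ι q) := Fintype.ofFinite _
  letI : Fintype (WW ι.range q) := Fintype.ofFinite _
  obtain ⟨Y, h1, h2, h4, h5⟩ := realise' (T := TT ι q) (W := WW ι.range q)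
    (π := SemidirectProduct.rightHom) (i := SemidirectProduct.inr) (j := jj ι q) hpO hX
    (fun g => SemidirectProduct.rightHom_inr g) (jj_inj ι q hι) (ker_card ι q hp.out hpq)
    (Lam ι q) (normal_ker ι q) (moves ι q h3)
  refine ⟨Y, h1, h2, h4, ?_⟩
  rintro rfl
  exact h5 fun σ t => lam_rational ι σ t.left

end uni

theorem perfectExt_WW {G : Type} [Group G] [Fintype G] (q : ℕ) [hq : Fact q.Prime] :
    IsPerfectExt q (WW (toAlt G).range q) := by
  have h5 : 5 ≤ deg G := by
    rw [deg_eq]
    omega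
  have h5' : 5 ≤ Nat.card (Fin (deg G)) := by rwa [Nat.card_eq_fintype_card, Fintype.card_fin]
  refine ⟨WW_perfect (commutator_alternatingGroup_eq_top h5'), deg G, V0 (toAlt G).range q,
    inferInstance, phi, h5, V0_pow _ q, ?_, ⟨MulEquiv.refl _⟩⟩
  rw [← MonoidHom.ker_eq_bot_iff]
  haveI : IsSimpleGroup (alternatingGroup (Fin (deg G))) := alternatingGroup.isSimpleGroup h5'
  have hn : (phi (R := (toAlt G).range) (q := q)).ker.Normal := MonoidHom.normal_ker _
  rcases hn.eq_bot_or_eq_top with h | h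
  · exact h
  · exfalso
    have h1 := phi_ker_le (toAlt G) q (index_toAlt G)
    rw [h, top_le_iff] at h1
    have h2 := index_toAlt G
    have h3 : (toAlt G).range.index = 1 := by rw [h1, Subgroup.index_top]
    have h4 : Nat.card (alternatingGroup (Fin (deg G)) ⧸ (toAlt G).range) = 1 := h3
    omega

theorem IsPerfectExt.of_equiv {q : ℕ} {W W' : Type} [Group W] [Group W'] (e : W' ≃* W)
    (h : IsPerfectExt q W) : IsPerfectExt q W' := by
  refine ⟨?_, ?_⟩
  · have h1 : (commutator W').map e.toMonoidHom = commutator W := by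
      rw [commutator_def, Subgroup.map_commutator, commutator_def,
        Subgroup.map_top_of_surjective e.toMonoidHom e.surjective]
    rw [h.perfect] at h1
    rw [eq_top_iff]
    intro x _
    have h2 : e x ∈ (commutator W').map e.toMonoidHom := h1 ▸ Subgroup.mem_top _
    obtain ⟨y, hy, he⟩ := h2
    rwa [e.injective he] at hy
  · obtain ⟨n, V, i, φ, h1, h2, h3, ⟨f⟩⟩ := h.split
    exact ⟨n, V, i, φ, h1, h2, h3, ⟨e.trans f⟩⟩

theorem perfect {O : ValuationSubring ℂ} {p : ℕ} [hp : Fact p.Prime] (q : ℕ) [hq : Fact q.Prime]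
    (hpO : (p : ℂ) ∈ O.nonunits) (hpq : q ≠ p) {X : Dat} (hX : X.IsBrauer p O) :
    ∃ Y : Dat, IsPerfectExt q Y.G ∧ Y.IsBrauer p O ∧ Corr p X Y ∧
      (q = 2 → numConj Y.B = numConj X.B ∧
        Nat.card (oddPart (Y.ht0 p)) = Nat.card (oddPart (X.ht0 p)) ∧
        Nat.card (oddPart (Y.ht0' p)) = Nat.card (oddPart (X.ht0' p))) := by
  have := hX.fin
  letI := Fintype.ofFinite X.G
  obtain ⟨Y, ⟨e⟩, h2, h3, h4⟩ := universal q hpO hpq hX (toAlt X.G) (toAlt_inj X.G)
    (index_toAlt X.G)
  exact ⟨Y, (perfectExt_WW q).of_equiv e, h2, h3, h4⟩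

end Pool.Agent.K4H11.FR
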