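import Pool.Agent.K4H11.FR.Cnv
import Pool.Agent.K4H11.FR.Perf
import Pool.Agent.K4H11.AW.Growth
import Pool.Agent.K4H11.AW.Par

/-!
# Alternating sums and perfect groups `V ⋊ Aₙ`
-/

set_option autoImplicit false
set_option linter.unusedSectionVars false
set_option linter.style.haveILetI false

open scoped BigOperators Classical

noncomputable section

namespace Pool.Agent.K4H11.FR

open Pool.Agent.Q90.WR Pool.Agent.H254R3.IN Pool.Agent.Q259.BW Pool.Agent.Q288.MB
open Pool.Agent.Y63.KR (alternatingSum)
open Pool.Agent.K4H11.AM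

section core

variable {G H : Type} [Group G] [Fintype G] [Group H] [Fintype H] (ι : G →* H) (q : ℕ)
  [hq : Fact q.Prime] {p : ℕ} [hp : Fact p.Prime]

theorem inl_disj (hpq : q ≠ p) {P : Subgroup (WW ι.range q)} (hP : IsPGroup p P)
    {v : V0 ι.range q} (hv : (SemidirectProduct.inl v : WW ι.range q) ∈ P) :
    (SemidirectProduct.inl v : WW ι.range q) = 1 := by
  obtain ⟨n, hn⟩ := hP ⟨_, hv⟩
  have h1 : orderOf (SemidirectProduct.inl v : WW ι.range q) ∣ p ^ n := by
    apply orderOf_dvd_of_pow_eq_one
    exact congrArg Subtype.val hn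
  have h2 : orderOf (SemidirectProduct.inl v : WW ι.range q) ∣ q := by
    apply orderOf_dvd_of_pow_eq_one
    rw [← map_pow, V0_pow, map_one]
  have h3 : Nat.Coprime (p ^ n) q :=
    Nat.Coprime.pow_left n ((Nat.coprime_primes hp.out hq.out).mpr (Ne.symm hpq))
  exact orderOf_eq_one_iff.mp (Nat.eq_one_of_dvd_coprimes h3 h1 h2)

theorem WW_core (hpq : q ≠ p) (hι : Function.Injective ι) (h3 : 3 ≤ Nat.card (H ⧸ ι.range))
    (hG : ∀ P : Subgroup G, P.Normal → IsPGroup p P → P = ⊥) (P : Subgroup (WW ι.range q))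
    (hn : P.Normal) (hP : IsPGroup p P) : P = ⊥ := by
  -- elements of `P` centralise the module
  have hr : ∀ x ∈ P, x.right ∈ ι.range := by
    intro x hx
    apply phi_ker_le ι q h3
    rw [MonoidHom.mem_ker]
    ext1 v
    have e1 : x * SemidirectProduct.inl v * x⁻¹ =
        (SemidirectProduct.inl (phi x.right v) : WW ι.range q) := by
      apply SemidirectProduct.ext
      · simp only [SemidirectProduct.mul_left, SemidirectProduct.inv_left,
          SemidirectProduct.mul_right, SemidirectProduct.left_inl, SemidirectProduct.right_inl,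
          mul_one]
        have e3 : ∀ w : V0 ι.range q, phi x.right (phi x.right⁻¹ w) = w := by
          intro w
          rw [← MulAut.mul_apply, ← map_mul, mul_inv_cancel, map_one, MulAut.one_apply]
        rw [e3, mul_comm x.left, mul_inv_cancel_right]
      · simp only [SemidirectProduct.mul_right, SemidirectProduct.inv_right,
          SemidirectProduct.right_inl, mul_one, mul_inv_cancel]
    have h4 : (SemidirectProduct.inl (phi x.right v * v⁻¹) : WW ι.range q) ∈ P := by
      rw [map_mul, map_inv, ← e1]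
      have e2 : x * SemidirectProduct.inl v * x⁻¹ * (SemidirectProduct.inl v)⁻¹ =
          x * (SemidirectProduct.inl v * x⁻¹ * (SemidirectProduct.inl v : WW ι.range q)⁻¹) := by
        group
      rw [e2]
      exact P.mul_mem hx (hn.conj_mem _ (P.inv_mem hx) _)
    have h5 := inl_disj ι q hpq hP h4
    have h6 : phi x.right v * v⁻¹ = 1 :=
      SemidirectProduct.inl_injective (h5.trans (map_one SemidirectProduct.inl).symm)
    exact mul_inv_eq_one.mp h6
  set R : Subgroup H := P.map (SemidirectProduct.rightHom : WW ι.range q →* H) with hR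
  have hRn : R.Normal := hn.map _ SemidirectProduct.rightHom_surjective
  have hRp : IsPGroup p R := hP.map _
  have hQ := hG (R.comap ι) (hRn.comap ι) (hRp.comap_of_injective ι hι)
  rw [Subgroup.eq_bot_iff_forall]
  intro x hx
  obtain ⟨g, hg⟩ := hr x hx
  have h4 : g ∈ R.comap ι := ⟨x, hx, hg.symm⟩
  rw [hQ, Subgroup.mem_bot] at h4
  have h5 : x.right = 1 := by rw [← hg, h4, map_one]
  have h6 : x = SemidirectProduct.inl x.left := by
    apply SemidirectProduct.ext
    · rfl
    · exact h5
  rw [h6] at hx ⊢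
  exact inl_disj ι q hpq hP hx

/-- **Realisation**: the sums of a block of `G` are those of a block of `V ⋊ H`. -/
theorem awc_ext {O : ValuationSubring ℂ} (hpO : (p : ℂ) ∈ O.nonunits) (hpq : q ≠ p)
    (hι : Function.Injective ι) (h3 : 3 ≤ Nat.card (H ⧸ ι.range)) {B : Set (G → ℂ)}
    (hB : AdmB p O G B) :
    ∃ B' : Set (WW ι.range q → ℂ), AdmB p O (WW ι.range q) B' ∧
      (∀ D, IsDefectGroup p O B D → ∃ D', IsDefectGroup p O B' D' ∧ Nonempty (D' ≃* D)) ∧
      (∀ Q : ℂ → ℕ → Prop, QOK p Q →
        alternatingSum p (WW ι.range q) (fun K => (cntQ O Q B' K : ℤ)) =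
          alternatingSum p G (fun K => (cntQ O Q B K : ℤ))) ∧
      (q = 2 → numConj B' = numConj B) := by
  letI : Fintype (TT ι q) := Fintype.ofFinite _
  letI : Fintype (WW ι.range q) := Fintype.ofFinite _
  have hπ : ∀ g, (SemidirectProduct.rightHom : TT ι q →* G) (SemidirectProduct.inr g) = g :=
    fun g => SemidirectProduct.rightHom_inr g
  have hj := jj_inj ι q hι
  have hK := ker_card ι q hp.out hpq
  have h2 := normal_ker ι q
  have hM := moves ι q h3
  have hbl := hB.block
  have ho : Orth (jj ι q) (twS (SemidirectProduct.rightHom : TT ι q →* G) (Lam ι q) B) :=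
    orth_tw hM B
  have hb := twS_block hπ hK hpO (Lam ι q) hbl
  have hdef : ∀ D, IsDefectGroup p O B D → IsDefectGroup p O
      (indS (jj ι q) (twS (SemidirectProduct.rightHom : TT ι q →* G) (Lam ι q) B))
      ((D.map SemidirectProduct.inr).map (jj ι q)) := fun D hD =>
    indS_defect hj hpO ho hb (twS_defect hπ hK hpO (Lam ι q) hbl hD)
  have hequiv : ∀ D : Subgroup G, Nonempty
      ((D.map (SemidirectProduct.inr : G →* TT ι q)).map (jj ι q) ≃* D) := fun D =>
    ⟨((D.equivMapOfInjective SemidirectProduct.inr (sec_inj hπ)).trans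
      ((D.map SemidirectProduct.inr).equivMapOfInjective (jj ι q) hj)).symm⟩
  refine ⟨indS (jj ι q) (twS SemidirectProduct.rightHom (Lam ι q) B),
    ⟨inferInstance, WW_core ι q hpq hι h3 hB.core, indS_block hj ho hb, ?_⟩,
    fun D hD => ⟨_, hdef D hD, hequiv D⟩, fun Q hQ => ?_, ?_⟩
  · obtain ⟨D, hD, hne⟩ := hB.defect
    refine ⟨_, hdef D hD, fun h => hne ?_⟩
    exact (Subgroup.map_eq_bot_iff_of_injective D (sec_inj hπ)).mp
      ((Subgroup.map_eq_bot_iff_of_injective _ hj).mp h)
  · exact alt_eq hπ hj h2 hpO hK (Lam ι q) hM hbl hQ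
  · rintro rfl
    rw [indS_twS]
    exact numConj_image (fr_gal hπ hj (Lam ι 2) hM fun σ t => lam_rational ι σ t.left) hbl.irr

end core

end Pool.Agent.K4H11.FR
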