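import Pool.Agent.K4H11.FR.Ind

/-!
# The Fong–Reynolds correspondence: characters and blocks
-/

set_option autoImplicit false
set_option linter.unusedSectionVars false
set_option linter.style.haveILetI false

open scoped BigOperators Classical

noncomputable section

namespace Pool.Agent.K4H11.FR

open Pool.Agent.Q90.WR Pool.Agent.H254R3.IN Pool.Agent.Q259.BW Pool.Agent.Q288.MB

variable {T W : Type} [Group T] [Fintype T] [Group W] [Fintype W]

/-- the characters induced from the ones in `b` -/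
def indS (j : T →* W) (b : Set (T → ℂ)) : Set (W → ℂ) := {χ | ∃ θ ∈ b, χ = indj j θ}

/-- the characters in `b` are orthogonal to their conjugates by the elements outside the image
of `j` -/
def Orth (j : T →* W) (b : Set (T → ℂ)) : Prop :=
  ∀ x : W, x ∉ j.range → ∀ θ ∈ b, ∀ η ∈ b,
    ∑ s : T, ∑ t : T, (if j s = x⁻¹ * j t * x then θ t * η s⁻¹ else 0) = 0

theorem inv_cl {G : Type} [Group G] {f : G → ℂ} (hf : IsCl f) : IsCl fun g => f g⁻¹ := by
  intro g y
  have e : (y * g * y⁻¹)⁻¹ = y * g⁻¹ * y⁻¹ := by group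
  simp only [e]
  exact hf _ _

theorem irr_cl {G : Type} [Group G] {χ : G → ℂ} (h : IsIrr χ) : IsCl χ := fun g y => h.conj g y

section basic

variable {j : T →* W} (hj : Function.Injective j)

theorem cst_inv (j : T →* W) (η : T → ℂ) (t : T) (x : W) :
    cst j η (j t⁻¹) x = ∑ s : T, if j s = x⁻¹ * j t * x then η s⁻¹ else 0 := by
  unfold cst
  refine Fintype.sum_equiv (Equiv.inv T) _ _ fun s => ?_
  simp only [Equiv.inv_apply, inv_inv]
  refine if_congr ?_ rfl rfl
  rw [map_inv, map_inv, inv_eq_iff_eq_inv]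
  have e : (x⁻¹ * j t * x)⁻¹ = x⁻¹ * (j t)⁻¹ * x := by group
  rw [e]

include hj in
theorem kx_range {θ η : T → ℂ} (hη : IsCl η) (r : T) :
    ∑ s : T, ∑ t : T, (if j s = (j r)⁻¹ * j t * j r then θ t * η s⁻¹ else 0) =
      ∑ t, θ t * η t⁻¹ := by
  rw [Finset.sum_comm]
  refine Finset.sum_congr rfl fun t _ => ?_
  rw [Finset.sum_eq_single (r⁻¹ * t * r)]
  · rw [if_pos (by simp only [map_mul, map_inv])]
    congr 1
    have h := inv_cl hη t r⁻¹
    simp only [inv_inv] at h
    exact h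
  · intro s _ hs
    rw [if_neg]
    intro h
    apply hs
    apply hj
    rw [h]
    simp only [map_mul, map_inv]
  · intro h
    exact absurd (Finset.mem_univ _) h

include hj in
theorem B_ind_ind {b : Set (T → ℂ)} (ho : Orth j b) {θ η : T → ℂ} (hθ : θ ∈ b) (hη : η ∈ b)
    (hc : IsCl η) :
    Pool.Agent.Helper884.IC.B (indj j θ) (indj j η) = Pool.Agent.Helper884.IC.B θ η := by
  rw [B_indj j θ (indj_cl j η)]
  unfold Pool.Agent.Helper884.IC.B
  congr 1
  have h1 : ∑ g : T, θ g * indj j η (j g⁻¹) = (Nat.card T : ℂ)⁻¹ * ∑ x : W,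
      ∑ s : T, ∑ t : T, (if j s = x⁻¹ * j t * x then θ t * η s⁻¹ else 0) := by
    unfold indj
    simp_rw [cst_inv]
    simp only [Finset.mul_sum]
    rw [Finset.sum_comm]
    refine Finset.sum_congr rfl fun x _ => ?_
    rw [Finset.sum_comm]
    refine Finset.sum_congr rfl fun s _ => Finset.sum_congr rfl fun t _ => ?_
    split_ifs
    · ring
    · ring
  rw [h1, ← Finset.sum_filter_add_sum_filter_not Finset.univ (fun x : W => x ∈ j.range)]
  have h2 : ∀ x ∈ Finset.univ.filter (fun x : W => x ∈ j.range),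
      ∑ s : T, ∑ t : T, (if j s = x⁻¹ * j t * x then θ t * η s⁻¹ else 0) =
        ∑ t, θ t * η t⁻¹ := by
    intro x hx
    obtain ⟨r, rfl⟩ := (Finset.mem_filter.mp hx).2
    exact kx_range hj hc r
  rw [Finset.sum_congr rfl h2, Finset.sum_eq_zero
    (s := Finset.univ.filter fun x : W => ¬ x ∈ j.range) fun x hx =>
      ho x (Finset.mem_filter.mp hx).2 θ hθ η hη, add_zero, Finset.sum_const, nsmul_eq_mul]
  have h3 : ((Finset.univ.filter fun x : W => x ∈ j.range).card : ℂ) = Nat.card T := by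
    rw [← card_range hj, Nat.card_eq_fintype_card, Fintype.card_subtype]
  rw [h3, ← mul_assoc, inv_mul_cancel₀ (cardG_ne T), one_mul]

include hj in
theorem indj_irr {b : Set (T → ℂ)} (ho : Orth j b) {θ : T → ℂ} (hθ : θ ∈ b) (hi : IsIrr θ) :
    IsIrr (indj j θ) := by
  refine irr_of_norm (indj_cl j θ) ?_ ?_ ?_
  · intro χ hχ
    rw [B_indj j θ hχ.isClass]
    obtain ⟨V₁, _, _, _, ρ₁, _, rfl⟩ := id hi
    obtain ⟨V₂, _, _, _, ρ₂, _, rfl⟩ := id hχ
    obtain ⟨n, hn⟩ := B_nat ρ₁ (ρ₂.comp j)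
    exact ⟨n, hn⟩
  · rw [B_ind_ind hj ho hθ hθ (irr_cl hi), Pool.Agent.Helper884.IC.B_irr hi hi, if_pos rfl]
  · obtain ⟨n, -, hn⟩ := hi.deg
    obtain ⟨m, hm⟩ := Subgroup.card_subgroup_dvd_card j.range
    rw [card_range hj] at hm
    refine ⟨m * n, ?_⟩
    rw [indj_one hj, ← hn, hm]
    have := cardG_ne T
    push_cast
    field_simp

include hj in
theorem indj_inj {b : Set (T → ℂ)} (ho : Orth j b) (hi : ∀ θ ∈ b, IsIrr θ) {θ η : T → ℂ}
    (hθ : θ ∈ b) (hη : η ∈ b) (h : indj j θ = indj j η) : θ = η := by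
  have h1 := B_ind_ind hj ho hθ hη (irr_cl (hi η hη))
  rw [← h, Pool.Agent.Helper884.IC.B_irr (indj_irr hj ho hθ (hi θ hθ))
    (indj_irr hj ho hθ (hi θ hθ)), if_pos rfl, Pool.Agent.Helper884.IC.B_irr (hi θ hθ) (hi η hη)] at h1
  by_contra hne
  rw [if_neg hne] at h1
  exact one_ne_zero h1

include hj in
theorem indS_irr {b : Set (T → ℂ)} (ho : Orth j b) (hi : ∀ θ ∈ b, IsIrr θ) :
    ∀ χ ∈ indS j b, IsIrr χ := by
  rintro _ ⟨θ, hθ, rfl⟩
  exact indj_irr hj ho hθ (hi θ hθ)

include hj in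
theorem card_indS {b : Set (T → ℂ)} (ho : Orth j b) (hi : ∀ θ ∈ b, IsIrr θ) {A : Set (T → ℂ)}
    (hA : A ⊆ b) : Nat.card (indS j A) = Nat.card A := by
  refine (Nat.card_congr (Equiv.ofBijective
    (fun θ : A => (⟨indj j θ, θ, θ.2, rfl⟩ : indS j A)) ⟨?_, ?_⟩)).symm
  · intro θ η h
    exact Subtype.ext (indj_inj hj ho hi (hA θ.2) (hA η.2) (congrArg Subtype.val h))
  · rintro ⟨_, θ, hθ, rfl⟩
    exact ⟨⟨θ, hθ⟩, rfl⟩

include hj in
/-- the coefficients of the block idempotent -/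
theorem coeff_indS {b : Set (T → ℂ)} (ho : Orth j b) (hi : ∀ θ ∈ b, IsIrr θ) :
    blockCoeff (indS j b) = indj j (blockCoeff b) := by
  have hi' := indS_irr hj ho hi
  apply eq_of_Om (blockCoeff_cl hi') (indj_cl _ _)
  intro ψ hψ
  rw [Om_blockCoeff hi' hψ]
  unfold Om
  have hcl := irr_cl hψ
  have h1 : ∑ t, blockCoeff b t * ψ (j t) =
      ∑ θ ∈ (Pool.Agent.Helper884.IC.Irr T).filter (· ∈ b), θ 1 * (if indj j θ = ψ then 1 else 0) := by
    simp only [blockCoeff_eq hi, Finset.mul_sum, Finset.sum_mul]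
    rw [Finset.sum_comm]
    refine Finset.sum_congr rfl fun θ hθ => ?_
    have hb := (Finset.mem_filter.mp hθ).2
    have h2 := Pool.Agent.Helper884.IC.B_irr (indj_irr hj ho hb (hi θ hb)) hψ
    rw [B_indj j θ hcl, Pool.Agent.Helper884.IC.B_comm] at h2
    rw [← h2]
    unfold Pool.Agent.Helper884.IC.B
    rw [Finset.mul_sum, Finset.mul_sum]
    refine Finset.sum_congr rfl fun t _ => ?_
    ring
  rw [sum_indj j _ hcl, h1]
  by_cases h : ψ ∈ indS j b
  · obtain ⟨θ, hθ, rfl⟩ := id h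
    rw [if_pos h, Finset.sum_eq_single θ, if_pos rfl, mul_one, indj_one hj]
    · rw [div_self]
      exact mul_ne_zero ratio_ne (hi θ hθ).one_ne
    · intro η hη hne
      rw [if_neg, mul_zero]
      intro he
      exact hne (indj_inj hj ho hi (Finset.mem_filter.mp hη).2 hθ he)
    · intro hn
      exact absurd (Finset.mem_filter.mpr ⟨mem_Irr.mpr (hi θ hθ), hθ⟩) hn
  · rw [if_neg h, Finset.sum_eq_zero, mul_zero, zero_div]
    intro θ hθ
    rw [if_neg, mul_zero]
    rintro rfl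
    exact h ⟨θ, (Finset.mem_filter.mp hθ).2, rfl⟩

end basic

section block

variable {O : ValuationSubring ℂ} {j : T →* W} (hj : Function.Injective j)

/-- congruent central characters take congruent values at all integral class functions -/
theorem red_Om_congr {G : Type} [Group G] [Fintype G] {χ ψ : G → ℂ} (hχ : IsIrr χ) (hψ : IsIrr ψ)
    (h : ∀ x, red O (omega χ x) = red O (omega ψ x)) {f : G → ℂ} (hf : IsCl f)
    (hO : ∀ g, f g ∈ O) : red O (Om f χ) = red O (Om f ψ) := by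
  rw [(red_Om hχ hf hO).2, (red_Om hψ hf hO).2]
  exact Finset.sum_congr rfl fun K _ => by rw [h]

include hj in
theorem omega_indj {θ : T → ℂ} (h : IsIrr (indj j θ)) (w : W) :
    omega (indj j θ) w = Om (fun t => ind w (j t)) θ := by
  rw [← Om_ind h, Om_indj hj θ (ind_cl w)]

include hj in
/-- **Fong–Reynolds**: the induced characters form a block. -/
theorem indS_block {b : Set (T → ℂ)} (ho : Orth j b) (hb : IsBlock O b) : IsBlock O (indS j b) := by
  have hi := hb.irr
  have hi' := indS_irr hj ho hi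
  obtain ⟨θ₀, h0⟩ := hb.nonempty
  have hcl : IsCl (blockCoeff (indS j b)) := blockCoeff_cl hi'
  have hO : ∀ w, blockCoeff (indS j b) w ∈ O := by
    intro w
    rw [coeff_indS hj ho hi]
    exact indj_mem hj (blockCoeff_cl hi) (blockCoeff_mem hb) w
  have m0 : indj j θ₀ ∈ indS j b := ⟨θ₀, h0, rfl⟩
  have i0 := hi' _ m0
  refine ⟨indj j θ₀, i0, Set.Subset.antisymm ?_ ?_⟩
  · rintro _ ⟨θ, hθ, rfl⟩
    have i1 := indj_irr hj ho hθ (hi θ hθ)
    refine ⟨i1, fun w => ?_⟩
    rw [← red_eq_iff (i1.omega_mem O w) (i0.omega_mem O w), omega_indj hj i1, omega_indj hj i0]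
    exact red_Om_congr (hi θ hθ) (hi θ₀ h0) (fun x => hb.red_eq hθ h0 x)
      (cl_comp j (ind_cl w)) fun t => ind_mem O w _
  · rintro ψ ⟨hψ, h⟩
    have h1 := red_Om_congr hψ i0 (fun w =>
      (red_eq_iff (hψ.omega_mem O w) (i0.omega_mem O w)).mpr (h w)) hcl hO
    rw [Om_blockCoeff hi' hψ, Om_blockCoeff hi' i0, if_pos m0, red_one] at h1
    by_contra hn
    rw [if_neg hn, red_zero] at h1
    exact zero_ne_one h1

end block

end Pool.Agent.K4H11.FR
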