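import Pool.Agent.K4H11.FR.Dft
import Pool.Agent.Q259.BW.Main

/-!
# The Fong–Reynolds correspondence: Brauer correspondents and heights
-/

set_option autoImplicit false
set_option linter.unusedSectionVars false
set_option linter.style.haveILetI false

open scoped BigOperators Classical

noncomputable section

namespace Pool.Agent.K4H11.FR

open Pool.Agent.Q90.WR Pool.Agent.H254R3.IN Pool.Agent.Q259.BW Pool.Agent.Q288.MB

section general

variable {K G : Type} [Group K] [Fintype K] [Group G] [Fintype G] {O : ValuationSubring ℂ}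
  {p : ℕ} [hp : Fact p.Prime]

theorem Om_classes (π : K → G) {f : G → ℂ} (hf : IsCl f) (θ : K → ℂ) :
    Om (fun c => f (π c)) θ = ∑ C : ConjClasses G, f (rep C) * L π θ (rep C) := by
  have h1 : ∑ C : ConjClasses G, f (rep C) * L π θ (rep C) =
      (∑ C : ConjClasses G, ∑ c : K, if IsConj (rep C) (π c) then f (rep C) * θ c else 0) / θ 1 := by
    unfold L
    rw [Finset.sum_div]
    refine Finset.sum_congr rfl fun C _ => ?_
    rw [← mul_div_assoc, Finset.mul_sum]
    congr 1
    refine Finset.sum_congr rfl fun c _ => ?_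
    rw [mul_ite, mul_zero]
  rw [h1, Finset.sum_comm]
  unfold Om
  congr 1
  refine Finset.sum_congr rfl fun c _ => ?_
  rw [Finset.sum_eq_single (ConjClasses.mk (π c))]
  · rw [if_pos (rep_mk _), hf.isConj (rep_mk _)]
  · intro C _ hC
    rw [if_neg]
    intro h
    apply hC
    rw [← mk_rep C]
    exact ConjClasses.mk_eq_mk_iff_isConj.mpr h
  · intro h
    exact absurd (Finset.mem_univ _) h

/-- the relation between a block and its Brauer correspondent, for class functions -/
theorem brauer_Om {D : Subgroup G} {B : Set (G → ℂ)} {c : Set (NN D → ℂ)} (hB : IsBlock O B)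
    (hc : IsBrauerCorrespondent p O D B c) {χ : G → ℂ} (hχ : χ ∈ B) {θ : NN D → ℂ} (hθ : θ ∈ c)
    {f : G → ℂ} (hf : IsCl f) (hO : ∀ g, f g ∈ O) :
    Om (fun n : NN D => f n) θ ∈ O ∧
      red O (Om (fun n : NN D => f n) θ) = red O (Om f χ) := by
  have hi := hB.irr χ hχ
  have h1 : ∀ x : G, L (NN D).subtype θ x ∈ O ∧
      red O (L (NN D).subtype θ x) = red O (omega χ x) := by
    intro x
    have h2 := hc.2.2 χ hχ θ hθ x
    rw [sum_eq_L] at h2
    obtain ⟨h3, h4⟩ := red_congr (hi.omega_mem O x) h2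
    exact ⟨h3, h4.symm⟩
  have h5 : Om (fun n : NN D => f n) θ =
      ∑ C : ConjClasses G, f (rep C) * L (NN D).subtype θ (rep C) :=
    Om_classes (NN D).subtype hf θ
  rw [h5, (red_Om hi hf hO).2]
  constructor
  · exact sum_mem fun C _ => O.mul_mem _ _ (hO _) (h1 _).1
  · rw [red_sum _ _ fun C _ => O.mul_mem _ _ (hO _) (h1 _).1]
    refine Finset.sum_congr rfl fun C _ => ?_
    rw [red_mul (hO _) (h1 _).1, (h1 _).2]

end general

section brauer

variable {T W : Type} [Group T] [Fintype T] [Group W] [Fintype W] {O : ValuationSubring ℂ}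
  {p : ℕ} [hp : Fact p.Prime] {j : T →* W} (hj : Function.Injective j)

theorem map_norm (j : T →* W) (D : Subgroup T) (n : NN D) : j n ∈ NN (D.map j) := by
  rw [Subgroup.mem_normalizer_iff]
  intro h
  have h0 := Subgroup.mem_normalizer_iff.mp n.2
  constructor
  · rintro ⟨d, hd, rfl⟩
    exact ⟨n * d * (n : T)⁻¹, (h0 d).mp hd, by simp only [map_mul, map_inv]⟩
  · rintro ⟨d, hd, hh⟩
    refine ⟨(n : T)⁻¹ * d * n, ?_, ?_⟩
    · apply (h0 _).mpr
      have e : (n : T) * ((n : T)⁻¹ * d * n) * (n : T)⁻¹ = d := by group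
      rw [e]
      exact hd
    · simp only [map_mul, map_inv]
      rw [hh]
      group

/-- the homomorphism of normalisers -/
def jN (j : T →* W) (D : Subgroup T) : NN D →* NN (D.map j) :=
  (j.comp (NN D).subtype).codRestrict _ fun n => map_norm j D n

theorem jN_coe (j : T →* W) (D : Subgroup T) (n : NN D) : ((jN j D n : NN (D.map j)) : W) = j n :=
  rfl

include hj in
theorem jN_inj (D : Subgroup T) : Function.Injective (jN j D) := by
  intro a b h
  exact Subtype.ext (hj (congrArg Subtype.val h))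

include hj in
theorem map_DD (D : Subgroup T) : (DD D).map (jN j D) = DD (D.map j) := by
  ext x
  constructor
  · rintro ⟨n, hn, rfl⟩
    exact ⟨n, hn, rfl⟩
  · intro hx
    obtain ⟨d, hd, hx'⟩ : (x : W) ∈ D.map j := hx
    exact ⟨⟨d, le_NN D hd⟩, hd, Subtype.ext hx'⟩

include hj in
/-- **Fong–Reynolds**: Brauer correspondents. -/
theorem indS_brauer (hpO : (p : ℂ) ∈ O.nonunits) {b : Set (T → ℂ)} (ho : Orth j b)
    (hb : IsBlock O b) {D : Subgroup T} {c : Set (NN D → ℂ)}
    (hc : IsBrauerCorrespondent p O D b c) (ho' : Orth (jN j D) c) :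
    IsBrauerCorrespondent p O (D.map j) (indS j b) (indS (jN j D) c) := by
  have hjN := jN_inj hj D
  refine ⟨indS_block hjN ho' hc.1, ?_, ?_⟩
  · have h := indS_defect hjN hpO ho' hc.1 hc.2.1
    rw [show (D.subgroupOf (Subgroup.normalizer (D : Set T))).map (jN j D) = DD (D.map j) from
      map_DD hj D] at h
    exact h
  · rintro _ ⟨θ, hθ, rfl⟩ _ ⟨η, hη, rfl⟩ w
    have i1 := indj_irr hj ho hθ (hb.irr θ hθ)
    have h1 := brauer_Om (p := p) hb hc hθ hη (cl_comp j (ind_cl w)) fun t => ind_mem O w _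
    have h2 : L (NN (D.map j)).subtype (indj (jN j D) η) w =
        Om (fun n : NN D => ind w (j n)) η := by
      rw [L_indj hjN, L_eq]
      rfl
    rw [sum_eq_L]
    change omega (indj j θ) w - L (NN (D.map j)).subtype (indj (jN j D) η) w ∈ O.nonunits
    rw [h2, ← red_eq_iff (i1.omega_mem O w) h1.1, h1.2, omega_indj hj i1]

end brauer

section heights

variable {T W : Type} [Group T] [Fintype T] [Group W] [Fintype W] {p : ℕ} [hp : Fact p.Prime]
  {j : T →* W} (hj : Function.Injective j)

include hj in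
/-- heights -/
theorem irr0_indS {b : Set (T → ℂ)} (hi : ∀ θ ∈ b, IsIrr θ) (D : Subgroup T) :
    Irr0 p (D.map j) (indS j b) = indS j (Irr0 p D b) := by
  obtain ⟨m, hm⟩ := Subgroup.card_subgroup_dvd_card j.range
  rw [card_range hj] at hm
  have hT : Nat.card T ≠ 0 := Nat.card_pos.ne'
  have hm0 : m ≠ 0 := by
    rintro rfl
    rw [mul_zero] at hm
    exact Nat.card_pos.ne' hm
  have hidx : (D.map j).index = m * D.index := by
    have h1 := (D.map j).card_mul_index
    have h2 := D.card_mul_index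
    rw [card_map_inj hj, hm, ← h2] at h1
    apply Nat.eq_of_mul_eq_mul_left (Nat.card_pos (α := D))
    rw [h1]
    ring
  have hD0 : D.index ≠ 0 := Subgroup.index_ne_zero_of_finite
  have key : ∀ θ ∈ b, ((∃ n : ℕ, (n : ℂ) = indj j θ 1 ∧
      n.factorization p = (D.map j).index.factorization p) ↔
      ∃ n : ℕ, (n : ℂ) = θ 1 ∧ n.factorization p = D.index.factorization p) := by
    intro θ hθ
    obtain ⟨n₁, p1, e1⟩ := (hi θ hθ).deg
    have e3 : indj j θ 1 = ((m * n₁ : ℕ) : ℂ) := by
      rw [indj_one hj, ← e1, hm]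
      have := cardG_ne T
      push_cast
      field_simp
    have e4 : (m * n₁).factorization p = m.factorization p + n₁.factorization p := by
      rw [Nat.factorization_mul hm0 p1.ne']
      rfl
    have e5 : (m * D.index).factorization p = m.factorization p + D.index.factorization p := by
      rw [Nat.factorization_mul hm0 hD0]
      rfl
    rw [e3, ← e1, hidx, e5]
    constructor
    · rintro ⟨n, hn, hf⟩
      have : n = m * n₁ := by exact_mod_cast hn
      subst this
      rw [e4] at hf
      exact ⟨n₁, rfl, by omega⟩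
    · rintro ⟨n, hn, hf⟩
      have : n = n₁ := by exact_mod_cast hn
      subst this
      exact ⟨_, rfl, by rw [e4]; omega⟩
  ext χ
  constructor
  · rintro ⟨⟨θ, hθ, rfl⟩, h⟩
    exact ⟨θ, ⟨hθ, (key θ hθ).mp h⟩, rfl⟩
  · rintro ⟨θ, ⟨hθ, h⟩, rfl⟩
    exact ⟨⟨θ, hθ, rfl⟩, (key θ hθ).mpr h⟩

end heights

section dat

variable {O : ValuationSubring ℂ} {p : ℕ} [hp : Fact p.Prime]

/-- The induced block with its local data. -/
def Dind (X : Dat) {W : Type} [Group W] [Fintype X.G] (j : X.G →* W) [Fintype W] : Dat where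
  G := W
  D := X.D.map j
  B := indS j X.B
  b := indS (jN j X.D) X.b

/-- **Fong–Reynolds** for the data in the Alperin–McKay conjecture. -/
theorem Dind_spec (hpO : (p : ℂ) ∈ O.nonunits) {X : Dat} (hX : X.IsBrauer p O) [Fintype X.G]
    {W : Type} [Group W] [Fintype W] {j : X.G →* W} (hj : Function.Injective j)
    (ho : Orth j X.B) (ho' : Orth (jN j X.D) X.b) :
    (Dind X j).IsBrauer p O ∧
      Nat.card ((Dind X j).ht0 p) = Nat.card (X.ht0 p) ∧
      Nat.card ((Dind X j).ht0' p) = Nat.card (X.ht0' p) := by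
  have hi := hX.block.irr
  have hi' := hX.brauer.1.irr
  refine ⟨⟨inferInstanceAs (Finite W), indS_block hj ho hX.block, indS_defect hj hpO ho hX.block
    hX.defect, indS_brauer hj hpO ho hX.block hX.brauer ho'⟩, ?_, ?_⟩
  · have h1 : (Dind X j).ht0 p = indS j (X.ht0 p) := irr0_indS hj hi X.D
    rw [h1]
    exact card_indS hj ho hi fun χ hχ => hχ.1
  · have h1 : (Dind X j).ht0' p = indS (jN j X.D) (X.ht0' p) := by
      have h2 := irr0_indS (p := p) (jN_inj hj X.D) hi' (DD X.D)
      rw [map_DD hj] at h2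
      exact h2
    rw [h1]
    exact card_indS (jN_inj hj X.D) ho' hi' fun χ hχ => hχ.1

end dat

end Pool.Agent.K4H11.FR
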