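import Pool.Agent.K4H11.FR.Str

/-!
# Chains of `p`-subgroups and injective homomorphisms
-/

set_option autoImplicit false
set_option linter.unusedSectionVars false
set_option linter.style.haveILetI false

open scoped BigOperators Classical

noncomputable section

namespace Pool.Agent.K4H11.FR

open Pool.Agent.Q90.WR Pool.Agent.H254R3.IN Pool.Agent.Q259.BW Pool.Agent.Q288.MB
open Pool.Agent.Y63.KR (IsPChain chainStabilizer conjSub mem_chainStabilizer conjSub_eq_iff)
open Pool.Agent.R674.KB (mem_stab exists_greatest)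

section chains

variable {G W : Type} [Group G] [Group W] {f : G →* W}

/-- the images of the members -/
def mapC (f : G →* W) (σ : Set (Subgroup G)) : Set (Subgroup W) := (fun P => P.map f) '' σ

theorem map_inj' (hf : Function.Injective f) : Function.Injective (fun P : Subgroup G => P.map f) :=
  Subgroup.map_injective hf

theorem mapC_inj (hf : Function.Injective f) : Function.Injective (mapC f) :=
  Set.image_injective.mpr (map_inj' hf)

theorem mapC_ncard (hf : Function.Injective f) (σ : Set (Subgroup G)) :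
    (mapC f σ).ncard = σ.ncard := Set.ncard_image_of_injective _ (map_inj' hf)

theorem mapC_chain (hf : Function.Injective f) {p : ℕ} {σ : Set (Subgroup G)}
    (hσ : IsPChain p σ) : IsPChain p (mapC f σ) := by
  refine ⟨?_, ?_, ?_⟩
  · rintro _ ⟨P, hP, rfl⟩ _ ⟨P', hP', rfl⟩ _
    rcases hσ.chain.total hP hP' with h | h
    · exact Or.inl (Subgroup.map_mono h)
    · exact Or.inr (Subgroup.map_mono h)
  · rintro _ ⟨P, hP, rfl⟩
    exact (hσ.isPGroup P hP).map f
  · rintro _ ⟨P, hP, rfl⟩ h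
    exact hσ.ne_bot P hP ((Subgroup.map_eq_bot_iff_of_injective P hf).mp h)

/-- every chain of subgroups of the image is the image of a chain -/
theorem exists_mapC (hf : Function.Injective f) {p : ℕ} {τ : Set (Subgroup W)}
    (hτ : IsPChain p τ) (h : ∀ Q ∈ τ, Q ≤ f.range) : ∃ σ, IsPChain p σ ∧ mapC f σ = τ := by
  have hm : ∀ Q ∈ τ, (Q.comap f).map f = Q := fun Q hQ => Subgroup.map_comap_eq_self (h Q hQ)
  refine ⟨(fun Q => Q.comap f) '' τ, ⟨?_, ?_, ?_⟩, ?_⟩
  · rintro _ ⟨P, hP, rfl⟩ _ ⟨P', hP', rfl⟩ _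
    rcases hτ.chain.total hP hP' with h | h
    · exact Or.inl (Subgroup.comap_mono h)
    · exact Or.inr (Subgroup.comap_mono h)
  · rintro _ ⟨P, hP, rfl⟩
    exact (hτ.isPGroup P hP).comap_of_injective _ hf
  · rintro _ ⟨P, hP, rfl⟩ h0
    apply hτ.ne_bot P hP
    have h1 := hm P hP
    change P.comap f = ⊥ at h0
    rw [h0, Subgroup.map_bot] at h1
    exact h1.symm
  · unfold mapC
    rw [← Set.image_comp]
    ext Q
    constructor
    · rintro ⟨Q', hQ', rfl⟩
      change (Q'.comap f).map f ∈ τ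
      rw [hm Q' hQ']
      exact hQ'
    · intro hQ
      exact ⟨Q, hQ, hm Q hQ⟩

theorem mapC_range (σ : Set (Subgroup G)) : ∀ Q ∈ mapC f σ, Q ≤ f.range := by
  rintro _ ⟨P, _, rfl⟩
  rintro _ ⟨x, _, rfl⟩
  exact ⟨x, rfl⟩

theorem sSup_mapC (σ : Set (Subgroup G)) : sSup (mapC f σ) = (sSup σ).map f := by
  unfold mapC
  rw [(Subgroup.gc_map_comap f).l_sSup, sSup_image]

theorem stab_mapC [Fintype G] [Fintype W] (hf : Function.Injective f) (σ : Set (Subgroup G)) :
    (chainStabilizer (mapC f σ)).comap f = chainStabilizer σ := by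
  ext g
  rw [Subgroup.mem_comap, mem_stab, mem_stab]
  constructor
  · intro h P hP
    exact norm_of_map hf (h _ ⟨P, hP, rfl⟩)
  · rintro h _ ⟨P, hP, rfl⟩
    exact map_norm f P ⟨g, h P hP⟩

theorem sSup_pgroup {p : ℕ} [Finite G] {σ : Set (Subgroup G)} (hσ : IsPChain p σ) :
    IsPGroup p (sSup σ : Subgroup G) := by
  by_cases h0 : σ = ∅
  · rw [h0, sSup_empty]
    exact IsPGroup.of_bot
  · obtain ⟨Q, hQ, hmax⟩ := exists_greatest hσ.chain (Set.nonempty_iff_ne_empty.mpr h0)
    have hs : sSup σ = Q := le_antisymm (sSup_le hmax) (le_sSup hQ)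
    rw [hs]
    exact hσ.isPGroup Q hQ

theorem stab_sSup {σ : Set (Subgroup G)} {g : G} (hg : g ∈ chainStabilizer σ) :
    g ∈ NN (sSup σ) := by
  have h1 := mem_chainStabilizer.mp hg
  apply conjSub_eq_iff.mp
  unfold conjSub at h1 ⊢
  rw [(Subgroup.gc_map_comap (MulAut.conj g).toMonoidHom).l_sSup]
  rw [sSup_eq_iSup]
  exact iSup_congr fun P => iSup_congr fun hP => h1 P hP

theorem cent_stab [Fintype G] {σ : Set (Subgroup G)} {g : G}
    (hg : g ∈ Subgroup.centralizer ((sSup σ : Subgroup G) : Set G)) :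
    g ∈ chainStabilizer σ := by
  rw [mem_stab]
  intro P hP
  apply cent_le_NN
  rw [Subgroup.mem_centralizer_iff] at hg ⊢
  intro x hx
  exact hg x (le_sSup hP hx)

/-- the sum over the chains of `W` of subgroups of the image of `G` -/
theorem sum_mapC [Finite G] [Finite W] {p : ℕ} (hf : Function.Injective f) (Z : Subgroup W → ℤ)
    (Y : Subgroup G → ℤ)
    (hZ : ∀ σ : Ch p G, Z (chainStabilizer (mapC f σ.1)) = Y (chainStabilizer σ.1)) :
    ∑ τ : Ch p W, (if ∀ Q ∈ τ.1, Q ≤ f.range then (-1) ^ τ.1.ncard * Z (chainStabilizer τ.1)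
      else 0) = ∑ σ : Ch p G, (-1) ^ σ.1.ncard * Y (chainStabilizer σ.1) := by
  rw [← Finset.sum_filter]
  symm
  refine Finset.sum_bij (fun (σ : Ch p G) _ => (⟨mapC f σ.1, mapC_chain hf σ.2⟩ : Ch p W))
    ?_ ?_ ?_ ?_
  · intro σ _
    rw [Finset.mem_filter]
    exact ⟨Finset.mem_univ _, mapC_range σ.1⟩
  · intro σ _ σ' _ h
    exact Subtype.ext (mapC_inj hf (congrArg Subtype.val h))
  · intro τ hτ
    rw [Finset.mem_filter] at hτ
    obtain ⟨σ, h1, h2⟩ := exists_mapC hf τ.2 hτ.2
    exact ⟨⟨σ, h1⟩, Finset.mem_univ _, Subtype.ext h2⟩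
  · intro σ _
    change _ = (-1) ^ (mapC f σ.1).ncard * Z (chainStabilizer (mapC f σ.1))
    rw [mapC_ncard hf, hZ]

end chains

section ld

variable {T G W : Type} [Group T] [Fintype T] [Group G] [Fintype G] [Group W] [Fintype W]
  {π : T →* G} {i : G →* T} {j : T →* W}

/-- the stabilisers of corresponding chains -/
theorem ld_chain (hπ : ∀ g, π (i g) = g) (hj : Function.Injective j) (σ : Set (Subgroup G)) :
    LD π i j (sSup σ) (chainStabilizer σ) ((chainStabilizer (mapC (j.comp i) σ)).comap j)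
      (chainStabilizer (mapC (j.comp i) σ)) := by
  have hmap : ∀ P : Subgroup G, P.map (j.comp i) = (P.map i).map j := fun P =>
    (Subgroup.map_map P j i).symm
  refine ⟨?_, ?_, fun t => Iff.rfl, ?_, ?_⟩
  · intro t ht
    rw [Subgroup.mem_comap, mem_stab] at ht
    rw [mem_stab]
    intro P hP
    have h1 := ht _ ⟨P, hP, rfl⟩
    simp only [hmap] at h1
    exact pi_norm hπ P ⟨t, norm_of_map hj h1⟩
  · intro g hg
    rw [mem_stab] at hg
    rw [Subgroup.mem_comap, mem_stab]
    rintro _ ⟨P, hP, rfl⟩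
    exact map_norm (j.comp i) P ⟨g, hg P hP⟩
  · intro w hw
    have h1 := stab_sSup hw
    rw [sSup_mapC, hmap] at h1
    exact h1
  · intro t ht
    rw [Subgroup.mem_comap]
    apply cent_stab
    rw [sSup_mapC, hmap, Subgroup.mem_centralizer_iff]
    rintro _ ⟨y, hy, rfl⟩
    rw [Subgroup.mem_centralizer_iff] at ht
    rw [← map_mul, ht y hy, map_mul]

theorem cut_chain {O : ValuationSubring ℂ} {p : ℕ} [Fact p.Prime] (hpO : (p : ℂ) ∈ O.nonunits)
    {σ : Set (Subgroup G)} (hσ : IsPChain p σ) : Cut O (sSup σ) (chainStabilizer σ) :=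
  fun _ hθ _ hF hO => red_cut hpO hσ hθ hF hO

end ld

end Pool.Agent.K4H11.FR
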