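import Pool.Agent.K4H11.FR.Cow

/-!
# Counting characters of chain stabilisers
-/

set_option autoImplicit false
set_option linter.unusedSectionVars false
set_option linter.style.haveILetI false

open scoped BigOperators Classical

noncomputable section

namespace Pool.Agent.K4H11.FR

open Pool.Agent.Q90.WR Pool.Agent.H254R3.IN Pool.Agent.Q259.BW Pool.Agent.Q288.MB
open Pool.Agent.Y63.KR (IsPChain chainStabilizer conjSub mem_chainStabilizer conjSub_eq_iff)
open Pool.Agent.R674.KB (mem_stab exists_greatest)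

section orbit

/-- double cosets -/
theorem orbit_count {W G : Type} [Group W] [Fintype W] [Group G] [Fintype G] (H : Subgroup W)
    (ι : G →* W) (A : Set W) {x₁ : W} (hx : x₁ ∈ A)
    (hA : ∀ x ∈ A, ∀ h ∈ H, ∀ g, h * x * ι g ∈ A)
    (hA' : ∀ x ∈ A, ∀ y ∈ A, ∃ h ∈ H, ∃ g, y = h * x * ι g) :
    ∑ x : W, (if x ∈ A then Nat.card (H.comap ((MulAut.conj x).toMonoidHom.comp ι)) else 0) =
      Nat.card H * Nat.card G := by
  letI : MulAction (H × G) W :=
    { smul := fun a x => a.1 * x * (ι a.2)⁻¹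
      one_smul := fun x => by
        change ((1 : H) : W) * x * (ι (1 : G))⁻¹ = x
        rw [Subgroup.coe_one, map_one]
        group
      mul_smul := fun a b x => by
        change ((a.1 * b.1 : H) : W) * x * (ι (a.2 * b.2))⁻¹ =
          (a.1 : W) * ((b.1 : W) * x * (ι b.2)⁻¹) * (ι a.2)⁻¹
        rw [Subgroup.coe_mul, map_mul]
        group }
  have hsm : ∀ (a : H × G) (x : W), a • x = (a.1 : W) * x * (ι a.2)⁻¹ := fun _ _ => rfl
  have horb : ∀ x ∈ A, MulAction.orbit (H × G) x = A := by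
    intro x hxA
    ext y
    constructor
    · rintro ⟨a, rfl⟩
      change a • x ∈ A
      rw [hsm, ← map_inv]
      exact hA x hxA _ a.1.2 _
    · intro hy
      obtain ⟨h, hh, g, rfl⟩ := hA' x hxA y hy
      refine ⟨(⟨h, hh⟩, g⁻¹), ?_⟩
      change ((⟨h, hh⟩ : H), g⁻¹) • x = _
      rw [hsm, map_inv, inv_inv]
  have hst : ∀ x : W, Nat.card (MulAction.stabilizer (H × G) x) =
      Nat.card (H.comap ((MulAut.conj x).toMonoidHom.comp ι)) := by
    intro x
    symm
    refine Nat.card_congr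
      { toFun := fun g => ⟨(⟨x * ι g * x⁻¹, g.2⟩, (g : G)), ?_⟩
        invFun := fun a => ⟨a.1.2, ?_⟩
        left_inv := fun g => rfl
        right_inv := fun a => ?_ }
    · rw [MulAction.mem_stabilizer_iff, hsm]
      change x * ι g * x⁻¹ * x * (ι g)⁻¹ = x
      group
    · have h1 := a.2
      rw [MulAction.mem_stabilizer_iff, hsm] at h1
      change x * ι a.1.2 * x⁻¹ ∈ H
      have h2 : x * ι a.1.2 * x⁻¹ = a.1.1 := by
        rw [mul_inv_eq_iff_eq_mul] at h1
        rw [← h1]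
        group
      rw [h2]
      exact a.1.1.2
    · have h1 := a.2
      rw [MulAction.mem_stabilizer_iff, hsm] at h1
      have h2 : x * ι a.1.2 * x⁻¹ = a.1.1 := by
        rw [mul_inv_eq_iff_eq_mul] at h1
        rw [← h1]
        group
      exact Subtype.ext (Prod.ext (Subtype.ext h2) rfl)
  have hcard : ∀ x ∈ A, Nat.card A * Nat.card (H.comap ((MulAut.conj x).toMonoidHom.comp ι)) =
      Nat.card H * Nat.card G := by
    intro x hxA
    have h1 := MulAction.card_orbit_mul_card_stabilizer_eq_card_group (H × G) x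
    rw [← Nat.card_eq_fintype_card, ← Nat.card_eq_fintype_card, ← Nat.card_eq_fintype_card,
      hst x, Nat.card_prod] at h1
    rw [← h1]
    congr 1
    rw [horb x hxA]
  have hA0 : 0 < Nat.card A := by
    haveI : Nonempty A := ⟨⟨x₁, hx⟩⟩
    exact Nat.card_pos
  apply Nat.eq_of_mul_eq_mul_left hA0
  rw [Finset.mul_sum]
  have h1 : ∀ x : W, Nat.card A * (if x ∈ A then
      Nat.card (H.comap ((MulAut.conj x).toMonoidHom.comp ι)) else 0) =
      if x ∈ A then Nat.card H * Nat.card G else 0 := by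
    intro x
    split_ifs with h
    · exact hcard x h
    · rfl
  rw [Finset.sum_congr rfl fun x _ => h1 x, ← Finset.sum_filter, Finset.sum_const, smul_eq_mul]
  congr 1
  rw [Nat.card_eq_fintype_card, Fintype.card_subtype]

end orbit

section pos

variable {T G W : Type} [Group T] [Fintype T] [Group G] [Fintype G] [Group W] [Fintype W]
  {π : T →* G} {i : G →* T} {j : T →* W}

theorem sum_ker_nat (Λ : T →* ℂ) {ψ : T → ℂ} (hψ : IsIrr ψ) :
    ∃ n : ℕ, ∑ k : π.ker, Λ (k : T)⁻¹ * ψ k = n := by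
  have hid : ∀ g : T, (MonoidHom.id T) ((MonoidHom.id T) g) = g := fun g => rfl
  have i' : IsIrr (tw (MonoidHom.id T) (linv Λ) ψ) := tw_irr hid (linv Λ) hψ
  obtain ⟨c, hc, hav⟩ := avg (D := π.ker) i'
  have h1 := hav 1
  have h2 : ∀ x : T, (1 : T)⁻¹ * x = x := fun x => by rw [inv_one, one_mul]
  simp only [h2] at h1
  rw [← Finset.sum_filter] at h1
  have h3 : ∑ k : π.ker, Λ (k : T)⁻¹ * ψ k = c * tw (MonoidHom.id T) (linv Λ) ψ 1 := by
    rw [← h1]
    exact (Finset.sum_subtype _ (fun t => by simp) (tw (MonoidHom.id T) (linv Λ) ψ)).symm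
  obtain ⟨n, -, hn⟩ := i'.deg
  rw [h3, ← hn]
  rcases hc with rfl | rfl
  · exact ⟨0, by rw [zero_mul, Nat.cast_zero]⟩
  · exact ⟨Nat.card π.ker * n, by push_cast; rfl⟩

/-- the induced characters are not orthogonal to `Λ` on the kernel -/
theorem cover_ne (hπ : ∀ g, π (i g) = g) (hj : Function.Injective j) (Λ : T →* ℂ)
    (hM : Moves π j Λ) {χ : G → ℂ} (hχ : IsIrr χ) :
    ∑ k : π.ker, Λ (k : T)⁻¹ * indj j (tw π Λ χ) (j k) ≠ 0 := by
  have ho : Orth j (twS π Λ Set.univ) := orth_tw hM Set.univ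
  have ht : IsIrr (tw π Λ χ) := tw_irr hπ Λ hχ
  have hθ : IsIrr (indj j (tw π Λ χ)) := indj_irr hj ho ⟨χ, trivial, rfl⟩ ht
  set θ := indj j (tw π Λ χ) with hθd
  have hcl : Pool.Agent.Helper884.IC.IsClass (fun t => θ (j t)) := cl_comp j (irr_cl hθ)
  have h1 := Pool.Agent.Helper884.IC.expand (fun t => θ (j t)) hcl
  have h2 : ∀ k : T, θ (j k) = ∑ ψ ∈ Pool.Agent.Helper884.IC.Irr T,
      Pool.Agent.Helper884.IC.B (fun t => θ (j t)) ψ * ψ k := by
    intro k
    have h3 := congrFun h1 k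
    simp only [Finset.sum_apply, Pi.smul_apply, smul_eq_mul] at h3
    exact h3
  have h3 : ∑ k : π.ker, Λ (k : T)⁻¹ * θ (j k) = ∑ ψ ∈ Pool.Agent.Helper884.IC.Irr T,
      Pool.Agent.Helper884.IC.B (fun t => θ (j t)) ψ * ∑ k : π.ker, Λ (k : T)⁻¹ * ψ k := by
    rw [Finset.sum_congr rfl fun k _ => by rw [h2 (k : T), Finset.mul_sum], Finset.sum_comm]
    refine Finset.sum_congr rfl fun ψ _ => ?_
    rw [Finset.mul_sum]
    refine Finset.sum_congr rfl fun k _ => ?_
    ring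
  have h4 : ∀ ψ : T → ℂ, ∃ n : ℕ, IsIrr ψ →
      Pool.Agent.Helper884.IC.B (fun t => θ (j t)) ψ * ∑ k : π.ker, Λ (k : T)⁻¹ * ψ k = n := by
    intro ψ
    by_cases hψ : IsIrr ψ
    · obtain ⟨a, ha⟩ := sum_ker_nat (π := π) Λ hψ
      obtain ⟨V₁, _, _, _, ρ₁, _, h5⟩ := id hψ
      obtain ⟨V₂, _, _, _, ρ₂, _, h6⟩ := id hθ
      obtain ⟨n, hn⟩ := B_nat (ρ₂.comp j) ρ₁
      refine ⟨n * a, fun _ => ?_⟩
      rw [ha]
      have e : Pool.Agent.Helper884.IC.B (fun t => θ (j t)) ψ = n := by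
        rw [← hn, h5, h6]
        rfl
      rw [e]
      push_cast
      rfl
    · exact ⟨0, fun h => absurd h hψ⟩
  choose N hN using h4
  have h5 : ∑ k : π.ker, Λ (k : T)⁻¹ * θ (j k) =
      ((∑ ψ ∈ Pool.Agent.Helper884.IC.Irr T, N ψ : ℕ) : ℂ) := by
    rw [h3]
    push_cast
    exact Finset.sum_congr rfl fun ψ hψ => hN ψ (mem_Irr.mp hψ)
  have h6 : Pool.Agent.Helper884.IC.B (fun t => θ (j t)) (tw π Λ χ) *
      ∑ k : π.ker, Λ (k : T)⁻¹ * tw π Λ χ k = Nat.card π.ker * χ 1 := by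
    have e1 : Pool.Agent.Helper884.IC.B (fun t => θ (j t)) (tw π Λ χ) = 1 := by
      rw [Pool.Agent.Helper884.IC.B_comm, ← B_indj j _ (irr_cl hθ),
        Pool.Agent.Helper884.IC.B_irr hθ hθ, if_pos rfl]
    rw [e1, one_mul]
    have e2 : ∀ k : π.ker, Λ (k : T)⁻¹ * tw π Λ χ k = χ 1 := by
      intro k
      have hk : π (k : T) = 1 := k.2
      unfold tw
      rw [hk]
      have := lin_mul Λ (k : T)
      linear_combination (χ 1) * this
    rw [Finset.sum_congr rfl fun k _ => e2 k, Finset.sum_const, Finset.card_univ, nsmul_eq_mul,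
      Nat.card_eq_fintype_card]
  have h7 : N (tw π Λ χ) ≠ 0 := by
    intro h0
    have h8 := hN _ ht
    rw [h6, h0, Nat.cast_zero] at h8
    exact mul_ne_zero (cardG_ne π.ker) hχ.one_ne h8
  rw [h5]
  have h8 : 0 < ∑ ψ ∈ Pool.Agent.Helper884.IC.Irr T, N ψ :=
    Finset.sum_pos' (fun _ _ => Nat.zero_le _) ⟨_, mem_Irr.mpr ht, Nat.pos_of_ne_zero h7⟩
  exact_mod_cast h8.ne'

end pos

end Pool.Agent.K4H11.FR
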