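import Pool.Agent.K4H11.FR.Cnt

/-!
# Fong–Reynolds for chain stabilisers and alternating sums
-/

set_option autoImplicit false
set_option linter.unusedSectionVars false
set_option linter.style.haveILetI false

open scoped BigOperators Classical

noncomputable section

namespace Pool.Agent.K4H11.FR

open Pool.Agent.Q90.WR Pool.Agent.H254R3.IN Pool.Agent.Q259.BW Pool.Agent.Q288.MB
open Pool.Agent.Y63.KR (IsPChain chainStabilizer conjSub mem_chainStabilizer conjSub_eq_iff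
  alternatingSum)
open Pool.Agent.R674.KB (mem_stab exists_greatest)

/-- the pairing with the inverse of `Λ` on the kernel -/
def ksum {T G : Type} [Group T] [Fintype T] [Group G] [Fintype G] (π : T →* G) (Λ : T →* ℂ)
    (θ : T → ℂ) : ℂ := ∑ k : π.ker, Λ (k : T)⁻¹ * θ k

/-- a condition on the degree of a character and the order of the group which depends only on the
`p`-part of their quotient -/
def QOK (p : ℕ) (Q : ℂ → ℕ → Prop) : Prop :=
  ∀ m m' a b k : ℕ, 0 < m → 0 < m' → 0 < a → 0 < b → ¬ p ∣ k → a * m' = k * b * m →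
    (Q (m : ℂ) a ↔ Q (m' : ℂ) b)

/-- the number of the characters of `H` with block inducing to `B` which satisfy the condition -/
def cntQ (O : ValuationSubring ℂ) (Q : ℂ → ℕ → Prop) {G : Type} [Group G] (B : Set (G → ℂ))
    (H : Subgroup G) : ℕ :=
  Nat.card {θ : H → ℂ // θ ∈ IndS O B (Subtype.val : H → G) ∧ Q (θ 1) (Nat.card H)}

section bij

variable {T G W : Type} [Group T] [Fintype T] [Group G] [Fintype G] [Group W] [Fintype W]
  {π : T →* G} {i : G →* T} {j : T →* W} {P S : Subgroup G} {RT : Subgroup T} {RW : Subgroup W}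
  {O : ValuationSubring ℂ} {p : ℕ} [hp : Fact p.Prime]

theorem LD.bij (h : LD π i j P S RT RW) (hπ : ∀ g, π (i g) = g) (hj : Function.Injective j)
    (hpO : (p : ℂ) ∈ O.nonunits)
    (hK : ¬ p ∣ Nat.card π.ker) (hP : IsPGroup p P) (Λ : T →* ℂ)
    (h2 : ∀ (x : W) (k : T), π k = 1 → ∃ k', π k' = 1 ∧ j k' = x⁻¹ * j k * x)
    (hM : Moves π j Λ)
    (hG : Cut O P S) (hW : Cut O ((P.map i).map j) RW) {B : Set (G → ℂ)} (hB : IsBlock O B)
    {Q : ℂ → ℕ → Prop} (hQ : QOK p Q) :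
    Nat.card {θ : RW → ℂ // (θ ∈ IndS O (indS j (twS π Λ B)) (Subtype.val : RW → W) ∧
        Q (θ 1) (Nat.card RW)) ∧
        ksum h.piL (h.lamL Λ) (fun t => θ (h.jL t)) ≠ 0} = cntQ O Q B S := by
  have hML := h.moves hπ hj hpO hK Λ hP h2 hM
  have hπL := h.piL_iL hπ
  have hjL := h.jL_inj hj
  have hKL : ¬ p ∣ Nat.card h.piL.ker := by
    intro hd
    apply hK
    refine hd.trans ?_
    refine Subgroup.card_dvd_of_injective
      ((RT.subtype.comp h.piL.ker.subtype).codRestrict π.ker fun k => ?_) ?_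
    · exact congrArg (fun z : S => (z : G)) (show h.piL k = 1 from k.2)
    · intro a b hab
      have h1 : ((a : RT) : T) = ((b : RT) : T) := congrArg (fun z : π.ker => (z : T)) hab
      exact Subtype.ext (Subtype.ext h1)
  have ho : Orth h.jL (twS h.piL (h.lamL Λ) {χ | IsIrr χ}) := orth_tw hML _
  have hirr : ∀ χ ∈ twS h.piL (h.lamL Λ) {χ | IsIrr χ}, IsIrr χ :=
    twS_irr hπL (h.lamL Λ) fun χ hχ => hχ
  have hΦ : ∀ θ : S → ℂ, IsIrr θ → IsIrr (indj h.jL (tw h.piL (h.lamL Λ) θ)) := fun θ hθ =>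
    indj_irr hjL ho ⟨θ, hθ, rfl⟩ (tw_irr hπL (h.lamL Λ) hθ)
  have hQΦ : ∀ θ : S → ℂ, IsIrr θ → (Q (indj h.jL (tw h.piL (h.lamL Λ) θ) 1) (Nat.card RW) ↔
      Q (θ 1) (Nat.card S)) := by
    intro θ hθ
    obtain ⟨m, hm0, hm⟩ := (hΦ θ hθ).deg
    obtain ⟨m', hm0', hm'⟩ := hθ.deg
    rw [← hm, ← hm']
    refine hQ m m' (Nat.card RW) (Nat.card S) (Nat.card h.piL.ker) hm0 hm0' Nat.card_pos
      Nat.card_pos hKL ?_
    have h1 : tw h.piL (h.lamL Λ) θ 1 = θ 1 := by
      unfold tw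
      rw [map_one, map_one, one_mul]
    have h3 := indj_one hjL (tw h.piL (h.lamL Λ) θ)
    rw [h1, ← hm, ← hm', card_split hπL] at h3
    have h4 := cardG_ne h.piL.ker
    have h5 := cardG_ne S
    push_cast at h3
    have h6 : (Nat.card RW : ℂ) * m' = Nat.card h.piL.ker * Nat.card S * m := by
      rw [h3]
      field_simp
    exact_mod_cast h6
  unfold cntQ
  symm
  refine Nat.card_congr (Equiv.ofBijective (fun θ => ⟨indj h.jL (tw h.piL (h.lamL Λ) θ.1),
    ⟨?_, ?_⟩, ?_⟩) ⟨?_, ?_⟩)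
  · exact (h.mem_iff hπ hj hpO hK hP Λ hM hG hW hB θ.2.1.1 (hΦ _ θ.2.1.1)).mpr θ.2.1
  · exact (hQΦ _ θ.2.1.1).mpr θ.2.2
  · exact cover_ne hπL hjL (h.lamL Λ) hML θ.2.1.1
  · intro θ η hθη
    have h3 : indj h.jL (tw h.piL (h.lamL Λ) θ.1) = indj h.jL (tw h.piL (h.lamL Λ) η.1) :=
      congrArg Subtype.val hθη
    have h4 := indj_inj hjL ho hirr ⟨θ.1, θ.2.1.1, rfl⟩ ⟨η.1, η.2.1.1, rfl⟩ h3
    exact Subtype.ext (tw_inj hπL (h.lamL Λ) h4)
  · rintro ⟨θ, ⟨h3, h4⟩, h5⟩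
    obtain ⟨χ, hχ, rfl⟩ := cover hπL hjL (h.lamL Λ) hML h3.1 h5
    exact ⟨⟨χ, (h.mem_iff hπ hj hpO hK hP Λ hM hG hW hB hχ (hΦ _ hχ)).mp h3,
      (hQΦ _ hχ).mp h4⟩, rfl⟩

theorem LD.cov_eq_sum (h : LD π i j P S RT RW) (hj : Function.Injective j) {j₀ : T →* W} {x : W}
    (hx : j = cj j₀ x) (hj₀ : Function.Injective j₀) (Λ : T →* ℂ) (θ : RW → ℂ) :
    cov π j₀ Λ θ x = ksum h.piL (h.lamL Λ) (fun t => θ (h.jL t)) := by
  have hjt : ∀ t : T, j t = x * j₀ t * x⁻¹ := fun t => by rw [hx]; rfl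
  have hmm : ∀ t : RT, mm π j₀ Λ x (h.jL t) = lk π Λ t := by
    intro t
    apply cst_eq hj₀
    have e : ((h.jL t : RW) : W) = j t := rfl
    rw [e, hjt]
    group
  have h3 : cov π j₀ Λ θ x = ∑ t : RT, lk π Λ t * θ (h.jL t) := by
    unfold cov
    symm
    refine Fintype.sum_of_injective h.jL (h.jL_inj hj) _ _ ?_ ?_
    · intro w hw
      have h4 : mm π j₀ Λ x w = 0 := by
        apply cst_zero
        intro k hk
        exfalso
        apply hw
        have h5 : j k = w := by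
          rw [hjt, hk]
          group
        have h6 : k ∈ RT := (h.a3 k).mpr (by rw [h5]; exact w.2)
        exact ⟨⟨k, h6⟩, Subtype.ext h5⟩
      rw [h4, zero_mul]
    · intro t
      rw [hmm]
  rw [h3, sum_C h.piL.ker fun t ht => by
    have h4 : π (t : T) ≠ 1 := fun h5 => ht (Subtype.ext h5)
    unfold lk
    rw [show dl (π (t : T)) = 0 from if_neg h4, mul_zero, zero_mul]]
  unfold ksum
  refine Finset.sum_congr (Finset.ext fun q => by simp) fun k _ => ?_
  have h4 : π ((k : RT) : T) = 1 := congrArg (fun z : S => (z : G)) (show h.piL k = 1 from k.2)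
  unfold lk
  rw [h4, show dl (1 : G) = 1 from if_pos rfl, mul_one]
  rfl

end bij

end Pool.Agent.K4H11.FR
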