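import Pool.Agent.K4H11.FR.Cnu
import Pool.Agent.Q90.WR.Bcj

/-!
# The alternating sums of a block and of the block above it agree
-/

set_option autoImplicit false
set_option linter.unusedSectionVars false
set_option linter.style.haveILetI false

open scoped BigOperators Classical

noncomputable section

namespace Pool.Agent.K4H11.FR

open Pool.Agent.Q90.WR Pool.Agent.H254R3.IN Pool.Agent.Q259.BW Pool.Agent.Q288.MB
open Pool.Agent.Y63.KR (IsPChain chainStabilizer conjSub mem_chainStabilizer conjSub_eq_iff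
  alternatingSum)
open Pool.Agent.R674.KB (mem_stab exists_greatest)

theorem cntQ_conj {O : ValuationSubring ℂ} {Q : ℂ → ℕ → Prop} {G : Type} [Group G]
    (B : Set (G → ℂ)) (b : G) (H : Subgroup G) : cntQ O Q B (conjSub b H) = cntQ O Q B H := by
  unfold cntQ
  set e := conjEquiv b H with he
  have h : ∀ θ : conjSub b H → ℂ, (fun g => θ (e g)) ∈ IndS O B (Subtype.val : H → G) ↔
      θ ∈ IndS O B (Subtype.val : conjSub b H → G) := fun θ =>
    IndS_congr e (fun c => isConj_iff.mpr ⟨b, rfl⟩) θ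
  refine Nat.card_congr ⟨fun θ => ⟨fun g => θ.1 (e g), ?_⟩, fun θ => ⟨fun g => θ.1 (e.symm g), ?_⟩,
    fun θ => ?_, fun θ => ?_⟩
  · refine ⟨(h θ.1).mpr θ.2.1, ?_⟩
    change Q (θ.1 (e 1)) _
    rw [map_one, Nat.card_congr e.toEquiv]
    exact θ.2.2
  · refine ⟨(h _).mp (by simpa using θ.2.1), ?_⟩
    change Q (θ.1 (e.symm 1)) _
    rw [map_one, ← Nat.card_congr e.toEquiv]
    exact θ.2.2
  · apply Subtype.ext
    funext g
    simp
  · apply Subtype.ext
    funext g
    simp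

section main

variable {T G W : Type} [Group T] [Fintype T] [Group G] [Fintype G] [Group W] [Fintype W]
  {π : T →* G} {i : G →* T} {j : T →* W} {O : ValuationSubring ℂ} {p : ℕ} [hp : Fact p.Prime]

theorem cj_inj (hj : Function.Injective j) (x : W) : Function.Injective (cj j x) :=
  (MulAut.conj x).injective.comp hj

theorem cj_ker (h2 : ∀ (x : W) (k : T), π k = 1 → ∃ k', π k' = 1 ∧ j k' = x⁻¹ * j k * x)
    (y : W) : ∀ (x : W) (k : T), π k = 1 → ∃ k', π k' = 1 ∧ cj j y k' = x⁻¹ * cj j y k * x := by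
  intro x k hk
  obtain ⟨k', h3, h4⟩ := h2 (y⁻¹ * x * y) k hk
  refine ⟨k', h3, ?_⟩
  rw [cj_apply, cj_apply, h4]
  group

theorem cj_moves {Λ : T →* ℂ} (hM : Moves π j Λ) (y : W) : Moves π (cj j y) Λ := by
  intro x hx
  have h3 : y⁻¹ * x * y ∉ j.range := by
    rintro ⟨t, ht⟩
    apply hx
    refine ⟨t, ?_⟩
    rw [cj_apply, ht]
    group
  obtain ⟨k, k', h4, h5, h6, h7⟩ := hM _ h3
  refine ⟨k, k', h4, h5, ?_, h7⟩
  rw [cj_apply, cj_apply, h6]
  group

theorem cj_indj (f : T → ℂ) (y : W) : indj (cj j y) f = indj j f := by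
  funext w
  unfold indj
  congr 1
  refine Fintype.sum_equiv (Equiv.mulRight y) _ _ fun x => ?_
  simp only [Equiv.coe_mulRight]
  unfold cst
  refine Finset.sum_congr rfl fun t _ => if_congr ?_ rfl rfl
  rw [cj_apply]
  constructor
  · intro h
    have e : j t = y⁻¹ * (y * j t * y⁻¹) * y := by group
    rw [e, h]
    group
  · intro h
    rw [h]
    group

theorem cj_indS (b : Set (T → ℂ)) (y : W) : indS (cj j y) b = indS j b := by
  ext χ
  constructor
  · rintro ⟨θ, hθ, rfl⟩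
    exact ⟨θ, hθ, cj_indj θ y⟩
  · rintro ⟨θ, hθ, rfl⟩
    exact ⟨θ, hθ, (cj_indj θ y).symm⟩

variable (hπ : ∀ g, π (i g) = g) (hj : Function.Injective j)
  (h2 : ∀ (x : W) (k : T), π k = 1 → ∃ k', π k' = 1 ∧ j k' = x⁻¹ * j k * x)

include hπ hj h2 in
theorem count_x (hpO : (p : ℂ) ∈ O.nonunits) (hK : ¬ p ∣ Nat.card π.ker) (Λ : T →* ℂ)
    (hM : Moves π j Λ) {B : Set (G → ℂ)} (hB : IsBlock O B) {Q : ℂ → ℕ → Prop} (hQ : QOK p Q)
    {σ : Set (Subgroup G)} (hσ : IsPChain p σ) (x : W) {τ : Set (Subgroup W)}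
    (hτ : mapC ((cj j x).comp i) σ = τ) :
    Nat.card {θ : chainStabilizer τ → ℂ //
      (θ ∈ IndS O (indS j (twS π Λ B)) (Subtype.val : chainStabilizer τ → W) ∧
        Q (θ 1) (Nat.card (chainStabilizer τ))) ∧ cov π j Λ θ x ≠ 0} =
      cntQ O Q B (chainStabilizer σ) := by
  subst hτ
  have hj' := cj_inj hj x
  have hι : Function.Injective ((cj j x).comp i) := hj'.comp (sec_inj hπ)
  have hld := ld_chain (i := i) hπ hj' σ
  have hW : Cut O (((sSup σ).map i).map (cj j x))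
      (chainStabilizer (mapC ((cj j x).comp i) σ)) := by
    have h3 := cut_chain hpO (mapC_chain hι hσ)
    rw [sSup_mapC] at h3
    rw [Subgroup.map_map]
    exact h3
  have h4 := hld.bij hπ hj' hpO hK (sSup_pgroup hσ) Λ (cj_ker h2 x) (cj_moves hM x)
    (cut_chain hpO hσ) hW hB hQ
  rw [cj_indS] at h4
  rw [← h4]
  refine Nat.card_congr (Equiv.subtypeEquivRight fun θ => ?_)
  rw [hld.cov_eq_sum hj' rfl hj Λ θ]

include hπ hj h2 in
theorem count_tau (hpO : (p : ℂ) ∈ O.nonunits) (hK : ¬ p ∣ Nat.card π.ker) (Λ : T →* ℂ)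
    (hM : Moves π j Λ) {B : Set (G → ℂ)} (hB : IsBlock O B) {Q : ℂ → ℕ → Prop} (hQ : QOK p Q)
    {τ : Set (Subgroup W)} (hτ : IsPChain p τ) {H : Subgroup W} (hH : H = chainStabilizer τ) :
    ∑ x : W, (if Good i j τ x then Nat.card (H.comap ((cj j x).comp i)) *
      cntQ O Q B (H.comap ((cj j x).comp i)) else 0) =
      Nat.card H * Nat.card G * cntQ O Q (indS j (twS π Λ B)) H := by
  have hfin : Finite {θ : H → ℂ // θ ∈ IndS O (indS j (twS π Λ B)) (Subtype.val : H → W) ∧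
      Q (θ 1) (Nat.card H)} := by
    have h3 : {χ : H → ℂ | Pool.Agent.Helper884.IC.IsIrrChar χ}.Finite :=
      Pool.Agent.Helper884.IC.irr_finite
    exact (h3.subset fun θ hθ => (hθ.1.1 : IsIrr θ)).to_subtype
  have := Fintype.ofFinite {θ : H → ℂ //
    θ ∈ IndS O (indS j (twS π Λ B)) (Subtype.val : H → W) ∧ Q (θ 1) (Nat.card H)}
  have h3 : ∀ x : W, (if Good i j τ x then Nat.card (H.comap ((cj j x).comp i)) *
      cntQ O Q B (H.comap ((cj j x).comp i)) else 0) =
      ∑ θ : {θ : H → ℂ // θ ∈ IndS O (indS j (twS π Λ B)) (Subtype.val : H → W) ∧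
        Q (θ 1) (Nat.card H)}, (if x ∈ {x | Good i j τ x ∧ cov π j Λ θ.1 x ≠ 0} then
          Nat.card (H.comap ((MulAut.conj x).toMonoidHom.comp (j.comp i))) else 0) := by
    intro x
    by_cases hx : Good i j τ x
    · rw [if_pos hx]
      have hι : Function.Injective ((cj j x).comp i) := (cj_inj hj x).comp (sec_inj hπ)
      obtain ⟨σ, hσ, h4⟩ := exists_mapC hι hτ hx
      have h5 : H.comap ((cj j x).comp i) = chainStabilizer σ := by
        rw [hH, ← h4]
        exact stab_mapC hι σ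
      have h6 := count_x (Q := Q) hπ hj h2 hpO hK Λ hM hB hQ hσ x h4
      rw [← hH] at h6
      have h7 : Nat.card {θ : H → ℂ //
          (θ ∈ IndS O (indS j (twS π Λ B)) (Subtype.val : H → W) ∧ Q (θ 1) (Nat.card H)) ∧
            cov π j Λ θ x ≠ 0} =
          ∑ θ : {θ : H → ℂ // θ ∈ IndS O (indS j (twS π Λ B)) (Subtype.val : H → W) ∧
            Q (θ 1) (Nat.card H)}, (if cov π j Λ θ.1 x ≠ 0 then 1 else 0) := by
        rw [← Finset.sum_filter, Finset.sum_const, smul_eq_mul, mul_one, ← Fintype.card_subtype,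
          ← Nat.card_eq_fintype_card]
        exact (Nat.card_congr (Equiv.subtypeSubtypeEquivSubtypeInter _ _)).symm
      rw [h5, ← h6, h7, Finset.mul_sum]
      refine Finset.sum_congr rfl fun θ _ => ?_
      have h8 : H.comap ((MulAut.conj x).toMonoidHom.comp (j.comp i)) = chainStabilizer σ := h5
      rw [h8]
      by_cases h9 : cov π j Λ θ.1 x ≠ 0
      · rw [if_pos h9, if_pos (show x ∈ {x | Good i j τ x ∧ cov π j Λ θ.1 x ≠ 0} from ⟨hx, h9⟩),
          mul_one]
      · rw [if_neg h9, if_neg (fun h => h9 h.2), mul_zero]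
    · rw [if_neg hx]
      symm
      refine Finset.sum_eq_zero fun θ _ => if_neg fun h => hx h.1
  rw [Finset.sum_congr rfl fun x _ => h3 x, Finset.sum_comm]
  have hmem : ∀ w, w ∈ H ↔ w ∈ chainStabilizer τ := fun w => by rw [hH]
  have h4 : ∀ θ : {θ : H → ℂ // θ ∈ IndS O (indS j (twS π Λ B)) (Subtype.val : H → W) ∧
      Q (θ 1) (Nat.card H)}, ∑ x : W, (if x ∈ {x | Good i j τ x ∧ cov π j Λ θ.1 x ≠ 0} then
        Nat.card (H.comap ((MulAut.conj x).toMonoidHom.comp (j.comp i))) else 0) =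
      Nat.card H * Nat.card G := by
    intro θ
    obtain ⟨x₁, hx₁⟩ := exists_cov hπ hj h2 hpO hK hM hB hτ hH θ.2.1
    have h9 := orbit_count H (j.comp i) {x | Good i j τ x ∧ cov π j Λ θ.1 x ≠ 0} (x₁ := x₁) hx₁
      ?_ ?_
    · convert h9
    · rintro x ⟨gx, cx⟩ h hh g
      refine ⟨good_mul gx ((hmem h).mp hh) g, ?_⟩
      change cov π j Λ θ.1 (h * x * j (i g)) ≠ 0
      rw [cov_mul hj θ.2.1.1 hh ⟨i g, rfl⟩]
      exact cx
    · rintro x ⟨gx, cx⟩ y ⟨gy, cy⟩
      exact cov_unique hπ hj h2 hpO hK hM hτ hH θ.2.1.1 gx gy cx cy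
  rw [Finset.sum_congr rfl fun θ _ => h4 θ, Finset.sum_const, smul_eq_mul, Finset.card_univ,
    ← Nat.card_eq_fintype_card, mul_comm]
  rfl

include hπ hj h2 in
/-- **The alternating sums agree.** -/
theorem alt_eq (hpO : (p : ℂ) ∈ O.nonunits) (hK : ¬ p ∣ Nat.card π.ker) (Λ : T →* ℂ)
    (hM : Moves π j Λ) {B : Set (G → ℂ)} (hB : IsBlock O B) {Q : ℂ → ℕ → Prop} (hQ : QOK p Q) :
    alternatingSum p W (fun H => (cntQ O Q (indS j (twS π Λ B)) H : ℤ)) =
      alternatingSum p G (fun H => (cntQ O Q B H : ℤ)) := by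
  have h3 := card_mul_alternatingSum' (p := p)
    (fun H : Subgroup W => (cntQ O Q (indS j (twS π Λ B)) H : ℤ))
    (fun g H => by simp only [cntQ_conj])
  have h4 := card_mul_alternatingSum' (p := p) (fun H : Subgroup G => (cntQ O Q B H : ℤ))
    (fun g H => by simp only [cntQ_conj])
  have h5 : (Nat.card G : ℤ) * ∑ τ : Ch p W, (-1) ^ τ.1.ncard *
      ((Nat.card (chainStabilizer τ.1) : ℤ) *
        (cntQ O Q (indS j (twS π Λ B)) (chainStabilizer τ.1) : ℤ)) =
      (Nat.card W : ℤ) * ∑ σ : Ch p G, (-1) ^ σ.1.ncard *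
        ((Nat.card (chainStabilizer σ.1) : ℤ) * (cntQ O Q B (chainStabilizer σ.1) : ℤ)) := by
    have h6 : ∀ τ : Ch p W, (Nat.card G : ℤ) * ((-1) ^ τ.1.ncard *
        ((Nat.card (chainStabilizer τ.1) : ℤ) *
          (cntQ O Q (indS j (twS π Λ B)) (chainStabilizer τ.1) : ℤ))) =
        ∑ x : W, (if ∀ Q ∈ τ.1, Q ≤ ((cj j x).comp i).range then (-1) ^ τ.1.ncard *
          ((Nat.card ((chainStabilizer τ.1).comap ((cj j x).comp i)) *
            cntQ O Q B ((chainStabilizer τ.1).comap ((cj j x).comp i)) : ℕ) : ℤ) else 0) := by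
      intro τ
      have h7 := count_tau (Q := Q) hπ hj h2 hpO hK Λ hM hB hQ τ.2 rfl
      have h8 : (Nat.card G : ℤ) * ((-1) ^ τ.1.ncard *
        ((Nat.card (chainStabilizer τ.1) : ℤ) *
          (cntQ O Q (indS j (twS π Λ B)) (chainStabilizer τ.1) : ℤ))) = (-1) ^ τ.1.ncard *
          ((Nat.card (chainStabilizer τ.1) * Nat.card G *
            cntQ O Q (indS j (twS π Λ B)) (chainStabilizer τ.1) : ℕ) : ℤ) := by
        push_cast
        ring
      rw [h8, ← h7, Nat.cast_sum, Finset.mul_sum]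
      refine Finset.sum_congr rfl fun x _ => ?_
      unfold Good
      split_ifs
      · rfl
      · rw [Nat.cast_zero, mul_zero]
    rw [Finset.mul_sum, Finset.sum_congr rfl fun τ _ => h6 τ, Finset.sum_comm]
    have h7 : ∀ x : W, ∑ τ : Ch p W, (if ∀ Q ∈ τ.1, Q ≤ ((cj j x).comp i).range then
        (-1) ^ τ.1.ncard * ((Nat.card ((chainStabilizer τ.1).comap ((cj j x).comp i)) *
            cntQ O Q B ((chainStabilizer τ.1).comap ((cj j x).comp i)) : ℕ) : ℤ) else 0) =
        ∑ σ : Ch p G, (-1) ^ σ.1.ncard *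
          ((Nat.card (chainStabilizer σ.1) : ℤ) * (cntQ O Q B (chainStabilizer σ.1) : ℤ)) := by
      intro x
      have hι : Function.Injective ((cj j x).comp i) := (cj_inj hj x).comp (sec_inj hπ)
      have h8 := sum_mapC (p := p) hι (fun H : Subgroup W =>
          ((Nat.card (H.comap ((cj j x).comp i)) * cntQ O Q B (H.comap ((cj j x).comp i)) : ℕ) : ℤ))
        (fun H : Subgroup G => (Nat.card H : ℤ) * (cntQ O Q B H : ℤ)) (fun σ => by
          simp only [stab_mapC hι]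
          push_cast
          rfl)
      rw [← h8]
      refine Finset.sum_congr rfl fun τ _ => ?_
      convert rfl
    rw [Finset.sum_congr rfl fun x _ => h7 x, Finset.sum_const, Finset.card_univ, nsmul_eq_mul,
      Nat.card_eq_fintype_card (α := W)]
  rw [← h3, ← h4] at h5
  have hG : (Nat.card G : ℤ) ≠ 0 := by exact_mod_cast Nat.card_pos.ne'
  have hW : (Nat.card W : ℤ) ≠ 0 := by exact_mod_cast Nat.card_pos.ne'
  apply mul_left_cancel₀ (mul_ne_zero hG hW)
  linear_combination h5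

end main

end Pool.Agent.K4H11.FR
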