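import Mathlib

/-!
# Perfect groups `V ⋊ H` in which a given subgroup of `H` is the stabiliser of a linear character
-/

set_option autoImplicit false
set_option linter.unusedSectionVars false
set_option linter.style.haveILetI false

open scoped BigOperators Classical

noncomputable section

namespace Pool.Agent.K4H11.FR

section perm

variable {H : Type} [Group H] [Fintype H] (R : Subgroup H) (q : ℕ) [Fact q.Prime]

/-- functions on the cosets of `R` -/
abbrev Fn : Type := (H ⧸ R) → Multiplicative (ZMod q)

/-- the product of the values -/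
def prodHom : Fn R q →* Multiplicative (ZMod q) where
  toFun f := ∏ ω, f ω
  map_one' := by simp
  map_mul' f g := by simp [Finset.prod_mul_distrib]

/-- functions with product one: the augmentation submodule of the permutation module -/
def V0 : Subgroup (Fn R q) := (prodHom R q).ker

variable {R q}

theorem mem_V0 {f : Fn R q} : f ∈ V0 R q ↔ ∏ ω, f ω = 1 := Iff.rfl

/-- translation of a function -/
def tr (a : H) (f : Fn R q) : Fn R q := fun ω => f (a⁻¹ • ω)

theorem tr_prod (a : H) (f : Fn R q) : ∏ ω, tr a f ω = ∏ ω, f ω :=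
  Equiv.prod_comp (MulAction.toPerm a⁻¹ : Equiv.Perm (H ⧸ R)) f

theorem tr_mem (a : H) {f : Fn R q} (hf : f ∈ V0 R q) : tr a f ∈ V0 R q := by
  rw [mem_V0, tr_prod]
  exact hf

theorem tr_mul (a b : H) (f : Fn R q) : tr (a * b) f = tr a (tr b f) := by
  funext ω
  unfold tr
  rw [mul_inv_rev, mul_smul]

theorem tr_one (f : Fn R q) : tr 1 f = f := by
  funext ω
  unfold tr
  rw [inv_one, one_smul]

theorem tr_hmul (a : H) (f g : Fn R q) : tr a (f * g) = tr a f * tr a g := rfl

theorem tr_inv (a : H) (f : Fn R q) : tr a f⁻¹ = (tr a f)⁻¹ := rfl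

/-- the action on the augmentation submodule -/
def phi : H →* MulAut (V0 R q) where
  toFun a :=
    { toFun := fun f => ⟨tr a f, tr_mem a f.2⟩
      invFun := fun f => ⟨tr a⁻¹ f, tr_mem a⁻¹ f.2⟩
      left_inv := fun f => Subtype.ext (by
        change tr a⁻¹ (tr a f.1) = f.1
        rw [← tr_mul, inv_mul_cancel, tr_one])
      right_inv := fun f => Subtype.ext (by
        change tr a (tr a⁻¹ f.1) = f.1
        rw [← tr_mul, mul_inv_cancel, tr_one])
      map_mul' := fun f g => rfl }
  map_one' := by
    ext f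
    exact congrFun (tr_one (f : Fn R q)) _
  map_mul' a b := by
    ext f
    exact congrFun (tr_mul a b (f : Fn R q)) _

theorem phi_coe (a : H) (f : V0 R q) : ((phi a f : V0 R q) : Fn R q) = tr a f := rfl

variable (R q)

/-- the semidirect product of the augmentation submodule and `H` -/
abbrev WW : Type := V0 R q ⋊[phi (R := R) (q := q)] H

instance : Finite (WW R q) := Finite.of_equiv _ (SemidirectProduct.equivProd).symm

variable {R q}

/-- the class of a function and a group element in the abelianised group -/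
theorem of_cocycle (hH : commutator H = ⊤) (u : Fn R q) (a : H)
    (h : tr a u * u⁻¹ ∈ V0 R q) :
    Abelianization.of (SemidirectProduct.inl ⟨tr a u * u⁻¹, h⟩ : WW R q) = 1 := by
  have hm : ∀ b : H, tr b u * u⁻¹ ∈ V0 R q := by
    intro b
    rw [mem_V0]
    simp only [Pi.mul_apply, Pi.inv_apply, Finset.prod_mul_distrib, Finset.prod_inv_distrib]
    rw [tr_prod, mul_inv_cancel]
  let F : H →* Abelianization (WW R q) :=
    { toFun := fun b => Abelianization.of (SemidirectProduct.inl ⟨tr b u * u⁻¹, hm b⟩ : WW R q)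
      map_one' := by
        have e : (⟨tr 1 u * u⁻¹, hm 1⟩ : V0 R q) = 1 := Subtype.ext (by
          change tr 1 u * u⁻¹ = 1
          rw [tr_one, mul_inv_cancel])
        rw [e, map_one, map_one]
      map_mul' := by
        intro b c
        have e : (⟨tr (b * c) u * u⁻¹, hm (b * c)⟩ : V0 R q) =
            phi b ⟨tr c u * u⁻¹, hm c⟩ * ⟨tr b u * u⁻¹, hm b⟩ := Subtype.ext (by
          change tr (b * c) u * u⁻¹ = tr b (tr c u * u⁻¹) * (tr b u * u⁻¹)
          rw [tr_hmul, tr_mul, tr_inv]
          group)
        have e2 : Abelianization.of (SemidirectProduct.inl (phi b ⟨tr c u * u⁻¹, hm c⟩) : WW R q) =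
            Abelianization.of (SemidirectProduct.inl ⟨tr c u * u⁻¹, hm c⟩ : WW R q) := by
          rw [SemidirectProduct.inl_aut, map_inv, map_mul, map_mul, map_inv, mul_comm
            (Abelianization.of (SemidirectProduct.inr b : WW R q)), mul_inv_cancel_right]
        rw [e, map_mul, map_mul, e2, mul_comm] }
  have h1 : F.ker = ⊤ := by
    rw [eq_top_iff, ← hH]
    exact Abelianization.commutator_subset_ker F
  have h2 : a ∈ F.ker := h1 ▸ Subgroup.mem_top a
  exact h2

theorem WW_perfect (hH : commutator H = ⊤) : commutator (WW R q) = ⊤ := by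
  rw [eq_top_iff]
  intro w _
  rw [← Abelianization.ker_of (WW R q), MonoidHom.mem_ker]
  have h1 : ∀ a : H, Abelianization.of (SemidirectProduct.inr a : WW R q) = 1 := by
    intro a
    let F : H →* Abelianization (WW R q) := Abelianization.of.comp SemidirectProduct.inr
    have h1 : F.ker = ⊤ := by
      rw [eq_top_iff, ← hH]
      exact Abelianization.commutator_subset_ker F
    have h2 : a ∈ F.ker := h1 ▸ Subgroup.mem_top a
    exact h2
  have h2 : ∀ v : V0 R q, Abelianization.of (SemidirectProduct.inl v : WW R q) = 1 := by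
    intro v
    have hm : ∀ (b : H) (u : Fn R q), tr b u * u⁻¹ ∈ V0 R q := by
      intro b u
      rw [mem_V0]
      simp only [Pi.mul_apply, Pi.inv_apply, Finset.prod_mul_distrib, Finset.prod_inv_distrib]
      rw [tr_prod, mul_inv_cancel]
    let ω₀ : H ⧸ R := ((1 : H) : H ⧸ R)
    let u : (H ⧸ R) → Fn R q := fun ω => Pi.mulSingle ω₀ ((v : Fn R q) ω)
    have hu : ∀ ω : H ⧸ R, tr ω.out (u ω) = Pi.mulSingle ω ((v : Fn R q) ω) := by
      intro ω
      have hω : ω.out • ω₀ = ω := by
        change ((ω.out * 1 : H) : H ⧸ R) = ω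
        rw [mul_one, QuotientGroup.out_eq']
      funext ω'
      change (Pi.mulSingle ω₀ ((v : Fn R q) ω) : Fn R q) (ω.out⁻¹ • ω') = _
      by_cases h : ω' = ω
      · subst h
        have : (ω'.out)⁻¹ • ω' = ω₀ := by rw [inv_smul_eq_iff, hω]
        rw [this, Pi.mulSingle_eq_same, Pi.mulSingle_eq_same]
      · rw [Pi.mulSingle_eq_of_ne h, Pi.mulSingle_eq_of_ne]
        intro h3
        apply h
        rw [inv_smul_eq_iff, hω] at h3
        exact h3
    have hv : v = ∏ ω : H ⧸ R, (⟨tr ω.out (u ω) * (u ω)⁻¹, hm ω.out (u ω)⟩ : V0 R q) := by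
      apply Subtype.ext
      rw [Subgroup.val_finsetProd]
      simp only [hu]
      rw [Finset.prod_mul_distrib, Finset.prod_inv_distrib]
      have e1 : ∏ ω : H ⧸ R, (Pi.mulSingle ω ((v : Fn R q) ω) : Fn R q) = v :=
        Finset.univ_prod_mulSingle _
      have e2 : ∏ ω : H ⧸ R, u ω = 1 := by
        have e3 : ∀ ω, u ω = MonoidHom.mulSingle (fun _ => Multiplicative (ZMod q)) ω₀
            ((v : Fn R q) ω) := fun ω => rfl
        rw [Finset.prod_congr rfl fun ω _ => e3 ω, ← map_prod, mem_V0.mp v.2, map_one]
      rw [e1, e2, inv_one, mul_one]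
    have h3 : Abelianization.of (SemidirectProduct.inl v : WW R q) =
        (Abelianization.of.comp (SemidirectProduct.inl : V0 R q →* WW R q)) v := rfl
    rw [h3, hv, map_prod]
    refine Finset.prod_eq_one fun ω _ => ?_
    exact of_cocycle hH (u ω) ω.out (hm ω.out (u ω))
  have h3 : w = SemidirectProduct.inl w.left * SemidirectProduct.inr w.right :=
    (SemidirectProduct.inl_left_mul_inr_right w).symm
  rw [h3, map_mul, h1, h2, mul_one]

end perm

end Pool.Agent.K4H11.FR
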