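import Pool.Agent.K4H11.FR.Mx

/-!
# Characters of chain stabilisers cover conjugates of the linear character
-/

set_option autoImplicit false
set_option linter.unusedSectionVars false
set_option linter.style.haveILetI false

open scoped BigOperators Classical

noncomputable section

namespace Pool.Agent.K4H11.FR

open Pool.Agent.Q90.WR Pool.Agent.H254R3.IN Pool.Agent.Q259.BW Pool.Agent.Q288.MB
open Pool.Agent.Y63.KR (IsPChain chainStabilizer conjSub mem_chainStabilizer conjSub_eq_iff)
open Pool.Agent.R674.KB (mem_stab exists_greatest)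

variable {T G W : Type} [Group T] [Fintype T] [Group G] [Fintype G] [Group W] [Fintype W]
  {π : T →* G} {i : G →* T} {j : T →* W} {Λ : T →* ℂ}

/-- `j` followed by the conjugation with `x` -/
def cj (j : T →* W) (x : W) : T →* W := (MulAut.conj x).toMonoidHom.comp j

theorem cj_apply (j : T →* W) (x : W) (t : T) : cj j x t = x * j t * x⁻¹ := rfl

/-- the members of `τ` are contained in the conjugate by `x` of the image of `G` -/
def Good (i : G →* T) (j : T →* W) (τ : Set (Subgroup W)) (x : W) : Prop :=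
  ∀ Q ∈ τ, Q ≤ ((cj j x).comp i).range

theorem mem_cjr (i : G →* T) (j : T →* W) (x y : W) :
    y ∈ ((cj j x).comp i).range ↔ x⁻¹ * y * x ∈ (j.comp i).range := by
  constructor
  · rintro ⟨g, rfl⟩
    refine ⟨g, ?_⟩
    change j (i g) = x⁻¹ * (x * j (i g) * x⁻¹) * x
    group
  · rintro ⟨g, hg⟩
    refine ⟨g, ?_⟩
    have hg' : j (i g) = x⁻¹ * y * x := hg
    change x * j (i g) * x⁻¹ = y
    rw [hg']
    group

/-- the pairing of `θ` with the conjugate of `Λ` by `x` -/
def cov (π : T →* G) (j : T →* W) (Λ : T →* ℂ) {H : Subgroup W} (θ : H → ℂ) (x : W) : ℂ :=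
  ∑ h : H, mm π j Λ x h * θ h

theorem sum_C {H : Type} [Group H] [Fintype H] (C : Subgroup H) {f : H → ℂ}
    (h0 : ∀ h, h ∉ C → f h = 0) : ∑ h, f h = ∑ u : C, f u := by
  rw [← Finset.sum_subtype (p := fun t : H => t ∈ C)
    (Finset.univ.filter fun t : H => t ∈ C) (fun t => by simp) f, Finset.sum_filter]
  refine Finset.sum_congr rfl fun t _ => ?_
  split_ifs with ht
  · rfl
  · exact h0 t ht

variable (hπ : ∀ g, π (i g) = g) (hj : Function.Injective j)
  (h2 : ∀ (x : W) (k : T), π k = 1 → ∃ k', π k' = 1 ∧ j k' = x⁻¹ * j k * x)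
  {O : ValuationSubring ℂ} {p : ℕ} [hp : Fact p.Prime]

include hj h2 in
/-- the restriction of a conjugate of the inverse of `Λ`, as a homomorphism -/
theorem exists_mmHom {H : Subgroup W} (x : W) :
    ∃ M : (NK π j).comap H.subtype →* ℂ, ∀ u, M u = mm π j Λ x ((u : H) : W) :=
  ⟨{ toFun := fun u => mm π j Λ x ((u : H) : W)
     map_one' := mm_one hj x
     map_mul' := fun u v => mm_mul hj h2 u.2 v.2 x }, fun _ => rfl⟩

include hj h2 in
theorem cov_eq {H : Subgroup W} (θ : H → ℂ) (x : W) :
    cov π j Λ θ x = ∑ u : (NK π j).comap H.subtype, mm π j Λ x ((u : H) : W) * θ u := by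
  unfold cov
  exact sum_C ((NK π j).comap H.subtype) (f := fun h : H => mm π j Λ x h * θ h) fun h hh => by
    have e : mm π j Λ x h = 0 := mm_zero h2 hh x
    rw [e, zero_mul]

include hπ hj h2 in
/-- every character of a chain stabiliser whose block induces to the block above `B` covers a
conjugate of `Λ`, and the chain is contained in the corresponding conjugate of `G` -/
theorem exists_cov (hpO : (p : ℂ) ∈ O.nonunits) (hK : ¬ p ∣ Nat.card π.ker)
    (hM : Moves π j Λ) {B : Set (G → ℂ)} (hB : IsBlock O B) {τ : Set (Subgroup W)}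
    (hτ : IsPChain p τ) {H : Subgroup W} (hH : H = chainStabilizer τ) {θ : H → ℂ}
    (hθ : θ ∈ IndS O (indS j (twS π Λ B)) H.subtype) :
    ∃ x : W, Good i j τ x ∧ cov π j Λ θ x ≠ 0 := by
  haveI := charP_RF hpO
  obtain ⟨χ₀, h0⟩ := hB.nonempty
  have hB1 := twS_block hπ hK hpO Λ hB
  have ho : Orth j (twS π Λ B) := orth_tw hM B
  have hB' := indS_block hj ho hB1
  have h0' : indj j (tw π Λ χ₀) ∈ indS j (twS π Λ B) := ⟨_, ⟨χ₀, h0, rfl⟩, rfl⟩
  have hinv := inv_ker_mem (O := O) hpO hK
  set f : T → ℂ := fun t => (Nat.card π.ker : ℂ)⁻¹ * Λ t⁻¹ * dl (π t) with hf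
  have hfe : ∀ t, f t = (Nat.card π.ker : ℂ)⁻¹ * lk π Λ t := fun t => by
    simp only [hf, lk]
    ring
  have hfc : IsCl f := by
    intro g y
    rw [hfe, hfe, lk_cl π Λ g y]
  have hfO : ∀ t, f t ∈ O := fun t => by
    rw [hfe]
    exact O.mul_mem _ _ hinv (lk_mem O π Λ t)
  obtain ⟨hi, hθ2⟩ := (mem_IndS_iff hB' h0' H.subtype θ).mp hθ
  have hA := hθ2 (indj j f) (indj_cl j f) (indj_mem hj hfc hfO)
  rw [Om_indj hj _ (indj_cl j f), Om_tw hπ, pu_surj hπ hj Λ hM dl_cl, Om_dl (hB.irr χ₀ h0),
    red_one] at hA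
  -- restriction to the normal subgroup
  set C : Subgroup H := (NK π j).comap H.subtype with hC
  obtain ⟨ν, hν, hne⟩ := exists_nu C hi
  have hzero : ∀ (w : W), w ∉ NK π j → ∀ x, cst j f w x = 0 := by
    intro w hw x
    have h3 := mm_zero (Λ := Λ) h2 hw x
    unfold mm cst at h3
    unfold cst
    have h4 : ∀ t, (if j t = x⁻¹ * w * x then f t else 0) =
        (Nat.card π.ker : ℂ)⁻¹ * (if j t = x⁻¹ * w * x then lk π Λ t else 0) := by
      intro t
      split_ifs
      · exact hfe t
      · rw [mul_zero]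
    rw [Finset.sum_congr rfl fun t _ => h4 t, ← Finset.mul_sum, h3, mul_zero]
  have hr := Om_restrict C hi hν hne (F := fun h : H => indj j f (H.subtype h))
    (cl_comp H.subtype (indj_cl j f)) (fun h hh => by
      unfold indj
      rw [Finset.sum_eq_zero fun x _ => hzero _ hh x, mul_zero])
  rw [hr] at hA
  -- the value as a sum over cosets
  set R : Subgroup W := (j.comp i).range with hR
  have hιj : Function.Injective (j.comp i) := hj.comp (sec_inj hπ)
  have hRj : ∀ r ∈ R, r ∈ j.range := by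
    rintro _ ⟨g, rfl⟩
    exact ⟨i g, rfl⟩
  set b : W → ℂ := fun x => (Nat.card π.ker : ℂ)⁻¹ * (Nat.card π.ker : ℂ)⁻¹ *
    Om (fun u : C => mm π j Λ x ((u : H) : W)) ν with hb
  have hmcl : ∀ x, IsCl (fun u : C => mm π j Λ x ((u : H) : W)) := by
    intro x
    obtain ⟨M, hM'⟩ := exists_mmHom (Λ := Λ) hj h2 (H := H) x
    have e : (fun u : C => mm π j Λ x ((u : H) : W)) = M := funext fun u => (hM' u).symm
    rw [e]
    exact lin_cl M
  have hbO : ∀ x, b x ∈ O := fun x => O.mul_mem _ _ (O.mul_mem _ _ hinv hinv)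
    (red_Om hν (hmcl x) fun u => mm_mem O x _).1
  have hsum : Om (fun u : C => indj j f (H.subtype u)) ν = ∑ q : W ⧸ R, b q.out := by
    have e1 : ∀ u : C, indj j f (H.subtype u) = ∑ x : W, (Nat.card T : ℂ)⁻¹ *
        ((Nat.card π.ker : ℂ)⁻¹ * mm π j Λ x ((u : H) : W)) := by
      intro u
      change indj j f ((u : H) : W) = _
      unfold indj
      rw [Finset.mul_sum]
      refine Finset.sum_congr rfl fun x _ => ?_
      congr 1
      unfold mm cst
      rw [Finset.mul_sum]
      refine Finset.sum_congr rfl fun t _ => ?_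
      split_ifs
      · exact hfe t
      · rw [mul_zero]
    have e2 : Om (fun u : C => indj j f (H.subtype u)) ν = ∑ x : W, (Nat.card T : ℂ)⁻¹ *
        ((Nat.card π.ker : ℂ)⁻¹ * Om (fun u : C => mm π j Λ x ((u : H) : W)) ν) := by
      unfold Om
      simp only [e1, Finset.sum_mul, Finset.sum_div]
      rw [Finset.sum_comm]
      refine Finset.sum_congr rfl fun x _ => ?_
      rw [Finset.mul_sum, Finset.mul_sum]
      refine Finset.sum_congr rfl fun u _ => ?_
      ring
    rw [e2, sum_cosets R _ fun x r hr => by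
      simp only [mm_right hj x _ (hRj r hr)], nsmul_eq_mul, Finset.mul_sum]
    refine Finset.sum_congr (Finset.ext fun q => by simp) fun q _ => ?_
    have e3 : Nat.card R = Nat.card G := card_range hιj
    have e4 : (Nat.card T : ℂ) = Nat.card π.ker * Nat.card G := by
      rw [card_split hπ]
      push_cast
      ring
    have h5 := cardG_ne π.ker
    have h6 := cardG_ne G
    rw [e3, e4]
    simp only [hb]
    field_simp
  have hτp := sSup_pgroup hτ
  set P : Subgroup W := sSup τ with hP
  have hcomm : ∀ (u : C) (y : W), y ∈ P → y⁻¹ * ((u : H) : W) * y = ((u : H) : W) := by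
    intro u y hy
    have h3 := nk_comm (P := P) h2 hj hK hτp u.2 (stab_sSup (hH ▸ (u : H).2)) hy
    change ((u : H) : W) * y = y * ((u : H) : W) at h3
    rw [mul_assoc, h3]
    group
  have hinv' : ∀ (y : P) (q : W ⧸ R), red O (b (y • q).out) = red O (b q.out) := by
    intro y q
    have h3 : ((y : W) * q.out)⁻¹ * (y • q).out ∈ R := by
      rw [← QuotientGroup.eq, QuotientGroup.out_eq']
      change (((y : W) • (q.out : W) : W) : W ⧸ R) = y • q
      conv_rhs => rw [← QuotientGroup.out_eq' q]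
      rfl
    have h4 : ∀ w, mm π j Λ (y • q).out w = mm π j Λ ((y : W) * q.out) w := by
      intro w
      have h5 := mm_right (π := π) (Λ := Λ) hj ((y : W) * q.out) w (hRj _ h3)
      rwa [mul_inv_cancel_left] at h5
    congr 1
    simp only [hb]
    congr 2
    funext u
    rw [h4, mm_left, hcomm u y y.2]
  rw [hsum, red_sum _ _ fun q _ => hbO _, sum_fixed hτp (F := RF O)
    (fun a => by rw [← Nat.cast_smul_eq_nsmul (RF O), CharP.cast_eq_zero, zero_smul])
    (fun q : W ⧸ R => red O (b q.out)) hinv'] at hA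
  obtain ⟨q, hq, h3⟩ := Finset.exists_ne_zero_of_sum_ne_zero (hA.trans_ne one_ne_zero)
  simp only [Finset.mem_filter, Finset.mem_univ, true_and] at hq
  refine ⟨q.out, ?_, ?_⟩
  · intro Q hQ y hy
    rw [mem_cjr]
    have h4 := hq ⟨y, le_sSup hQ hy⟩
    have h5 : ((y * q.out : W) : W ⧸ R) = q := by
      conv_rhs => rw [← h4]
      conv_rhs => rw [← QuotientGroup.out_eq' q]
      rfl
    rw [mul_assoc]
    rw [← hR, ← QuotientGroup.eq, QuotientGroup.out_eq', h5]
  · rw [cov_eq hj h2]
    obtain ⟨M, hM'⟩ := exists_mmHom (Λ := Λ) hj h2 (H := H) q.out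
    have h4 : ∑ u : C, M u * ν u ≠ 0 := by
      intro h4
      apply h3
      have h5 : Om (fun u : C => mm π j Λ q.out ((u : H) : W)) ν = 0 := by
        unfold Om
        simp only [hM'] at h4
        change (∑ u : C, mm π j Λ q.out ((u : H) : W) * ν u) / ν 1 = 0
        rw [h4, zero_div]
      simp only [hb]
      rw [h5, mul_zero, red_zero]
    have h5 := lin_of_sum M hν h4
    intro h6
    apply hne
    have h7 : ∑ u : C, θ u * ν u⁻¹ = ν 1 * ∑ u : C, mm π j Λ q.out ((u : H) : W) * θ u := by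
      rw [Finset.mul_sum]
      refine Finset.sum_congr rfl fun u _ => ?_
      rw [h5 u, hM' u]
      ring
    rw [h7, h6, mul_zero]

end Pool.Agent.K4H11.FR
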