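import Pool.Agent.K4H11.FR.Cov

/-!
# The conjugates of the linear character which a character of a chain stabiliser covers
-/

set_option autoImplicit false
set_option linter.unusedSectionVars false
set_option linter.style.haveILetI false

open scoped BigOperators Classical

noncomputable section

namespace Pool.Agent.K4H11.FR

open Pool.Agent.Q90.WR Pool.Agent.H254R3.IN Pool.Agent.Q259.BW Pool.Agent.Q288.MB
open Pool.Agent.Y63.KR (IsPChain chainStabilizer conjSub mem_chainStabilizer conjSub_eq_iff)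
open Pool.Agent.R674.KB (mem_stab exists_greatest)

variable {T G W : Type} [Group T] [Fintype T] [Group G] [Fintype G] [Group W] [Fintype W]
  {π : T →* G} {i : G →* T} {j : T →* W} {Λ : T →* ℂ}
  (hπ : ∀ g, π (i g) = g) (hj : Function.Injective j)
  (h2 : ∀ (x : W) (k : T), π k = 1 → ∃ k', π k' = 1 ∧ j k' = x⁻¹ * j k * x)
  {O : ValuationSubring ℂ} {p : ℕ} [hp : Fact p.Prime]

include hj h2 in
theorem mm_prod {v w : W} (hv : v ∈ NK π j) (y : W) :
    mm π j Λ y (v * w) = mm π j Λ y v * mm π j Λ y w := by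
  by_cases hw : w ∈ NK π j
  · exact mm_mul hj h2 hv hw y
  · rw [mm_zero h2 hw, mul_zero, mm_zero h2]
    intro h
    apply hw
    exact ((NK π j).mul_mem_cancel_left hv).mp h

include hj h2 in
/-- two conjugates of `Λ` covered by the same character -/
theorem cov_same {H : Subgroup W} {θ : H → ℂ} (hθ : IsIrr θ) {x y : W}
    (cx : cov π j Λ θ x ≠ 0) (cy : cov π j Λ θ y ≠ 0) :
    ∃ h : H, ∀ w ∈ NK π j, w ∈ H → mm π j Λ (h * x) w = mm π j Λ y w := by
  set F : H → ℂ := fun g => ∑ h : H, mm π j Λ (h * x) g with hF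
  have hFc : IsCl F := by
    intro g y
    simp only [hF]
    refine Fintype.sum_equiv (Equiv.mulLeft y⁻¹) _ _ fun h => ?_
    simp only [Equiv.coe_mulLeft, Subgroup.coe_mul, Subgroup.coe_inv]
    rw [mm_left, mm_left]
    congr 1
    group
  have h3 : Om F θ * θ 1 = (Nat.card H : ℂ) * cov π j Λ θ x := by
    unfold Om
    rw [div_mul_cancel₀ _ hθ.one_ne]
    simp only [hF, Finset.sum_mul]
    rw [Finset.sum_comm]
    have h4 : ∀ h : H, ∑ g : H, mm π j Λ (h * x) g * θ g = cov π j Λ θ x := by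
      intro h
      unfold cov
      refine Fintype.sum_equiv (MulAut.conj h⁻¹).toEquiv _ _ fun g => ?_
      have e : (MulAut.conj h⁻¹).toEquiv g = h⁻¹ * g * h := by simp
      rw [e]
      have e2 : θ (h⁻¹ * g * h) = θ g := by
        have := hθ.conj g h⁻¹
        rwa [inv_inv] at this
      rw [e2, mm_left]
      rfl
    rw [Finset.sum_congr rfl fun h _ => h4 h, Finset.sum_const, Finset.card_univ, nsmul_eq_mul,
      Nat.card_eq_fintype_card]
  have hOm : Om F θ ≠ 0 := by
    intro h4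
    rw [h4, zero_mul] at h3
    exact mul_ne_zero (cardG_ne H) cx h3.symm
  have h5 : ∑ h : H, ∑ v : H, ∑ u : H, mm π j Λ (h * x) v * θ (v * u) * mm π j Λ y u ≠ 0 := by
    have e : ∑ h : H, ∑ v : H, ∑ u : H, mm π j Λ (h * x) v * θ (v * u) * mm π j Λ y u =
        Om F θ * cov π j Λ θ y := by
      unfold cov
      rw [Finset.mul_sum]
      have e2 : ∀ u : H, Om F θ * (mm π j Λ y u * θ u) =
          ∑ v : H, ∑ h : H, mm π j Λ (h * x) v * θ (v * u) * mm π j Λ y u := by
        intro u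
        have e3 := cls_act hθ hFc u
        have e4 : Om F θ * (mm π j Λ y u * θ u) = (Om F θ * θ u) * mm π j Λ y u := by ring
        rw [e4, ← e3, Finset.sum_mul]
        refine Finset.sum_congr rfl fun v _ => ?_
        simp only [hF, Finset.sum_mul]
      rw [Finset.sum_congr rfl fun u _ => e2 u]
      exact Finset.sum_comm.trans ((Finset.sum_congr rfl fun v _ => Finset.sum_comm).trans
        Finset.sum_comm)
    rw [e]
    exact mul_ne_zero hOm cy
  obtain ⟨h, -, h6⟩ := Finset.exists_ne_zero_of_sum_ne_zero h5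
  refine ⟨h, ?_⟩
  have h7 : ∑ v : H, ∑ u : H, mm π j Λ (h * x) v * θ (v * u) * mm π j Λ y u =
      (∑ v : H, mm π j Λ (h * x) v * mm π j Λ y (v : W)⁻¹) * cov π j Λ θ y := by
    rw [Finset.sum_mul]
    refine Finset.sum_congr rfl fun v _ => ?_
    by_cases hv : (v : W) ∈ NK π j
    · unfold cov
      rw [Finset.mul_sum]
      refine Fintype.sum_equiv (Equiv.mulLeft v) _ _ fun u => ?_
      simp only [Equiv.coe_mulLeft, Subgroup.coe_mul]
      rw [mm_prod hj h2 hv]
      have h8 := mm_inv (Λ := Λ) hj h2 hv y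
      linear_combination (-(mm π j Λ (h * x) v * θ (v * u) * mm π j Λ y u)) * h8
    · have h8 : mm π j Λ ((h : W) * x) v = 0 := mm_zero h2 hv _
      simp only [h8, zero_mul, Finset.sum_const_zero]
  rw [h7] at h6
  have hZ := left_ne_zero_of_mul h6
  intro w hw hwH
  have h8 : ∑ v : H, mm π j Λ (h * x) v * mm π j Λ y (v : W)⁻¹ =
      (mm π j Λ (h * x) w * mm π j Λ y w⁻¹) *
        ∑ v : H, mm π j Λ (h * x) v * mm π j Λ y (v : W)⁻¹ := by
    rw [Finset.mul_sum]
    symm
    refine Fintype.sum_equiv (Equiv.mulLeft (⟨w, hwH⟩ : H)) _ _ fun v => ?_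
    simp only [Equiv.coe_mulLeft, Subgroup.coe_mul]
    rw [mm_prod hj h2 hw, mul_inv_rev]
    have h9 : mm π j Λ y ((v : W)⁻¹ * w⁻¹) = mm π j Λ y w⁻¹ * mm π j Λ y (v : W)⁻¹ := by
      by_cases hv : (v : W) ∈ NK π j
      · rw [mm_prod hj h2 ((NK π j).inv_mem hv), mul_comm]
      · have e1 : mm π j Λ y (v : W)⁻¹ = 0 := mm_zero h2 (fun h => hv ((NK π j).inv_mem_iff.mp h)) y
        rw [e1, mul_zero, mm_zero h2]
        intro h
        apply hv
        have h10 := ((NK π j).mul_mem_cancel_right ((NK π j).inv_mem hw)).mp h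
        exact (NK π j).inv_mem_iff.mp h10
    rw [h9]
    ring
  have h9 : mm π j Λ (h * x) w * mm π j Λ y w⁻¹ = 1 :=
    mul_right_cancel₀ hZ (by rw [← h8, one_mul])
  have h10 := mm_inv (Λ := Λ) hj h2 hw y
  linear_combination (mm π j Λ y w) * h9 - (mm π j Λ (h * x) w) * h10

include hj h2 in
/-- two conjugates of `Λ` invariant under a `p`-group `P` which agree on the centraliser of `P` -/
theorem mm_ext (hpO : (p : ℂ) ∈ O.nonunits) (hK : ¬ p ∣ Nat.card π.ker) {P : Subgroup W}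
    (hP : IsPGroup p P) {x y : W} (gx : ∀ z ∈ P, x⁻¹ * z * x ∈ j.range)
    (gy : ∀ z ∈ P, y⁻¹ * z * y ∈ j.range)
    (h : ∀ w ∈ NK π j, w ∈ Subgroup.centralizer (P : Set W) → mm π j Λ x w = mm π j Λ y w) :
    ∀ w ∈ NK π j, mm π j Λ x w = mm π j Λ y w := by
  haveI := charP_RF hpO
  haveI := nk_normal (π := π) (j := j) h2
  set μ : NK π j → ℂ := fun k => mm π j Λ x k * mm π j Λ y (k : W)⁻¹ with hμ
  have hμm : ∀ k l : NK π j, μ (k * l) = μ k * μ l := by
    intro k l
    simp only [hμ, Subgroup.coe_mul, mul_inv_rev]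
    rw [mm_prod hj h2 k.2, mm_prod hj h2 ((NK π j).inv_mem l.2)]
    ring
  have hμO : ∀ k, μ k ∈ O := fun k => O.mul_mem _ _ (mm_mem O _ _) (mm_mem O _ _)
  have hcj : ∀ {x : W}, (∀ z ∈ P, x⁻¹ * z * x ∈ j.range) → ∀ z ∈ P, ∀ w,
      mm π j Λ x (z * w * z⁻¹) = mm π j Λ x w := by
    intro x gx z hz w
    have e1 : mm π j Λ x (z * w * z⁻¹) = mm π j Λ (z⁻¹ * x) w := by
      rw [mm_left, inv_inv]
    rw [e1]
    have e2 : z⁻¹ * x = x * (x⁻¹ * z⁻¹ * x) := by group
    rw [e2]
    exact mm_right hj x w (gx _ (P.inv_mem hz))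
  have hsum : ∑ k, μ k ≠ 0 := by
    letI : MulAction P (NK π j) := MulAction.compHom (NK π j)
      ((MulAut.conjNormal : W →* MulAut (NK π j)).comp P.subtype)
    have hact : ∀ (d : P) (k : NK π j), ((d • k : NK π j) : W) = d * k * (d : W)⁻¹ := fun d k =>
      MulAut.conjNormal_apply (d : W) k
    have hF : ∀ a : RF O, p • a = 0 := fun a => by
      rw [← Nat.cast_smul_eq_nsmul (RF O), CharP.cast_eq_zero, zero_smul]
    have hinv : ∀ (d : P) (k : NK π j), red O (μ (d • k)) = red O (μ k) := by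
      intro d k
      congr 1
      simp only [hμ]
      have e : ((d : W) * k * (d : W)⁻¹)⁻¹ = d * (k : W)⁻¹ * (d : W)⁻¹ := by group
      rw [hact, e, hcj gx d d.2, hcj gy d d.2]
    have h4 := sum_fixed hP (X := NK π j) (F := RF O) hF (fun k => red O (μ k)) hinv
    have h5 := sum_fixed hP (X := NK π j) (F := RF O) hF (fun _ => (1 : RF O)) fun _ _ => rfl
    intro h0
    have h6 : ∑ k, red O (μ k) = 0 := by
      rw [← red_sum _ _ fun k _ => hμO k, h0, red_zero]
    have h7 : ∑ k : NK π j, (1 : RF O) = 0 := by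
      rw [h5, ← h6, h4]
      refine Finset.sum_congr rfl fun k hk => ?_
      simp only [Finset.mem_filter, Finset.mem_univ, true_and] at hk
      have h8 : (k : W) ∈ Subgroup.centralizer (P : Set W) := by
        rw [Subgroup.mem_centralizer_iff]
        intro d hd
        have h9 := congrArg Subtype.val (hk ⟨d, hd⟩)
        rw [hact] at h9
        have h10 := congrArg (· * d) h9
        simpa only [inv_mul_cancel_right] using h10
      have h9 : μ k = 1 := by
        simp only [hμ]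
        rw [h k k.2 h8]
        exact mm_inv hj h2 k.2 y
      rw [h9, red_one]
    rw [Finset.sum_const, Finset.card_univ, nsmul_eq_mul, mul_one, ← Nat.card_eq_fintype_card,
      card_map_inj hj, ← red_natCast, red_nat_eq_zero_iff hpO] at h7
    exact hK h7
  intro w hw
  have h14 : μ ⟨w, hw⟩ = 1 := by
    have h15 : ∑ l, μ l = μ ⟨w, hw⟩ * ∑ l, μ l := by
      rw [Finset.mul_sum, ← Equiv.sum_comp (Equiv.mulLeft (⟨w, hw⟩ : NK π j))]
      refine Finset.sum_congr rfl fun l _ => ?_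
      exact hμm _ _
    exact mul_right_cancel₀ hsum (by rw [← h15, one_mul])
  have h15 : mm π j Λ x w * mm π j Λ y w⁻¹ = 1 := h14
  have h10 := mm_inv (Λ := Λ) hj h2 hw y
  linear_combination (mm π j Λ y w) * h15 - (mm π j Λ x w) * h10

theorem good_range {τ : Set (Subgroup W)} {x : W} (h : Good i j τ x) {z : W}
    (hz : z ∈ sSup τ) : x⁻¹ * z * x ∈ (j.comp i).range := by
  rw [← mem_cjr]
  exact (sSup_le h : sSup τ ≤ ((cj j x).comp i).range) hz

theorem good_mul {τ : Set (Subgroup W)} {x h : W} (gx : Good i j τ x) (hh : h ∈ chainStabilizer τ)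
    (g : G) : Good i j τ (h * x * j (i g)) := by
  intro Q hQ y hy
  rw [mem_cjr]
  have h3 : h⁻¹ * y * h ∈ Q := by
    apply (Subgroup.mem_normalizer_iff.mp (mem_stab.mp hh Q hQ) _).mpr
    have e : h * (h⁻¹ * y * h) * h⁻¹ = y := by group
    rw [e]
    exact hy
  obtain ⟨a, ha⟩ := (mem_cjr i j x _).mp (gx Q hQ h3)
  have ha' : j (i a) = x⁻¹ * (h⁻¹ * y * h) * x := ha
  refine ⟨g⁻¹ * a * g, ?_⟩
  change j (i (g⁻¹ * a * g)) = _
  simp only [map_mul, map_inv]
  rw [ha']
  group

include hj in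
theorem cov_mul {H : Subgroup W} {θ : H → ℂ} (hθ : IsIrr θ) {x h : W} (hh : h ∈ H) {r : W}
    (hr : r ∈ j.range) : cov π j Λ θ (h * x * r) = cov π j Λ θ x := by
  unfold cov
  refine Fintype.sum_equiv (MulAut.conj (⟨h, hh⟩ : H)⁻¹).toEquiv _ _ fun g => ?_
  have e : (MulAut.conj (⟨h, hh⟩ : H)⁻¹).toEquiv g = (⟨h, hh⟩ : H)⁻¹ * g * ⟨h, hh⟩ := by simp
  rw [e]
  have e2 : θ ((⟨h, hh⟩ : H)⁻¹ * g * ⟨h, hh⟩) = θ g := by
    have := hθ.conj g (⟨h, hh⟩ : H)⁻¹
    rwa [inv_inv] at this
  rw [e2, mm_right hj _ _ hr, mm_left]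
  rfl

include hπ hj h2 in
/-- uniqueness -/
theorem cov_unique (hpO : (p : ℂ) ∈ O.nonunits) (hK : ¬ p ∣ Nat.card π.ker)
    (hM : Moves π j Λ) {τ : Set (Subgroup W)} (hτ : IsPChain p τ) {H : Subgroup W}
    (hH : H = chainStabilizer τ) {θ : H → ℂ} (hθ : IsIrr θ) {x y : W} (gx : Good i j τ x)
    (gy : Good i j τ y) (cx : cov π j Λ θ x ≠ 0) (cy : cov π j Λ θ y ≠ 0) :
    ∃ h ∈ H, ∃ g : G, y = h * x * j (i g) := by
  obtain ⟨h, h3⟩ := cov_same hj h2 hθ cx cy
  have hRj : ∀ r ∈ (j.comp i).range, r ∈ j.range := by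
    rintro _ ⟨g, rfl⟩
    exact ⟨i g, rfl⟩
  have hHm : ∀ w, w ∈ H ↔ w ∈ chainStabilizer τ := fun w => by rw [hH]
  have ghx : Good i j τ (h * x) := by
    have := good_mul gx ((hHm _).mp h.2) 1
    rwa [map_one, map_one, mul_one] at this
  have h4 := mm_ext (Λ := Λ) hj h2 hpO hK (sSup_pgroup hτ)
    (fun z hz => hRj _ (good_range ghx hz)) (fun z hz => hRj _ (good_range gy hz))
    (fun w hw hwc => h3 w hw (by rw [hH]; exact cent_stab hwc))
  obtain ⟨t, ht⟩ := mm_coset hj h2 hM h4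
  set k := (i (π t))⁻¹ * t with hk
  have hc : h * x * j k * ((h : W) * x)⁻¹ ∈ H := by
    apply (hHm _).mpr
    apply cent_stab
    rw [Subgroup.mem_centralizer_iff]
    intro z hz
    obtain ⟨b, hb⟩ := good_range ghx hz
    obtain ⟨a, ha⟩ := good_range gy hz
    have hb' : j (i b) = ((h : W) * x)⁻¹ * z * (h * x) := hb
    have ha' : j (i a) = y⁻¹ * z * y := ha
    have h5 : j (t * i b * t⁻¹) = j (i a) := by
      rw [map_mul, map_mul, map_inv, ht, hb', ha']
      group
    have h6 := hj h5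
    have h7 := congrArg π h6
    simp only [map_mul, map_inv, hπ] at h7
    have h8 : k * i b = i b * k := by
      rw [hk]
      have h9 : t * i b = i a * t := by
        rw [← h6]
        group
      rw [mul_assoc, h9, ← h7]
      simp only [map_mul, map_inv]
      group
    have h9 : z = (h * x) * j (i b) * ((h : W) * x)⁻¹ := by
      rw [hb']
      group
    rw [h9]
    have h10 : j k * j (i b) = j (i b) * j k := by rw [← map_mul, ← map_mul, h8]
    calc h * x * j (i b) * ((h : W) * x)⁻¹ * (h * x * j k * ((h : W) * x)⁻¹) =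
        h * x * (j (i b) * j k) * ((h : W) * x)⁻¹ := by group
      _ = h * x * (j k * j (i b)) * ((h : W) * x)⁻¹ := by rw [h10]
      _ = _ := by group
  refine ⟨(h * x * j k * ((h : W) * x)⁻¹)⁻¹ * h, H.mul_mem (H.inv_mem hc) h.2, (π t)⁻¹, ?_⟩
  have h5 : y = h * x * (j t)⁻¹ := by
    rw [ht]
    group
  rw [h5, hk]
  simp only [map_mul, map_inv]
  group

end Pool.Agent.K4H11.FR
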