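import Pool.Agent.R674.KB.Blk
import Pool.Agent.K4H11.FR.Brc

/-!
# Central characters of the stabiliser of a chain of `p`-subgroups vanish outside the centraliser of
its greatest member
-/

set_option autoImplicit false
set_option linter.unusedSectionVars false
set_option linter.style.haveILetI false

open scoped BigOperators Classical

noncomputable section

namespace Pool.Agent.K4H11.FR

open Pool.Agent.Y63.NV (centralValue redC IsClassFun cut)
open Pool.Agent.Y63.AWC (IsIrreducibleCharacter)
open Pool.Agent.Y63.KR (IsPChain chainStabilizer conjSub)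
open Pool.Agent.R674.KB (mem_stab exists_greatest norm_sub blk_up blk_cut)

section hom

variable {p : ℕ} [Fact p.Prime] {F : Type} [Field F] [CharP F p]

theorem kb_equiv (rd : integralClosure ℤ ℂ →+* F) {G K : Type} [Group G] [Finite G] [Group K]
    [Finite K] (i : K →* G) (hi : Function.Bijective i) {χ : K → ℂ}
    (hχ : IsIrreducibleCharacter χ) :
    Pool.Agent.Y63.NV.IsBlock (fun f : G → F => centralValue rd χ (fun x => f (i x))) := by
  have hB := Pool.Agent.Y930.NV.cvh F rd K χ hχ
  have hres : ∀ f : G → F, IsClassFun f → IsClassFun (fun x : K => f (i x)) := by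
    intro f hf g x
    have h1 := hf (i g) (i x)
    simp only [map_mul, map_inv]
    exact h1
  refine ⟨?_, ?_, ?_, ?_⟩
  · intro f g hf hg
    exact hB.add (fun x : K => f (i x)) (fun x : K => g (i x)) (hres f hf) (hres g hg)
  · intro a f hf
    exact hB.smul a (fun x : K => f (i x)) (hres f hf)
  · refine Eq.trans (congrArg (centralValue rd χ) ?_) hB.one
    funext x
    by_cases hx : x = 1
    · subst hx
      simp
    · rw [Pi.single_eq_of_ne hx, Pi.single_eq_of_ne]
      intro h
      exact hx (hi.1 (h.trans (map_one i).symm))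
  · intro f g hf hg
    show centralValue rd χ (fun x : K => Pool.Agent.Y63.NV.conv f g (i x)) =
      centralValue rd χ (fun x : K => f (i x)) * centralValue rd χ (fun x : K => g (i x))
    rw [← hB.mul _ _ (hres f hf) (hres g hg)]
    congr 1
    funext x
    unfold Pool.Agent.Y63.NV.conv
    rw [← finsum_comp_equiv (Equiv.ofBijective i hi)]
    refine finsum_congr fun y => ?_
    simp only [Equiv.ofBijective_apply, map_mul, map_inv]

theorem kb_aux (rd : integralClosure ℤ ℂ →+* F) : ∀ (n : ℕ) (G : Type) [Group G] [Finite G]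
    (σ : Set (Subgroup G)), IsPChain p σ → σ.ncard = n → ∀ (K : Type) [Group K] [Finite K]
    (i : K →* G), Function.Injective i → i.range = chainStabilizer σ → ∀ χ : K → ℂ,
    IsIrreducibleCharacter χ →
    Pool.Agent.Y63.NV.IsBlock (fun f : G → F => centralValue rd χ (fun x => f (i x))) ∧
    ∀ Q ∈ σ, (∀ P ∈ σ, P ≤ Q) → ∀ f : G → F, IsClassFun f →
      centralValue rd χ (fun x => f (i x)) =
        centralValue rd χ (fun x => cut f (Subgroup.centralizer (Q : Set G)) (i x)) := by
  intro n
  induction n with
  | zero =>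
    intro G _ _ σ hσ hn K _ _ i hi hr χ hχ
    have h0 : σ = ∅ := (Set.ncard_eq_zero (Set.toFinite σ)).1 hn
    refine ⟨kb_equiv rd i ⟨hi, ?_⟩ hχ, fun Q hQ => absurd (h0 ▸ hQ) (Set.notMem_empty Q)⟩
    rw [← MonoidHom.range_eq_top, hr, h0, eq_top_iff]
    intro x _
    rw [mem_stab]
    intro P hP
    exact absurd hP (Set.notMem_empty P)
  | succ n ih =>
    intro G _ _ σ hσ hn K _ _ i hi hr χ hχ
    have hne : σ.Nonempty := by
      rw [Set.nonempty_iff_ne_empty]
      rintro rfl
      rw [Set.ncard_empty] at hn
      omega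
    obtain ⟨Q, hQ, hmax⟩ := exists_greatest hσ.chain hne
    obtain ⟨N, hN⟩ : ∃ N : Subgroup G, N = Subgroup.normalizer (Q : Set G) := ⟨_, rfl⟩
    have hQN : Q ≤ N := hN ▸ Subgroup.le_normalizer
    have hiN : ∀ x : K, i x ∈ N := by
      intro x
      have h1 : i x ∈ chainStabilizer σ := by
        rw [← hr]
        exact ⟨x, rfl⟩
      rw [hN]
      exact mem_stab.1 h1 Q hQ
    let i' : K →* N := i.codRestrict N hiN
    have hi' : Function.Injective i' := by
      intro a b hab
      exact hi (congrArg Subtype.val hab)
    let τ : Set (Subgroup N) := (fun P : Subgroup G => P.subgroupOf N) '' (σ \ {Q})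
    have hle : ∀ P ∈ σ, P ≤ N := fun P hP => (hmax P hP).trans hQN
    have hτ : IsPChain p τ := by
      refine ⟨?_, ?_, ?_⟩
      · rintro _ ⟨P, hP, rfl⟩ _ ⟨P', hP', rfl⟩ hne'
        have h1 : P ≠ P' := by
          rintro rfl
          exact hne' rfl
        rcases hσ.chain hP.1 hP'.1 h1 with h | h
        · exact Or.inl (Subgroup.comap_mono h)
        · exact Or.inr (Subgroup.comap_mono h)
      · rintro _ ⟨P, hP, rfl⟩
        exact (hσ.isPGroup P hP.1).comap_subtype
      · rintro _ ⟨P, hP, rfl⟩ h0
        apply hσ.ne_bot P hP.1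
        rw [eq_bot_iff]
        intro x hx
        have h1 : (⟨x, hle P hP.1 hx⟩ : N) ∈ P.subgroupOf N := hx
        change P.subgroupOf N = ⊥ at h0
        rw [h0, Subgroup.mem_bot] at h1
        rw [Subgroup.mem_bot]
        exact congrArg Subtype.val h1
    have hcard : τ.ncard = n := by
      rw [Set.InjOn.ncard_image, Set.ncard_sdiff_singleton_of_mem hQ, hn]
      · rfl
      · intro P hP P' hP' h
        change P.subgroupOf N = P'.subgroupOf N at h
        ext x
        constructor
        · intro hx
          have h1 : (⟨x, hle P hP.1 hx⟩ : N) ∈ P.subgroupOf N := hx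
          rw [h] at h1
          exact h1
        · intro hx
          have h1 : (⟨x, hle P' hP'.1 hx⟩ : N) ∈ P'.subgroupOf N := hx
          rw [← h] at h1
          exact h1
    have hr' : i'.range = chainStabilizer τ := by
      ext x
      rw [mem_stab]
      constructor
      · rintro ⟨y, rfl⟩
        rintro _ ⟨P, hP, rfl⟩
        have h1 : i y ∈ chainStabilizer σ := by
          rw [← hr]
          exact ⟨y, rfl⟩
        exact (norm_sub (hle P hP.1) (i' y)).2 (mem_stab.1 h1 P hP.1)
      · intro h
        have h1 : (x : G) ∈ chainStabilizer σ := by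
          rw [mem_stab]
          intro P hP
          by_cases hPQ : P = Q
          · have h2 := x.2
            rw [hPQ, ← hN]
            exact h2
          · exact (norm_sub (hle P hP) x).1 (h _ ⟨P, ⟨hP, hPQ⟩, rfl⟩)
        rw [← hr] at h1
        obtain ⟨y, hy⟩ := h1
        exact ⟨y, Subtype.ext hy⟩
    have h1 := (ih N τ hτ hcard K i' hi' hr' χ hχ).1
    refine ⟨blk_up (hσ.isPGroup Q hQ) hN h1, fun Q' hQ' hmax' f hf => ?_⟩
    have hQQ : Q' = Q := le_antisymm (hmax Q' hQ') (hmax' Q hQ)
    subst hQQ
    have hnorm : (Q'.subgroupOf N).Normal := by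
      subst hN
      exact Subgroup.normal_in_normalizer
    have h2 := blk_cut (Q := Q'.subgroupOf N) (hσ.isPGroup Q' hQ).comap_subtype h1
      (f := fun x : N => f x) (fun g x => hf g x)
    refine h2.trans ?_
    congr 1
    funext x
    unfold cut
    have e : i' x ∈ Subgroup.centralizer ((Q'.subgroupOf N : Subgroup N) : Set N) ↔
        i x ∈ Subgroup.centralizer (Q' : Set G) := by
      rw [Subgroup.mem_centralizer_iff, Subgroup.mem_centralizer_iff]
      constructor
      · intro h y hy
        exact congrArg Subtype.val (h ⟨y, hle Q' hQ hy⟩ hy)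
      · intro h y hy
        exact Subtype.ext (h y hy)
    exact if_congr e rfl rfl

end hom

section bridge

open Pool.Agent.H254R3.IN Pool.Agent.Q259.BW

variable {O : ValuationSubring ℂ} {J : Type} [Group J] [Fintype J]

/-- the reduction of algebraic integers -/
def rdO (O : ValuationSubring ℂ) : integralClosure ℤ ℂ →+* RF O where
  toFun x := red O x
  map_one' := red_one
  map_zero' := red_zero
  map_mul' x y := red_mul (mem_of_isIntegral x.2) (mem_of_isIntegral y.2)
  map_add' x y := red_add (mem_of_isIntegral x.2) (mem_of_isIntegral y.2)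

theorem red_Om_cv {χ : J → ℂ} (hχ : IsIrr χ) {D : J → ℂ} (hD : IsCl D) (hO : ∀ x, D x ∈ O) :
    Om D χ ∈ O ∧ centralValue (rdO O) χ (fun x => red O (D x)) = red O (Om D χ) := by
  have hint : ∀ x : J, IsIntegral ℤ (omega χ x) := fun x => hχ.omega_isIntegral x
  have h1 : Om D χ = ∑ C : ConjClasses J, D (rep C) * omega χ (rep C) := by
    have h := Om_classes (MonoidHom.id J) hD χ
    simp only [MonoidHom.id_apply] at h
    rw [h]
    refine Finset.sum_congr rfl fun C _ => ?_
    rw [omega_eq_L hχ]
  refine ⟨by
    rw [h1]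
    exact sum_mem fun C _ => O.mul_mem _ _ (hO _) (hχ.omega_mem O _), ?_⟩
  rw [h1, red_sum _ _ fun C _ => O.mul_mem _ _ (hO _) (hχ.omega_mem O _)]
  unfold centralValue
  rw [finsum_eq_sum_of_fintype]
  refine Finset.sum_congr rfl fun C _ => ?_
  have hc : IsConj (rep C) C.out := by
    rw [← ConjClasses.mk_eq_mk_iff_isConj, mk_rep]
    exact (Quotient.out_eq C).symm
  rw [red_mul (hO _) (hχ.omega_mem O _), hD.isConj hc]
  congr 1
  have h2 : (Nat.card C.carrier : ℂ) * χ C.out / χ 1 = omega χ (rep C) := by
    unfold omega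
    rw [hχ.isConj hc]
    congr 3
    refine Nat.card_congr (Equiv.subtypeEquivRight fun y => ?_)
    rw [ConjClasses.mem_carrier_iff_mk_eq, ← ConjClasses.mk_eq_mk_iff_isConj, mk_rep]
    exact eq_comm
  rw [h2, Pool.Agent.Y930.NV.redC_of _ (hint _)]
  rfl

/-- central characters of the stabiliser of a chain vanish outside the centraliser of the greatest
member -/
theorem red_cut {p : ℕ} [Fact p.Prime] (hpO : (p : ℂ) ∈ O.nonunits) {G : Type} [Group G]
    [Fintype G] {σ : Set (Subgroup G)} (hσ : IsPChain p σ) {θ : chainStabilizer σ → ℂ}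
    (hθ : IsIrr θ) {F : G → ℂ} (hF : IsCl F) (hO : ∀ g, F g ∈ O) :
    red O (Om (fun x : chainStabilizer σ => F x) θ) =
      red O (Om (fun x : chainStabilizer σ =>
        if (x : G) ∈ Subgroup.centralizer ((sSup σ : Subgroup G) : Set G) then F x else 0) θ) := by
  haveI := charP_RF hpO
  by_cases h0 : σ = ∅
  · congr 2
    funext x
    have hs : (sSup σ : Subgroup G) = ⊥ := by rw [h0, sSup_empty]
    rw [if_pos]
    rw [hs, Subgroup.mem_centralizer_iff]
    intro y hy
    have hy' : y = 1 := hy
    rw [hy', one_mul, mul_one]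
  · obtain ⟨Q, hQ, hmax⟩ := exists_greatest hσ.chain (Set.nonempty_iff_ne_empty.mpr h0)
    have hs : sSup σ = Q := le_antisymm (sSup_le hmax) (le_sSup hQ)
    rw [hs]
    have hcl : IsClassFun fun g : G => red O (F g) := fun g x => by
      change red O (F (g * x * g⁻¹)) = red O (F x)
      rw [hF x g]
    have h1 := (kb_aux (p := p) (rdO O) σ.ncard G σ hσ rfl (chainStabilizer σ)
      (chainStabilizer σ).subtype (Subgroup.subtype_injective _) (Subgroup.range_subtype _) θ hθ).2
      Q hQ hmax _ hcl
    have h2 := (red_Om_cv (O := O) hθ (D := fun x : chainStabilizer σ => F x)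
      (fun g y => hF g y) (fun x => hO x)).2
    have h3 := (red_Om_cv (O := O) hθ (D := fun x : chainStabilizer σ =>
      if (x : G) ∈ Subgroup.centralizer (Q : Set G) then F x else 0) (fun g y => ?_)
      (fun x => by
        split_ifs
        · exact hO x
        · exact O.zero_mem)).2
    · rw [← h2, ← h3]
      refine h1.trans ?_
      congr 1
      funext x
      unfold cut
      change (if (x : G) ∈ Subgroup.centralizer (Q : Set G) then red O (F x) else 0) =
        red O (if (x : G) ∈ Subgroup.centralizer (Q : Set G) then F x else 0)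
      split_ifs
      · rfl
      · exact red_zero.symm
    · have hy := mem_stab.mp y.2 Q hQ
      have e : ((y * g * y⁻¹ : chainStabilizer σ) : G) ∈ Subgroup.centralizer (Q : Set G) ↔
          (g : G) ∈ Subgroup.centralizer (Q : Set G) := by
        rw [Subgroup.mem_centralizer_iff, Subgroup.mem_centralizer_iff]
        have hy1 := Subgroup.mem_normalizer_iff.mp hy
        constructor
        · intro h q hq
          have h4 := h (y * q * (y : G)⁻¹) ((hy1 q).mp hq)
          have h5 := congrArg (fun z : G => (y : G)⁻¹ * z * y) h4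
          simp only [Subgroup.coe_mul, Subgroup.coe_inv] at h5
          have e1 : (y : G)⁻¹ * ((y : G) * q * (y : G)⁻¹ * ((y : G) * g * (y : G)⁻¹)) * y =
            q * g := by group
          have e2 : (y : G)⁻¹ * ((y : G) * g * (y : G)⁻¹ * ((y : G) * q * (y : G)⁻¹)) * y =
            g * q := by group
          rw [e1, e2] at h5
          exact h5
        · intro h q hq
          have hq' : (y : G)⁻¹ * q * y ∈ Q := by
            rw [hy1]
            have e1 : (y : G) * ((y : G)⁻¹ * q * y) * (y : G)⁻¹ = q := by group
            rw [e1]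
            exact hq
          have h4 := h _ hq'
          have h5 := congrArg (fun z : G => (y : G) * z * (y : G)⁻¹) h4
          have e1 : (y : G) * ((y : G)⁻¹ * q * y * g) * (y : G)⁻¹ =
            q * ((y : G) * g * (y : G)⁻¹) := by group
          have e2 : (y : G) * (g * ((y : G)⁻¹ * q * y)) * (y : G)⁻¹ =
            ((y : G) * g * (y : G)⁻¹) * q := by group
          simp only [e1, e2] at h5
          exact h5
      have e' : F ((y * g * y⁻¹ : chainStabilizer σ) : G) = F g := hF g y
      change (if ((y * g * y⁻¹ : chainStabilizer σ) : G) ∈ Subgroup.centralizer (Q : Set G) then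
        F ((y * g * y⁻¹ : chainStabilizer σ) : G) else 0) = _
      rw [e']
      exact if_congr e rfl rfl

end bridge

end Pool.Agent.K4H11.FR
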