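import Pool.Agent.K4H11.FR.Blk

/-!
# The Fong–Reynolds correspondence: defect groups
-/

set_option autoImplicit false
set_option linter.unusedSectionVars false
set_option linter.style.haveILetI false

open scoped BigOperators Classical

noncomputable section

namespace Pool.Agent.K4H11.FR

open Pool.Agent.Q90.WR Pool.Agent.H254R3.IN Pool.Agent.Q259.BW Pool.Agent.Q288.MB

section general

variable {G : Type} [Group G] [Fintype G] {O : ValuationSubring ℂ} {p : ℕ} [hp : Fact p.Prime]

/-- A `p`-subgroup centralising a conjugate of a defect element. -/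
theorem card_dvd {D : Subgroup G} {x k : G} (h1 : D ≤ Subgroup.centralizer ({x} : Set G))
    (h3 : ¬ p ∣ D.relIndex (Subgroup.centralizer ({x} : Set G))) (hk : IsConj x k)
    {Q : Subgroup G} (hQ : IsPGroup p Q) (hle : Q ≤ Subgroup.centralizer ({k} : Set G)) :
    Nat.card Q ∣ Nat.card D := by
  have h2 : Nat.card Q ∣ Nat.card (Subgroup.centralizer ({k} : Set G)) :=
    Subgroup.card_dvd_of_le hle
  rw [← card_centralizer_congr hk, ← card_mul_relIndex h1] at h2
  obtain ⟨n, hn⟩ := IsPGroup.iff_card.mp hQ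
  rw [hn] at h2 ⊢
  exact (Nat.Coprime.pow_left n ((Nat.Prime.coprime_iff_not_dvd hp.out).mpr h3)).dvd_of_dvd_mul_right
    h2

/-- there is a defect class -/
theorem exists_both {B : Set (G → ℂ)} (hB : IsBlock O B) :
    ∃ w : G, (∀ χ ∈ B, omega χ w ∉ O.nonunits) ∧ blockCoeff B w ∉ O.nonunits := by
  obtain ⟨χ, hχ⟩ := hB.nonempty
  have hi := hB.irr
  have h1 := (red_Om (hi χ hχ) (blockCoeff_cl hi) (blockCoeff_mem hB)).2
  rw [Om_blockCoeff hi (hi χ hχ), if_pos hχ, red_one] at h1
  obtain ⟨K, -, hK⟩ := Finset.exists_ne_zero_of_sum_ne_zero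
    (show ∑ K : ConjClasses G, red O (blockCoeff B (rep K)) * red O (omega χ (rep K)) ≠ 0 by
      rw [← h1]; exact one_ne_zero)
  refine ⟨rep K, fun ψ hψ hn => ?_, fun hn => ?_⟩
  · apply hK
    rw [hB.red_eq hχ hψ, red_eq_zero hn, mul_zero]
  · apply hK
    rw [red_eq_zero hn, zero_mul]

/-- a criterion for defect groups -/
theorem defect_of {B : Set (G → ℂ)} (hB : IsBlock O B) {D : Subgroup G} (hD : IsPGroup p D)
    (h1 : ∀ w, (∀ χ ∈ B, omega χ w ∉ O.nonunits) →
      ∃ k, IsConj w k ∧ D ≤ Subgroup.centralizer ({k} : Set G))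
    (h2 : ∀ w, blockCoeff B w ∉ O.nonunits → ∀ P : Subgroup G, IsPGroup p P →
      P ≤ Subgroup.centralizer ({w} : Set G) → Nat.card P ∣ Nat.card D) :
    IsDefectGroup p O B D := by
  obtain ⟨w, hw1, hw2⟩ := exists_both hB
  obtain ⟨k, hk, hle⟩ := h1 w hw1
  have hi := hB.irr
  rw [isDefectGroup_iff]
  refine ⟨k, hle, hD, ?_, ?_, ?_⟩
  · intro hdv
    obtain ⟨n, hn⟩ := IsPGroup.iff_card.mp hD
    have h3 : p ^ (n + 1) ∣ Nat.card (Subgroup.centralizer ({w} : Set G)) := by
      rw [card_centralizer_congr hk, ← card_mul_relIndex hle, hn, pow_succ]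
      exact mul_dvd_mul_left _ hdv
    obtain ⟨Q⟩ : Nonempty (Sylow p (Subgroup.centralizer ({w} : Set G))) := inferInstance
    have h4 := Q.pow_dvd_card_of_pow_dvd_card h3
    set Q' : Subgroup G :=
      (Q : Subgroup (Subgroup.centralizer ({w} : Set G))).map (Subgroup.subtype _) with hQ'
    have hQp : IsPGroup p Q' := Q.isPGroup'.map _
    have hQle : Q' ≤ Subgroup.centralizer ({w} : Set G) := Subgroup.map_subtype_le _
    have hcQ : Nat.card Q' = Nat.card Q :=
      (Nat.card_congr (Subgroup.equivMapOfInjective _ _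
          (Subgroup.subtype_injective _)).toEquiv).symm
    have h5 := h2 w hw2 Q' hQp hQle
    rw [hcQ, hn] at h5
    have h6 := (Nat.pow_dvd_pow_iff_le_right hp.out.one_lt).mp (h4.trans h5)
    omega
  · intro χ hχ
    rw [← (hi χ hχ).omega_congr hk]
    exact hw1 χ hχ
  · rw [← (blockCoeff_cl hi).isConj hk]
    exact hw2

/-- the data in the definition of defect groups, in both directions of min–max -/
theorem defect_bound (hpO : (p : ℂ) ∈ O.nonunits) {B : Set (G → ℂ)} (hB : IsBlock O B)
    {D : Subgroup G} (hD : IsDefectGroup p O B D) :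
    (∀ w, (∀ χ ∈ B, omega χ w ∉ O.nonunits) →
      ∃ k, IsConj w k ∧ D ≤ Subgroup.centralizer ({k} : Set G)) ∧
    (∀ w, blockCoeff B w ∉ O.nonunits → ∀ P : Subgroup G, IsPGroup p P →
      P ≤ Subgroup.centralizer ({w} : Set G) → Nat.card P ∣ Nat.card D) := by
  obtain ⟨z, h1, h2, h3, h4, h5⟩ := isDefectGroup_iff.mp hD
  constructor
  · intro w hw
    exact minmax hpO hB hw h5 h2 h1
  · intro w hw P hP hPw
    obtain ⟨k, hk, hle⟩ := minmax hpO hB h4 hw hP hPw
    exact card_dvd h1 h3 hk hP hle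

end general

section ind

variable {T W : Type} [Group T] [Fintype T] [Group W] [Fintype W] {O : ValuationSubring ℂ}
  {p : ℕ} [hp : Fact p.Prime] {j : T →* W} (hj : Function.Injective j)

theorem card_map_inj {G H : Type} [Group G] [Group H] {f : G →* H} (hf : Function.Injective f)
    (D : Subgroup G) : Nat.card (D.map f) = Nat.card D :=
  (Nat.card_congr (D.equivMapOfInjective _ hf).toEquiv).symm

include hj in
/-- **Fong–Reynolds**: defect groups. -/
theorem indS_defect (hpO : (p : ℂ) ∈ O.nonunits) {b : Set (T → ℂ)} (ho : Orth j b)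
    (hb : IsBlock O b) {D : Subgroup T} (hD : IsDefectGroup p O b D) :
    IsDefectGroup p O (indS j b) (D.map j) := by
  obtain ⟨d1, d2⟩ := defect_bound hpO hb hD
  have hDp : IsPGroup p D := (isDefectGroup_iff.mp hD).choose_spec.2.1
  have hi := hb.irr
  have hi' := indS_irr hj ho hi
  refine defect_of (indS_block hj ho hb) (hDp.map j) ?_ ?_
  · intro w hw
    obtain ⟨θ, hθ⟩ := hb.nonempty
    have i1 := indj_irr hj ho hθ (hi θ hθ)
    have h1 := hw _ ⟨θ, hθ, rfl⟩
    rw [← red_eq_zero_iff (i1.omega_mem O w), omega_indj hj i1,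
      (red_Om (hi θ hθ) (cl_comp j (ind_cl w)) fun t => ind_mem O w _).2] at h1
    obtain ⟨K, -, hK⟩ := Finset.exists_ne_zero_of_sum_ne_zero h1
    have h2 : IsConj w (j (rep K)) := by
      by_contra hn
      apply hK
      have : ind w (j (rep K)) = 0 := if_neg hn
      rw [this, red_zero, zero_mul]
    obtain ⟨k, hk, hle⟩ := d1 (rep K) fun ψ hψ hn => by
      apply hK
      rw [hb.red_eq hθ hψ, red_eq_zero hn, mul_zero]
    refine ⟨j k, h2.trans (j.map_isConj hk), ?_⟩
    rintro _ ⟨d, hd, rfl⟩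
    rw [Subgroup.mem_centralizer_singleton_iff]
    have h3 := Subgroup.mem_centralizer_singleton_iff.mp (hle hd)
    rw [← map_mul, h3, map_mul]
  · intro w hw P hP hPw
    rw [coeff_indS hj ho hi] at hw
    obtain ⟨x, t, h1, h2, h3⟩ := fixed_coset hj hpO (blockCoeff_cl hi) (blockCoeff_mem hb) hw hP hPw
    set P' : Subgroup T := P.comap ((MulAut.conj x).toMonoidHom.comp j) with hP'
    have hf : Function.Injective ((MulAut.conj x).toMonoidHom.comp j) :=
      (MulAut.conj x).injective.comp hj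
    have h4 : P'.map ((MulAut.conj x).toMonoidHom.comp j) = P := by
      apply Subgroup.map_comap_eq_self
      intro y hy
      obtain ⟨s, hs⟩ := h1 y hy
      refine ⟨s, ?_⟩
      change x * j s * x⁻¹ = y
      rw [hs]
      group
    have h5 : IsPGroup p P' := hP.comap_of_injective _ hf
    have h6 : P' ≤ Subgroup.centralizer ({t} : Set T) := by
      intro s hs
      rw [Subgroup.mem_centralizer_singleton_iff]
      have h7 : x * j s * x⁻¹ ∈ P := hs
      have h8 := Subgroup.mem_centralizer_singleton_iff.mp (hPw h7)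
      apply hj
      rw [map_mul, map_mul, h2]
      have h9 : x * (j s * (x⁻¹ * w * x)) * x⁻¹ = x * (x⁻¹ * w * x * j s) * x⁻¹ := by
        calc x * (j s * (x⁻¹ * w * x)) * x⁻¹ = (x * j s * x⁻¹) * w := by group
          _ = w * (x * j s * x⁻¹) := h8
          _ = _ := by group
      exact mul_left_cancel (mul_right_cancel h9)
    have h10 := d2 t h3 P' h5 h6
    rw [card_map_inj hj, ← h4, card_map_inj hf]
    exact h10

end ind

end Pool.Agent.K4H11.FR
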