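import Pool.Agent.K4H11.AM.Uniq

/-!
# Induction of characters along an injective homomorphism
-/

set_option autoImplicit false
set_option linter.unusedSectionVars false
set_option linter.style.haveILetI false

open scoped BigOperators Classical

noncomputable section

namespace Pool.Agent.K4H11.FR

open Pool.Agent.Q90.WR Pool.Agent.H254R3.IN Pool.Agent.Q259.BW Pool.Agent.Q288.MB

variable {T W : Type} [Group T] [Fintype T] [Group W] [Fintype W]

/-- the sum of the values of `f` at the elements which `j` maps to `x⁻¹ * w * x` -/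
def cst (j : T →* W) (f : T → ℂ) (w x : W) : ℂ := ∑ t : T, if j t = x⁻¹ * w * x then f t else 0

/-- the function induced from `T` along `j : T → W` -/
def indj (j : T →* W) (f : T → ℂ) (w : W) : ℂ := (Nat.card T : ℂ)⁻¹ * ∑ x : W, cst j f w x

theorem indj_cl (j : T →* W) (f : T → ℂ) : IsCl (indj j f) := by
  intro g y
  unfold indj
  congr 1
  refine Fintype.sum_equiv (Equiv.mulLeft y⁻¹) _ _ fun x => ?_
  unfold cst
  simp only [Equiv.coe_mulLeft]
  refine Finset.sum_congr rfl fun t _ => ?_
  have e : x⁻¹ * (y * g * y⁻¹) * x = (y⁻¹ * x)⁻¹ * g * (y⁻¹ * x) := by group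
  exact if_congr (by rw [e]) rfl rfl

theorem sum_indj (j : T →* W) (f : T → ℂ) {F : W → ℂ} (hF : IsCl F) :
    ∑ w, indj j f w * F w = (Nat.card T : ℂ)⁻¹ * Nat.card W * ∑ t, f t * F (j t) := by
  have h1 : ∀ x : W, ∑ w, cst j f w x * F w = ∑ t, f t * F (j t) := by
    intro x
    unfold cst
    simp only [Finset.sum_mul]
    rw [Finset.sum_comm]
    refine Finset.sum_congr rfl fun t _ => ?_
    rw [Finset.sum_eq_single (x * j t * x⁻¹)]
    · rw [if_pos (by group), hF]
    · intro w _ hw
      rw [if_neg, zero_mul]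
      intro h
      apply hw
      rw [h]
      group
    · intro h
      exact absurd (Finset.mem_univ _) h
  have h2 : ∑ w, indj j f w * F w = (Nat.card T : ℂ)⁻¹ * ∑ x, ∑ w, cst j f w x * F w := by
    unfold indj
    rw [Finset.sum_comm, Finset.mul_sum]
    refine Finset.sum_congr rfl fun w _ => ?_
    rw [mul_assoc, Finset.sum_mul]
  rw [h2, Finset.sum_congr rfl fun x _ => h1 x, Finset.sum_const, Finset.card_univ, nsmul_eq_mul,
    Nat.card_eq_fintype_card (α := W), mul_assoc]

theorem cst_one {j : T →* W} (hj : Function.Injective j) (f : T → ℂ) (x : W) :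
    cst j f 1 x = f 1 := by
  unfold cst
  rw [Finset.sum_eq_single 1]
  · rw [if_pos (by rw [map_one]; group)]
  · intro t _ ht
    rw [if_neg]
    intro h
    apply ht
    apply hj
    rw [h, map_one]
    group
  · intro h
    exact absurd (Finset.mem_univ _) h

theorem indj_one {j : T →* W} (hj : Function.Injective j) (f : T → ℂ) :
    indj j f 1 = (Nat.card T : ℂ)⁻¹ * Nat.card W * f 1 := by
  unfold indj
  rw [Finset.sum_congr rfl fun x _ => cst_one hj f x, Finset.sum_const, Finset.card_univ,
    nsmul_eq_mul, Nat.card_eq_fintype_card (α := W), mul_assoc]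

theorem ratio_ne : (Nat.card T : ℂ)⁻¹ * Nat.card W ≠ 0 :=
  mul_ne_zero (inv_ne_zero (cardG_ne T)) (cardG_ne W)

theorem Om_indj {j : T →* W} (hj : Function.Injective j) (f : T → ℂ) {F : W → ℂ} (hF : IsCl F) :
    Om F (indj j f) = Om (fun t => F (j t)) f := by
  unfold Om
  have h1 : ∑ g, F g * indj j f g = (Nat.card T : ℂ)⁻¹ * Nat.card W * ∑ t, F (j t) * f t := by
    rw [Finset.sum_congr rfl fun g _ => mul_comm (F g) _, sum_indj j f hF]
    congr 1
    exact Finset.sum_congr rfl fun t _ => mul_comm _ _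
  rw [h1, indj_one hj, mul_div_mul_left _ _ ratio_ne]

theorem B_indj (j : T →* W) (f : T → ℂ) {F : W → ℂ} (hF : IsCl F) :
    Pool.Agent.Helper884.IC.B (indj j f) F = Pool.Agent.Helper884.IC.B f (fun t => F (j t)) := by
  unfold Pool.Agent.Helper884.IC.B
  have h1 : IsCl (fun w => F w⁻¹) := by
    intro g y
    have e : (y * g * y⁻¹)⁻¹ = y * g⁻¹ * y⁻¹ := by group
    simp only [e]
    exact hF _ _
  rw [sum_indj j f h1]
  simp only [map_inv]
  have := cardG_ne W
  field_simp

theorem cl_comp {G H : Type} [Group G] [Group H] (π : G →* H) {F : H → ℂ} (hF : IsCl F) :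
    IsCl fun g => F (π g) := by
  intro g y
  simp only [map_mul, map_inv]
  exact hF _ _

theorem L_eq {K G : Type} [Group K] [Fintype K] [Group G] (π : K → G) (ψ : K → ℂ) (a : G) :
    L π ψ a = Om (fun c => ind a (π c)) ψ := by
  unfold L Om ind
  congr 1
  refine Finset.sum_congr rfl fun c _ => ?_
  change (if IsConj a (π c) then ψ c else 0) = (if IsConj a (π c) then 1 else 0) * ψ c
  by_cases h : IsConj a (π c)
  · rw [if_pos h, if_pos h, one_mul]
  · rw [if_neg h, if_neg h, zero_mul]

theorem L_indj {j : T →* W} (hj : Function.Injective j) (f : T → ℂ) {W' : Type} [Group W'] [Fintype W']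
    (π : W →* W') (a : W') : L π (indj j f) a = L (fun t => π (j t)) f a := by
  rw [L_eq, L_eq]
  exact Om_indj hj f (cl_comp π (ind_cl a))

section cosets

theorem sum_cosets (R : Subgroup W) {A : Type} [AddCommMonoid A] (h : W → A)
    (hh : ∀ x : W, ∀ r ∈ R, h (x * r) = h x) :
    ∑ x, h x = Nat.card R • ∑ q : W ⧸ R, h q.out := by
  rw [← Finset.sum_fiberwise_of_maps_to (t := Finset.univ) (g := fun x : W => (x : W ⧸ R))
    (fun x _ => Finset.mem_univ _) h, Finset.smul_sum]
  refine Finset.sum_congr rfl fun q _ => ?_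
  have h1 : ∀ x ∈ Finset.univ.filter (fun x : W => (x : W ⧸ R) = q), h x = h q.out := by
    intro x hx
    have hx' := (Finset.mem_filter.mp hx).2
    have h2 : (q.out : W)⁻¹ * x ∈ R := by
      rw [← QuotientGroup.eq, QuotientGroup.out_eq']
      exact hx'.symm
    have h3 := hh q.out _ h2
    rwa [mul_inv_cancel_left] at h3
  rw [Finset.sum_congr rfl h1, Finset.sum_const]
  congr 1
  rw [Nat.card_eq_fintype_card, ← Finset.card_univ]
  symm
  refine Finset.card_bij (fun (r : R) _ => q.out * (r : W)) ?_ ?_ ?_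
  · intro r _
    refine Finset.mem_filter.mpr ⟨Finset.mem_univ _, ?_⟩
    rw [QuotientGroup.mk_mul_of_mem _ r.2, QuotientGroup.out_eq']
  · intro r _ r' _ hr
    exact Subtype.ext (mul_left_cancel hr)
  · intro x hx
    have hx' := (Finset.mem_filter.mp hx).2
    have h2 : (q.out : W)⁻¹ * x ∈ R := by
      rw [← QuotientGroup.eq, QuotientGroup.out_eq']
      exact hx'.symm
    exact ⟨⟨_, h2⟩, Finset.mem_univ _, mul_inv_cancel_left _ _⟩

variable {j : T →* W} (hj : Function.Injective j)

include hj in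
theorem cst_mul {f : T → ℂ} (hf : IsCl f) (w x : W) {r : W} (hr : r ∈ j.range) :
    cst j f w (x * r) = cst j f w x := by
  obtain ⟨s, rfl⟩ := hr
  unfold cst
  refine Fintype.sum_equiv (MulAut.conj s).toEquiv _ _ fun t => ?_
  have e1 : (MulAut.conj s).toEquiv t = s * t * s⁻¹ := rfl
  rw [e1, hf]
  refine if_congr ?_ rfl rfl
  rw [map_mul, map_mul, map_inv]
  constructor
  · intro h
    rw [h]
    group
  · intro h
    have h2 : j t = (j s)⁻¹ * (j s * j t * (j s)⁻¹) * j s := by group
    rw [h2, h]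
    group

include hj in
theorem card_range : Nat.card j.range = Nat.card T :=
  (Nat.card_congr (MonoidHom.ofInjective hj).toEquiv).symm

include hj in
theorem indj_eq {f : T → ℂ} (hf : IsCl f) (w : W) :
    indj j f w = ∑ q : W ⧸ j.range, cst j f w q.out := by
  unfold indj
  rw [sum_cosets j.range _ fun x r hr => cst_mul hj hf w x hr, card_range hj, nsmul_eq_mul,
    ← mul_assoc, inv_mul_cancel₀ (cardG_ne T), one_mul]
  exact Finset.sum_congr (Finset.ext fun q => by simp) fun _ _ => rfl

theorem cst_mem {O : ValuationSubring ℂ} {f : T → ℂ} (hO : ∀ t, f t ∈ O) (w x : W) :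
    cst j f w x ∈ O := by
  refine sum_mem fun t _ => ?_
  split_ifs
  · exact hO t
  · exact O.zero_mem

include hj in
theorem indj_mem {O : ValuationSubring ℂ} {f : T → ℂ} (hf : IsCl f) (hO : ∀ t, f t ∈ O) (w : W) :
    indj j f w ∈ O := by
  rw [indj_eq hj hf]
  exact sum_mem fun q _ => cst_mem hO _ _

include hj in
/-- a `p`-subgroup of the centraliser of `w` fixes a coset -/
theorem fixed_coset {O : ValuationSubring ℂ} {p : ℕ} [hp : Fact p.Prime]
    (hpO : (p : ℂ) ∈ O.nonunits) {f : T → ℂ} (hf : IsCl f) (hO : ∀ t, f t ∈ O) {w : W}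
    (hw : indj j f w ∉ O.nonunits) {P : Subgroup W} (hP : IsPGroup p P)
    (hPw : P ≤ Subgroup.centralizer ({w} : Set W)) :
    ∃ (x : W) (t : T), (∀ y ∈ P, x⁻¹ * y * x ∈ j.range) ∧ j t = x⁻¹ * w * x ∧
      f t ∉ O.nonunits := by
  haveI := charP_RF hpO
  have h1 : red O (indj j f w) ≠ 0 := fun h => hw ((red_eq_zero_iff (indj_mem hj hf hO w)).mp h)
  rw [indj_eq hj hf, red_sum _ _ fun q _ => cst_mem hO _ _] at h1
  have hinv : ∀ (y : P) (q : W ⧸ j.range), red O (cst j f w (y • q).out) =
      red O (cst j f w q.out) := by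
    intro y q
    have h2 : ((y : W) * q.out)⁻¹ * (y • q).out ∈ j.range := by
      rw [← QuotientGroup.eq, QuotientGroup.out_eq']
      change (((y : W) • (q.out : W) : W) : W ⧸ j.range) = y • q
      conv_rhs => rw [← QuotientGroup.out_eq' q]
      rfl
    have h3 := cst_mul hj hf w ((y : W) * q.out) h2
    rw [mul_inv_cancel_left] at h3
    rw [h3]
    congr 1
    unfold cst
    refine Finset.sum_congr rfl fun t _ => if_congr ?_ rfl rfl
    have h4 : (y : W) * w = w * y := Subgroup.mem_centralizer_singleton_iff.mp (hPw y.2)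
    have h5 : ((y : W) * q.out)⁻¹ * w * ((y : W) * q.out) = (q.out : W)⁻¹ * w * q.out := by
      have h6 : ((y : W) * q.out)⁻¹ * w * ((y : W) * q.out) =
          (q.out : W)⁻¹ * ((y : W)⁻¹ * (w * y)) * q.out := by group
      rw [h6, ← h4]
      group
    rw [h5]
  rw [sum_fixed hP (F := RF O)
    (fun a => by rw [← Nat.cast_smul_eq_nsmul (RF O), CharP.cast_eq_zero, zero_smul])
    (fun q : W ⧸ j.range => red O (cst j f w q.out)) hinv] at h1
  obtain ⟨q, hq, h2⟩ := Finset.exists_ne_zero_of_sum_ne_zero h1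
  simp only [Finset.mem_filter, Finset.mem_univ, true_and] at hq
  have h3 : ∃ t : T, j t = (q.out : W)⁻¹ * w * q.out ∧ f t ∉ O.nonunits := by
    by_contra hcon
    push Not at hcon
    apply h2
    unfold cst
    rw [red_sum _ _ fun t _ => by
      split_ifs
      · exact hO t
      · exact O.zero_mem]
    refine Finset.sum_eq_zero fun t _ => ?_
    split_ifs with h4
    · exact red_eq_zero (hcon t h4)
    · exact red_zero
  obtain ⟨t, ht, hft⟩ := h3
  refine ⟨q.out, t, ?_, ht, hft⟩
  intro y hy
  have h4 := hq ⟨y, hy⟩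
  have h5 : (((y : W) * q.out : W) : W ⧸ j.range) = q := by
    conv_rhs => rw [← h4]
    conv_rhs => rw [← QuotientGroup.out_eq' q]
    rfl
  rw [mul_assoc]
  rw [← QuotientGroup.eq, QuotientGroup.out_eq', h5]

end cosets

end Pool.Agent.K4H11.FR
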