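import Pool.Agent.K4H11.FR.TwB

/-!
# Fong–Reynolds for the stabiliser of a linear character of a normal `p'`-subgroup
-/

set_option autoImplicit false
set_option linter.unusedSectionVars false
set_option linter.style.haveILetI false

open scoped BigOperators Classical

noncomputable section

namespace Pool.Agent.K4H11.FR

open Pool.Agent.Q90.WR Pool.Agent.H254R3.IN Pool.Agent.Q259.BW Pool.Agent.Q288.MB

variable {T G W : Type} [Group T] [Fintype T] [Group G] [Fintype G] [Group W] [Fintype W]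
  {π : T →* G} {i : G →* T} (hπ : ∀ g, π (i g) = g) {j : T →* W} (hj : Function.Injective j)

/-- Outside the image of `j` the conjugation moves the restriction of `Λ` to the kernel of `π`. -/
def Moves (π : T →* G) (j : T →* W) (Λ : T →* ℂ) : Prop :=
  ∀ x : W, x ∉ j.range → ∃ k k' : T, π k = 1 ∧ π k' = 1 ∧ j k' = x⁻¹ * j k * x ∧ Λ k ≠ Λ k'

theorem orth_tw {Λ : T →* ℂ} (h : Moves π j Λ) (B : Set (G → ℂ)) : Orth j (twS π Λ B) := by
  rintro x hx _ ⟨χ, hχ, rfl⟩ _ ⟨χ', hχ', rfl⟩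
  obtain ⟨k, k', h1, h1', h2, h3⟩ := h x hx
  set S := ∑ s : T, ∑ t : T, (if j s = x⁻¹ * j t * x then tw π Λ χ t * tw π Λ χ' s⁻¹ else 0) with hS
  have h4 : S = Λ k * Λ k'⁻¹ * S := by
    conv_lhs => rw [hS]
    rw [hS, Finset.mul_sum]
    rw [← Equiv.sum_comp (Equiv.mulLeft k')]
    refine Finset.sum_congr rfl fun s _ => ?_
    rw [Finset.mul_sum, ← Equiv.sum_comp (Equiv.mulLeft k)]
    refine Finset.sum_congr rfl fun t _ => ?_
    simp only [Equiv.coe_mulLeft]
    have h5 : j (k' * s) = x⁻¹ * j (k * t) * x ↔ j s = x⁻¹ * j t * x := by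
      rw [map_mul, map_mul, h2]
      have e : x⁻¹ * (j k * j t) * x = x⁻¹ * j k * x * (x⁻¹ * j t * x) := by group
      rw [e]
      exact mul_right_inj _
    by_cases h6 : j s = x⁻¹ * j t * x
    · rw [if_pos (h5.mpr h6), if_pos h6]
      unfold tw
      have e2 : π (k * t) = π t := by rw [map_mul, h1, one_mul]
      have e3 : π (k' * s)⁻¹ = π s⁻¹ := by rw [map_inv, map_mul, h1', one_mul, map_inv]
      rw [e2, e3, map_mul Λ, mul_inv_rev, map_mul Λ]
      ring
    · rw [if_neg (fun h => h6 (h5.mp h)), if_neg h6, mul_zero]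
  have h7 : Λ k * Λ k'⁻¹ ≠ 1 := by
    intro h8
    apply h3
    have h9 := lin_mul Λ k'
    linear_combination (Λ k') * h8 - (Λ k) * h9
  have h8 : (1 - Λ k * Λ k'⁻¹) * S = 0 := by linear_combination h4
  rcases mul_eq_zero.mp h8 with h9 | h9
  · exact absurd (sub_eq_zero.mp h9).symm h7
  · exact h9

variable {O : ValuationSubring ℂ} {p : ℕ} [hp : Fact p.Prime]

include hj in
theorem norm_of_map {E : Subgroup T} {t : T} (h : j t ∈ NN (E.map j)) : t ∈ NN E := by
  rw [Subgroup.mem_normalizer_iff]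
  intro e
  have h0 := Subgroup.mem_normalizer_iff.mp h (j e)
  have h1 : ∀ y : T, j y ∈ E.map j ↔ y ∈ E := fun y =>
    ⟨fun ⟨z, hz, hh⟩ => by rw [← hj hh]; exact hz, fun hy => ⟨y, hy, rfl⟩⟩
  rw [h1] at h0
  rw [h0, ← map_mul, ← map_inv, ← map_mul, h1]

include hj in
theorem moves_local (hpO : (p : ℂ) ∈ O.nonunits) (hK : ¬ p ∣ Nat.card π.ker) (Λ : T →* ℂ)
    {D : Subgroup G} (hD : IsPGroup p D)
    (h2 : ∀ (x : W) (k : T), π k = 1 → ∃ k', π k' = 1 ∧ j k' = x⁻¹ * j k * x)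
    (h3 : Moves π j Λ) :
    Moves (piN hπ D) (jN j (D.map i)) (linN Λ (D.map i)) := by
  haveI := charP_RF hpO
  intro x hx
  by_contra hcon
  push Not at hcon
  have hxj : (x : W) ∉ j.range := by
    rintro ⟨t, ht⟩
    apply hx
    refine ⟨⟨t, norm_of_map hj (by rw [ht]; exact x.2)⟩, Subtype.ext ht⟩
  choose! α hα1 hα2 using h2 (x : W)
  have hαu : ∀ k k' : T, π k = 1 → j k' = (x : W)⁻¹ * j k * x → k' = α k := fun k k' hk h =>
    hj (by rw [h, hα2 k hk])
  set μ : π.ker → ℂ := fun k => Λ k * Λ (α k)⁻¹ with hμ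
  have hαm : ∀ k l : T, π k = 1 → π l = 1 → α (k * l) = α k * α l := by
    intro k l hk hl
    symm
    apply hαu
    · rw [map_mul, hk, hl, one_mul]
    · rw [map_mul, map_mul, hα2 k hk, hα2 l hl]
      group
  have hμm : ∀ k l : π.ker, μ (k * l) = μ k * μ l := by
    intro k l
    have h := hαm k l k.2 l.2
    change Λ ((k : T) * l) * Λ (α ((k : T) * l))⁻¹ = Λ k * Λ (α k)⁻¹ * (Λ l * Λ (α l)⁻¹)
    rw [h, mul_inv_rev, map_mul, map_mul]
    ring
  have hμO : ∀ k, μ k ∈ O := fun k => O.mul_mem _ _ (lin_mem O Λ _) (lin_mem O Λ _)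
  -- the sum of `μ` is not zero
  have hsum : ∑ k, μ k ≠ 0 := by
    letI : MulAction D π.ker := MulAction.compHom π.ker
      ((MulAut.conjNormal : T →* MulAut π.ker).comp (i.comp D.subtype))
    have hact : ∀ (d : D) (k : π.ker), ((d • k : π.ker) : T) = i d * k * (i d)⁻¹ := fun d k =>
      MulAut.conjNormal_apply (i (d : G)) k
    have hF : ∀ a : RF O, p • a = 0 := fun a => by
      rw [← Nat.cast_smul_eq_nsmul (RF O), CharP.cast_eq_zero, zero_smul]
    have hinv : ∀ (d : D) (k : π.ker), red O (μ (d • k)) = red O (μ k) := by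
      intro d k
      congr 1
      have hk : π (k : T) = 1 := k.2
      obtain ⟨y, ⟨e, he, rfl⟩, hy⟩ : (x : W)⁻¹ * j (i d) * x ∈ (D.map i).map j := by
        have h0 := (Subgroup.mem_normalizer_iff.mp x.2 ((x : W)⁻¹ * j (i d) * x))
        apply h0.mpr
        have e1 : (x : W) * ((x : W)⁻¹ * j (i d) * x) * (x : W)⁻¹ = j (i d) := by group
        rw [e1]
        exact ⟨i d, ⟨d, d.2, rfl⟩, rfl⟩
      have h5 : i e * α k * (i e)⁻¹ = α (i d * k * (i d)⁻¹) := by
        apply hαu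
        · rw [map_mul, map_mul, hk, mul_one, map_inv, mul_inv_cancel]
        · simp only [map_mul, map_inv, hα2 k hk]
          rw [hy]
          group
      change Λ ((d • k : π.ker) : T) * Λ (α ((d • k : π.ker) : T))⁻¹ = Λ k * Λ (α k)⁻¹
      rw [hact, lin_cl Λ k (i d), ← h5]
      congr 1
      have h6 := inv_cl (lin_cl Λ) (α k) (i e)
      exact h6
    have h4 := sum_fixed hD (X := π.ker) (F := RF O) hF (fun k => red O (μ k)) hinv
    have h5 := sum_fixed hD (X := π.ker) (F := RF O) hF (fun _ => (1 : RF O)) fun _ _ => rfl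
    intro h0
    have h6 : ∑ k, red O (μ k) = 0 := by
      rw [← red_sum _ _ fun k _ => hμO k, h0, red_zero]
    have h7 : ∑ k : π.ker, (1 : RF O) = 0 := by
      rw [h5, ← h6, h4]
      refine Finset.sum_congr rfl fun k hk => ?_
      simp only [Finset.mem_filter, Finset.mem_univ, true_and] at hk
      have h8 : ∀ d ∈ D, i d * (k : T) = k * i d := by
        intro d hd
        have h2 := congrArg Subtype.val (hk ⟨d, hd⟩)
        rw [hact] at h2
        have h3 := congrArg (· * i d) h2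
        simpa only [inv_mul_cancel_right] using h3
      have h9 : (k : T) ∈ NN (D.map i) := by
        apply cent_le_NN
        rw [Subgroup.mem_centralizer_iff]
        rintro _ ⟨d, hd, rfl⟩
        exact h8 d hd
      have h10 : α k ∈ NN (D.map i) := by
        apply norm_of_map hj
        rw [hα2 k k.2]
        exact Subgroup.mul_mem _ (Subgroup.mul_mem _ (Subgroup.inv_mem _ x.2)
          (map_norm j (D.map i) ⟨k, h9⟩)) x.2
      have h11 := hcon ⟨k, h9⟩ ⟨α k, h10⟩ (Subtype.ext k.2) (Subtype.ext (hα1 k k.2))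
        (Subtype.ext (hα2 k k.2))
      have h12 : Λ k = Λ (α k) := h11
      have h13 : μ k = 1 := by
        change Λ k * Λ (α k)⁻¹ = 1
        rw [h12, lin_mul]
      rw [h13, red_one]
    rw [Finset.sum_const, Finset.card_univ, nsmul_eq_mul, mul_one, ← Nat.card_eq_fintype_card,
      ← red_natCast, red_nat_eq_zero_iff hpO] at h7
    exact hK h7
  obtain ⟨k, k', hk, hk', hkk, hne⟩ := h3 x hxj
  have h14 : μ ⟨k, hk⟩ = 1 := by
    have h15 : ∑ l, μ l = μ ⟨k, hk⟩ * ∑ l, μ l := by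
      rw [Finset.mul_sum, ← Equiv.sum_comp (Equiv.mulLeft (⟨k, hk⟩ : π.ker))]
      refine Finset.sum_congr rfl fun l _ => ?_
      exact hμm _ _
    exact mul_right_cancel₀ hsum (by rw [← h15, one_mul])
  apply hne
  have h16 : Λ k * Λ (α k)⁻¹ = 1 := h14
  rw [← hαu k k' hk hkk] at h16
  have h9 := lin_mul Λ k'
  linear_combination (Λ k') * h16 - (Λ k) * h9

include hj in
/-- A block of `G` and its Brauer correspondent have the same numbers as a block of `W` and its
Brauer correspondent. -/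
theorem realise (hpO : (p : ℂ) ∈ O.nonunits) {X : Dat} [Fintype X.G] (hX : X.IsBrauer p O)
    {T W : Type} [Group T] [Fintype T] [Group W] [Fintype W] {π : T →* X.G} {i : X.G →* T}
    (hπ : ∀ g, π (i g) = g) {j : T →* W} (hj : Function.Injective j)
    (hK : ¬ p ∣ Nat.card π.ker) (Λ : T →* ℂ)
    (h2 : ∀ (x : W) (k : T), π k = 1 → ∃ k', π k' = 1 ∧ j k' = x⁻¹ * j k * x)
    (h3 : Moves π j Λ) :
    ∃ Y : Dat, Y.G = W ∧ Y.IsBrauer p O ∧ Nat.card (Y.ht0 p) = Nat.card (X.ht0 p) ∧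
      Nat.card (Y.ht0' p) = Nat.card (X.ht0' p) := by
  obtain ⟨a1, a2, a3⟩ := Dtw_spec hpO hX hπ hK Λ
  letI : Fintype (Dtw X hπ Λ).G := inferInstanceAs (Fintype T)
  have hDp : IsPGroup p X.D := (isDefectGroup_iff.mp hX.defect).choose_spec.2.1
  have o1 : Orth (T := (Dtw X hπ Λ).G) j (Dtw X hπ Λ).B := orth_tw h3 X.B
  have o2 : Orth (T := NN (Dtw X hπ Λ).D) (jN (T := (Dtw X hπ Λ).G) j (Dtw X hπ Λ).D)
      (Dtw X hπ Λ).b :=
    orth_tw (moves_local hπ hj hpO hK Λ hDp h2 h3) X.b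
  obtain ⟨b1, b2, b3⟩ := Dind_spec (X := Dtw X hπ Λ) hpO a1 (W := W) (j := j) hj o1 o2
  exact ⟨Dind (Dtw X hπ Λ) j, rfl, b1, b2.trans a2, b3.trans a3⟩

end Pool.Agent.K4H11.FR
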