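import Pool.Agent.K4H11.FR.Cut
import Pool.Agent.K4H11.FR.Lam

/-!
# Fong–Reynolds for subgroups between the centraliser and the normaliser of a `p`-subgroup
-/

set_option autoImplicit false
set_option linter.unusedSectionVars false
set_option linter.style.haveILetI false

open scoped BigOperators Classical

noncomputable section

namespace Pool.Agent.K4H11.FR

open Pool.Agent.Q90.WR Pool.Agent.H254R3.IN Pool.Agent.Q259.BW Pool.Agent.Q288.MB

variable {T G W : Type} [Group T] [Fintype T] [Group G] [Fintype G] [Group W] [Fintype W]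
  {π : T →* G} {i : G →* T} {j : T →* W}

/-- local subgroups of `G`, `T`, `W` which belong together -/
structure LD (π : T →* G) (i : G →* T) (j : T →* W) (P S : Subgroup G) (RT : Subgroup T)
    (RW : Subgroup W) : Prop where
  a1 : ∀ t ∈ RT, π t ∈ S
  a2 : ∀ g ∈ S, i g ∈ RT
  a3 : ∀ t, t ∈ RT ↔ j t ∈ RW
  a4 : ∀ w ∈ RW, w ∈ NN ((P.map i).map j)
  a5 : ∀ t : T, t ∈ Subgroup.centralizer ((P.map i : Subgroup T) : Set T) → t ∈ RT

namespace LD

variable {P S : Subgroup G} {RT : Subgroup T} {RW : Subgroup W} (h : LD π i j P S RT RW)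

/-- the restriction of `π` -/
def piL : RT →* S := (π.comp RT.subtype).codRestrict S fun t => h.a1 t t.2

/-- the restriction of `i` -/
def iL : S →* RT := (i.comp S.subtype).codRestrict RT fun g => h.a2 g g.2

/-- the restriction of `j` -/
def jL : RT →* RW := (j.comp RT.subtype).codRestrict RW fun t => (h.a3 t).mp t.2

/-- the restriction of `Λ` -/
def lamL (_ : LD π i j P S RT RW) (Λ : T →* ℂ) : RT →* ℂ := Λ.comp RT.subtype

theorem piL_iL (hπ : ∀ g, π (i g) = g) (g : S) : h.piL (h.iL g) = g := Subtype.ext (hπ g)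

theorem jL_inj (hj : Function.Injective j) : Function.Injective h.jL := fun a b hab =>
  Subtype.ext (hj (congrArg (fun z : RW => (z : W)) hab))

include h in
theorem norm_mem (hj : Function.Injective j) {t : T} (ht : t ∈ RT) : t ∈ NN (P.map i) :=
  norm_of_map hj (h.a4 _ ((h.a3 t).mp ht))

theorem ker_comm (hπ : ∀ g, π (i g) = g) {t : T} (ht : t ∈ NN (P.map i)) (h1 : π t = 1) :
    t ∈ Subgroup.centralizer ((P.map i : Subgroup T) : Set T) := by
  rw [Subgroup.mem_centralizer_iff]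
  rintro _ ⟨d, hd, rfl⟩
  have h2 := mem_ker_norm hπ P ⟨t, ht⟩ h1 hd
  have h3 := congrArg (· * i d) h2
  simpa only [inv_mul_cancel_right] using h3

include h in
theorem ker_mem (hπ : ∀ g, π (i g) = g) {t : T} (ht : t ∈ NN (P.map i)) (h1 : π t = 1) :
    t ∈ RT := h.a5 t (ker_comm hπ ht h1)

variable {O : ValuationSubring ℂ} {p : ℕ} [hp : Fact p.Prime]

theorem moves (hπ : ∀ g, π (i g) = g) (hj : Function.Injective j) (hpO : (p : ℂ) ∈ O.nonunits)
    (hK : ¬ p ∣ Nat.card π.ker) (Λ : T →* ℂ) (hP : IsPGroup p P)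
    (h2 : ∀ (x : W) (k : T), π k = 1 → ∃ k', π k' = 1 ∧ j k' = x⁻¹ * j k * x)
    (h3 : Moves π j Λ) : Moves h.piL h.jL (h.lamL Λ) := by
  intro x hx
  have h4 := moves_local hπ hj hpO hK Λ hP h2 h3 ⟨x, h.a4 x x.2⟩ (by
    rintro ⟨t, ht⟩
    apply hx
    have h5 : j (t : T) = x := congrArg (fun z : NN ((P.map i).map j) => (z : W)) ht
    have h6 : (t : T) ∈ RT := (h.a3 _).mpr (by rw [h5]; exact x.2)
    exact ⟨⟨t, h6⟩, Subtype.ext h5⟩)
  obtain ⟨k, k', h5, h6, h7, h8⟩ := h4
  have h5' : π (k : T) = 1 := congrArg (fun z : NN P => (z : G)) h5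
  have h6' : π (k' : T) = 1 := congrArg (fun z : NN P => (z : G)) h6
  refine ⟨⟨k, h.ker_mem hπ k.2 h5'⟩, ⟨k', h.ker_mem hπ k'.2 h6'⟩, Subtype.ext h5',
    Subtype.ext h6', Subtype.ext ?_, h8⟩
  exact congrArg (fun z : NN ((P.map i).map j) => (z : W)) h7

theorem pu_finsum (π : T →* G) (i : G →* T) (F : T → ℂ) (g : G) :
    pu π i F g = ∑ᶠ k : π.ker, F (k * i g) := by
  unfold pu
  rw [finsum_eq_sum_of_fintype]

theorem pu_loc (hπ : ∀ g, π (i g) = g) (hj : Function.Injective j)
    (hpO : (p : ℂ) ∈ O.nonunits) (hP : IsPGroup p P) {F : T → ℂ} (hF : IsCl F)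
    (hO : ∀ t, F t ∈ O) {g : S} (hg : (g : G) ∈ Subgroup.centralizer (P : Set G)) :
    red O (pu π i F g) = red O (pu h.piL h.iL (fun n => F n) g) := by
  have h1 := pu_red (i := i) hπ hpO hP hF hO (g := ⟨(g : G), cent_le_NN hg⟩) hg
  refine h1.trans ?_
  congr 1
  rw [pu_finsum, pu_finsum]
  let e : (piN hπ P).ker → h.piL.ker := fun k =>
    ⟨⟨((k : NN (P.map i)) : T), h.ker_mem hπ (k : NN (P.map i)).2
      (congrArg (fun z : NN P => (z : G)) k.2)⟩,
      Subtype.ext (congrArg (fun z : NN P => (z : G)) k.2)⟩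
  have he : Function.Bijective e := by
    constructor
    · intro a b hab
      have h3 : (((a : NN (P.map i)) : T)) = ((b : NN (P.map i)) : T) :=
        congrArg (fun z : h.piL.ker => (((z : RT)) : T)) hab
      exact Subtype.ext (Subtype.ext h3)
    · intro k
      have h3 : π ((k : RT) : T) = 1 := congrArg (fun z : S => (z : G)) k.2
      exact ⟨⟨⟨(k : RT), h.norm_mem hj (k : RT).2⟩, Subtype.ext h3⟩, rfl⟩
  exact finsum_eq_of_bijective e he fun k => rfl

end LD

end Pool.Agent.K4H11.FR
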