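import Pool.Agent.K4H11.FR.Chn

/-!
# The conjugates of a linear character of a normal `p'`-subgroup
-/

set_option autoImplicit false
set_option linter.unusedSectionVars false
set_option linter.style.haveILetI false

open scoped BigOperators Classical

noncomputable section

namespace Pool.Agent.K4H11.FR

open Pool.Agent.Q90.WR Pool.Agent.H254R3.IN Pool.Agent.Q259.BW Pool.Agent.Q288.MB
open Pool.Agent.Y63.KR (IsPChain chainStabilizer conjSub mem_chainStabilizer conjSub_eq_iff)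
open Pool.Agent.R674.KB (mem_stab exists_greatest)

section cst

variable {T W : Type} [Group T] [Fintype T] [Group W] [Fintype W] {j : T →* W}

theorem cst_eq (hj : Function.Injective j) (f : T → ℂ) {w x : W} {k : T}
    (h : j k = x⁻¹ * w * x) : cst j f w x = f k := by
  unfold cst
  rw [Finset.sum_eq_single k]
  · rw [if_pos h]
  · intro t _ ht
    rw [if_neg]
    intro h1
    exact ht (hj (h1.trans h.symm))
  · intro h
    exact absurd (Finset.mem_univ _) h

theorem cst_zero (f : T → ℂ) {w x : W} (h : ∀ k, j k = x⁻¹ * w * x → f k = 0) :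
    cst j f w x = 0 := by
  unfold cst
  refine Finset.sum_eq_zero fun t _ => ?_
  split_ifs with h1
  · exact h t h1
  · rfl

theorem cst_left (f : T → ℂ) (h x w : W) : cst j f w (h * x) = cst j f (h⁻¹ * w * h) x := by
  unfold cst
  refine Finset.sum_congr rfl fun t _ => if_congr ?_ rfl rfl
  have e : (h * x)⁻¹ * w * (h * x) = x⁻¹ * (h⁻¹ * w * h) * x := by group
  rw [e]

end cst

section mm

variable {T G W : Type} [Group T] [Fintype T] [Group G] [Fintype G] [Group W] [Fintype W]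

/-- the inverse of `Λ` on the kernel of `π` -/
def lk (π : T →* G) (Λ : T →* ℂ) (t : T) : ℂ := Λ t⁻¹ * dl (π t)

theorem lk_cl (π : T →* G) (Λ : T →* ℂ) : IsCl (lk π Λ) := by
  intro g y
  have e1 := inv_cl (lin_cl Λ) g y
  simp only at e1
  have e2 : dl (π (y * g * y⁻¹)) = dl (π g) := cl_comp π dl_cl g y
  unfold lk
  rw [e1, e2]

theorem lk_mem (O : ValuationSubring ℂ) (π : T →* G) (Λ : T →* ℂ) (t : T) : lk π Λ t ∈ O :=
  O.mul_mem _ _ (lin_mem O Λ _) (dl_mem O _)

/-- the inverse of the conjugate of `Λ` by `x`, on the conjugate of the kernel -/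
def mm (π : T →* G) (j : T →* W) (Λ : T →* ℂ) (x w : W) : ℂ := cst j (lk π Λ) w x

variable {π : T →* G} {j : T →* W} {Λ : T →* ℂ}

/-- the image of the kernel -/
abbrev NK (π : T →* G) (j : T →* W) : Subgroup W := π.ker.map j

variable (hj : Function.Injective j)
  (h2 : ∀ (x : W) (k : T), π k = 1 → ∃ k', π k' = 1 ∧ j k' = x⁻¹ * j k * x)

include h2 in
theorem nk_normal : (NK π j).Normal := by
  refine ⟨?_⟩
  rintro _ ⟨k, hk, rfl⟩ x
  obtain ⟨k', h3, h4⟩ := h2 x⁻¹ k hk
  rw [inv_inv] at h4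
  exact ⟨k', h3, h4⟩

include hj h2 in
theorem mm_val {w : W} (hw : w ∈ NK π j) (x : W) :
    ∃ k, π k = 1 ∧ j k = x⁻¹ * w * x ∧ mm π j Λ x w = Λ k⁻¹ := by
  obtain ⟨k₀, h0, rfl⟩ := hw
  obtain ⟨k, h3, h4⟩ := h2 x k₀ h0
  refine ⟨k, h3, h4, ?_⟩
  unfold mm
  rw [cst_eq hj _ h4]
  unfold lk
  rw [h3, show dl (1 : G) = 1 from if_pos rfl, mul_one]

include h2 in
theorem mm_zero {w : W} (hw : w ∉ NK π j) (x : W) : mm π j Λ x w = 0 := by
  apply cst_zero
  intro k hk
  unfold lk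
  have h3 : π k ≠ 1 := by
    intro h3
    apply hw
    obtain ⟨k', h4, h5⟩ := h2 x⁻¹ k h3
    refine ⟨k', h4, ?_⟩
    rw [h5, hk]
    group
  rw [show dl (π k) = 0 from if_neg h3, mul_zero]

include hj h2 in
theorem mm_mul {w w' : W} (hw : w ∈ NK π j) (hw' : w' ∈ NK π j) (x : W) :
    mm π j Λ x (w * w') = mm π j Λ x w * mm π j Λ x w' := by
  obtain ⟨k, h3, h4, h5⟩ := mm_val (Λ := Λ) hj h2 hw x
  obtain ⟨k', h3', h4', h5'⟩ := mm_val (Λ := Λ) hj h2 hw' x
  have h6 : j (k * k') = x⁻¹ * (w * w') * x := by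
    rw [map_mul, h4, h4']
    group
  rw [h5, h5']
  unfold mm
  rw [cst_eq hj _ h6]
  unfold lk
  rw [map_mul, h3, h3', one_mul, show dl (1 : G) = 1 from if_pos rfl, mul_one, mul_inv_rev,
    map_mul, mul_comm]

include hj in
theorem mm_one (x : W) : mm π j Λ x 1 = 1 := by
  have h6 : j 1 = x⁻¹ * 1 * x := by
    rw [map_one]
    group
  unfold mm
  rw [cst_eq hj _ h6]
  unfold lk
  rw [map_one, inv_one, map_one, show dl (1 : G) = 1 from if_pos rfl, mul_one]

include hj h2 in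
theorem mm_inv {w : W} (hw : w ∈ NK π j) (x : W) :
    mm π j Λ x w * mm π j Λ x w⁻¹ = 1 := by
  rw [← mm_mul hj h2 hw ((NK π j).inv_mem hw), mul_inv_cancel, mm_one hj]

theorem mm_left (h x w : W) : mm π j Λ (h * x) w = mm π j Λ x (h⁻¹ * w * h) :=
  cst_left _ _ _ _

include hj in
theorem mm_right (x w : W) {r : W} (hr : r ∈ j.range) : mm π j Λ (x * r) w = mm π j Λ x w :=
  cst_mul hj (lk_cl π Λ) w x hr

theorem mm_mem (O : ValuationSubring ℂ) (x w : W) : mm π j Λ x w ∈ O :=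
  cst_mem (fun t => lk_mem O π Λ t) w x

include hj h2 in
/-- elements with the same conjugate of `Λ` -/
theorem mm_coset (hM : Moves π j Λ) {x y : W}
    (h : ∀ w ∈ NK π j, mm π j Λ x w = mm π j Λ y w) : y⁻¹ * x ∈ j.range := by
  by_contra hn
  obtain ⟨k, k', h3, h4, h5, h6⟩ := hM _ hn
  apply h6
  have hw : y * j k * y⁻¹ ∈ NK π j := (nk_normal h2).conj_mem _ ⟨k, h3, rfl⟩ y
  have e1 : mm π j Λ y (y * j k * y⁻¹) = Λ k⁻¹ := by
    unfold mm
    rw [cst_eq hj _ (show j k = y⁻¹ * (y * j k * y⁻¹) * y by group)]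
    unfold lk
    rw [h3, show dl (1 : G) = 1 from if_pos rfl, mul_one]
  have e2 : mm π j Λ x (y * j k * y⁻¹) = Λ k'⁻¹ := by
    unfold mm
    rw [cst_eq hj _ (show j k' = x⁻¹ * (y * j k * y⁻¹) * x by rw [h5]; group)]
    unfold lk
    rw [h4, show dl (1 : G) = 1 from if_pos rfl, mul_one]
  have h7 := h _ hw
  rw [e1, e2] at h7
  have h8 := lin_mul Λ k
  have h9 := lin_mul Λ k'
  rw [h7] at h9
  linear_combination (Λ k') * h8 - (Λ k) * h9

/-- `p`-subgroups meet the image of the kernel trivially -/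
theorem nk_disj {p : ℕ} [hp : Fact p.Prime] (hj : Function.Injective j)
    (hK : ¬ p ∣ Nat.card π.ker) {P : Subgroup W} (hP : IsPGroup p P) {z : W} (h1 : z ∈ P)
    (h3 : z ∈ NK π j) : z = 1 := by
  obtain ⟨n, hn⟩ := hP ⟨z, h1⟩
  have h4 : orderOf z ∣ p ^ n := by
    apply orderOf_dvd_of_pow_eq_one
    exact congrArg Subtype.val hn
  have h5 : orderOf z ∣ Nat.card π.ker := by
    rw [← card_map_inj hj π.ker, ← Subgroup.orderOf_mk z h3]
    exact orderOf_dvd_natCard _
  have h6 : Nat.Coprime (p ^ n) (Nat.card π.ker) :=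
    Nat.Coprime.pow_left n ((Nat.Prime.coprime_iff_not_dvd hp.out).mpr hK)
  exact orderOf_eq_one_iff.mp (Nat.eq_one_of_dvd_coprimes h6 h4 h5)

include h2 in
theorem nk_comm {p : ℕ} [hp : Fact p.Prime] (hj : Function.Injective j)
    (hK : ¬ p ∣ Nat.card π.ker) {P : Subgroup W} (hP : IsPGroup p P) {u y : W} (hu : u ∈ NK π j)
    (hn : u ∈ NN P) (hy : y ∈ P) : u * y = y * u := by
  have h3 : u * y * u⁻¹ * y⁻¹ ∈ P :=
    P.mul_mem ((Subgroup.mem_normalizer_iff.mp hn y).mp hy) (P.inv_mem hy)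
  have h4 : u * y * u⁻¹ * y⁻¹ ∈ NK π j := by
    have e : u * y * u⁻¹ * y⁻¹ = u * (y * u⁻¹ * y⁻¹) := by group
    rw [e]
    exact (NK π j).mul_mem hu ((nk_normal h2).conj_mem _ ((NK π j).inv_mem hu) y)
  have h5 := nk_disj hj hK hP h3 h4
  calc u * y = u * y * u⁻¹ * y⁻¹ * (y * u) := by group
    _ = y * u := by rw [h5, one_mul]

end mm

section chars

variable {H : Type} [Group H] [Fintype H]

/-- class functions act by scalars -/
theorem cls_act {χ : H → ℂ} (hχ : IsIrr χ) {F : H → ℂ} (hF : IsCl F) (u : H) :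
    ∑ v, F v * χ (v * u) = Om F χ * χ u := by
  obtain ⟨V, _, _, _, ρ, hr, rfl⟩ := hχ
  have h1 := class_scalar ρ hr F hF
  have h2 := congrArg (fun S : V →ₗ[ℂ] V => LinearMap.trace ℂ V (S * ρ u)) h1
  simp only [Finset.sum_mul, smul_mul_assoc, map_sum, map_smul, smul_eq_mul] at h2
  have h3 : (LinearMap.id : V →ₗ[ℂ] V) * (ρ u) = ρ u := one_mul _
  rw [h3] at h2
  have h4 : ∀ v, LinearMap.trace ℂ V (ρ v * ρ u) = ρ.character (v * u) := by
    intro v
    rw [← map_mul]
    rfl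
  simp only [h4] at h2
  exact h2

theorem exists_nu (C : Subgroup H) {θ : H → ℂ} (hθ : IsIrr θ) :
    ∃ ν : C → ℂ, IsIrr ν ∧ ∑ u : C, θ u * ν u⁻¹ ≠ 0 := by
  by_contra hcon
  push Not at hcon
  have h1 : (fun u : C => θ u) = 0 := by
    apply Pool.Agent.Helper884.IC.class_eq_zero
    · exact cl_comp C.subtype (irr_cl hθ)
    · intro χ hχ
      unfold Pool.Agent.Helper884.IC.B
      rw [hcon χ hχ, mul_zero]
  exact hθ.one_ne (congrFun h1 1)

theorem Om_restrict (C : Subgroup H) {θ : H → ℂ} (hθ : IsIrr θ) {ν : C → ℂ} (hν : IsIrr ν)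
    (hne : ∑ u : C, θ u * ν u⁻¹ ≠ 0) {F : H → ℂ} (hF : IsCl F) (h0 : ∀ h, h ∉ C → F h = 0) :
    Om F θ = Om (fun u : C => F u) ν := by
  have hFC : IsCl (fun u : C => F u) := cl_comp C.subtype hF
  apply mul_right_cancel₀ hne
  have h1 : ∀ u : C, ∑ v : C, F v * θ (v * u) = Om F θ * θ u := by
    intro u
    rw [← cls_act hθ hF (u : H)]
    symm
    rw [← Finset.sum_subtype (p := fun t : H => t ∈ C)
      (Finset.univ.filter fun t : H => t ∈ C) (fun t => by simp)
      (fun t => F t * θ (t * (u : H))), Finset.sum_filter]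
    refine Finset.sum_congr rfl fun t _ => ?_
    split_ifs with ht
    · rfl
    · rw [h0 t ht, zero_mul]
  calc Om F θ * ∑ u : C, θ u * ν u⁻¹ = ∑ u : C, (∑ v : C, F v * θ (v * u)) * ν u⁻¹ := by
        rw [Finset.mul_sum]
        refine Finset.sum_congr rfl fun u _ => ?_
        rw [h1 u]
        ring
    _ = ∑ v : C, ∑ u : C, F v * θ (v * u) * ν u⁻¹ := by
        rw [Finset.sum_comm]
        refine Finset.sum_congr rfl fun u _ => ?_
        rw [Finset.sum_mul]
    _ = ∑ v : C, ∑ w : C, F v * θ w * ν (v * w⁻¹) := by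
        refine Finset.sum_congr rfl fun v _ => ?_
        refine Fintype.sum_equiv (Equiv.mulLeft v) _ _ fun u => ?_
        simp only [Equiv.coe_mulLeft, Subgroup.coe_mul]
        have e : v * (v * u)⁻¹ = v * (u⁻¹ * 1 * v⁻¹) := by group
        have e2 : ν (v * (v * u)⁻¹) = ν u⁻¹ := by
          rw [show v * (v * u)⁻¹ = v * u⁻¹ * v⁻¹ by group]
          exact hν.conj u⁻¹ v
        rw [e2]
    _ = ∑ w : C, θ w * ∑ v : C, F v * ν (v * w⁻¹) := by
        rw [Finset.sum_comm]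
        refine Finset.sum_congr rfl fun w _ => ?_
        rw [Finset.mul_sum]
        refine Finset.sum_congr rfl fun v _ => ?_
        ring
    _ = Om (fun u : C => F u) ν * ∑ u : C, θ u * ν u⁻¹ := by
        rw [Finset.mul_sum]
        refine Finset.sum_congr rfl fun w _ => ?_
        rw [cls_act hν hFC w⁻¹]
        ring

/-- an irreducible character which is not orthogonal to a linear character is a multiple of it -/
theorem lin_of_sum (M : H →* ℂ) {ν : H → ℂ} (hν : IsIrr ν) (h : ∑ u, M u * ν u ≠ 0) (k : H) :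
    ν k⁻¹ = ν 1 * M k := by
  have hid : ∀ g : H, (MonoidHom.id H) ((MonoidHom.id H) g) = g := fun g => rfl
  have hi : IsIrr (tw (MonoidHom.id H) M ν) := tw_irr hid M hν
  have h1 := const_of_sum (K := (⊤ : Subgroup H)) hi (by
    have e : ∑ k : (⊤ : Subgroup H), tw (MonoidHom.id H) M ν k = ∑ u, M u * ν u :=
      Fintype.sum_equiv Subgroup.topEquiv.toEquiv _ _ fun k => rfl
    rw [e]
    exact h) 1 k⁻¹ trivial
  have h3 : M k⁻¹ * ν k⁻¹ = M 1 * ν 1 := by
    rw [one_mul] at h1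
    exact h1
  rw [map_one, one_mul] at h3
  have h4 := lin_mul M k
  linear_combination (M k) * h3 - (ν k⁻¹) * h4

end chars

end Pool.Agent.K4H11.FR
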