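import Pool.Agent.K4H11.FR.Loc
import Pool.Agent.Q90.WR.Bcl

/-!
# Fong–Reynolds for subgroups: blocks inducing to a given block
-/

set_option autoImplicit false
set_option linter.unusedSectionVars false
set_option linter.style.haveILetI false

open scoped BigOperators Classical

noncomputable section

namespace Pool.Agent.K4H11.FR

open Pool.Agent.Q90.WR Pool.Agent.H254R3.IN Pool.Agent.Q259.BW Pool.Agent.Q288.MB

section general

variable {O : ValuationSubring ℂ} {p : ℕ} [hp : Fact p.Prime]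

/-- membership in `IndS` in terms of class functions -/
theorem mem_IndS_iff {K G : Type} [Group K] [Fintype K] [Group G] [Fintype G] {B : Set (G → ℂ)}
    (hB : IsBlock O B) {χ₀ : G → ℂ} (h0 : χ₀ ∈ B) (π : K →* G) (θ : K → ℂ) :
    θ ∈ IndS O B π ↔ IsIrr θ ∧ ∀ F : G → ℂ, IsCl F → (∀ g, F g ∈ O) →
      red O (Om (fun k => F (π k)) θ) = red O (Om F χ₀) := by
  rw [mem_IndS hB h0]
  have hi := hB.irr χ₀ h0
  constructor
  · rintro ⟨h1, h2⟩
    refine ⟨h1, fun F hF hO => ?_⟩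
    rw [Om_classes (π : K → G) hF θ, (red_Om hi hF hO).2,
      red_sum _ _ fun C _ => O.mul_mem _ _ (hO _) (h2 _).1]
    refine Finset.sum_congr rfl fun C _ => ?_
    rw [red_mul (hO _) (h2 _).1, (h2 _).2]
  · rintro ⟨h1, h2⟩
    refine ⟨h1, fun x => ?_⟩
    rw [L_eq]
    refine ⟨(red_Om h1 (cl_comp π (ind_cl x)) fun k => ind_mem O x _).1, ?_⟩
    have h3 := h2 (ind x) (ind_cl x) (ind_mem O x)
    rw [Om_ind hi] at h3
    exact h3

/-- class functions with the same reduction -/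
theorem red_Om_eq {G : Type} [Group G] [Fintype G] {χ : G → ℂ} (hχ : IsIrr χ) {f h : G → ℂ}
    (hf : IsCl f) (hfO : ∀ g, f g ∈ O) (hh : IsCl h) (hhO : ∀ g, h g ∈ O)
    (H : ∀ g, red O (f g) = red O (h g)) : red O (Om f χ) = red O (Om h χ) := by
  rw [(red_Om hχ hf hfO).2, (red_Om hχ hh hhO).2]
  exact Finset.sum_congr rfl fun K _ => by rw [H]

theorem cent_conj {G : Type} [Group G] {Q : Subgroup G} {y : G} (hy : y ∈ NN Q) (g : G) :
    y * g * y⁻¹ ∈ Subgroup.centralizer (Q : Set G) ↔ g ∈ Subgroup.centralizer (Q : Set G) := by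
  have hy1 := Subgroup.mem_normalizer_iff.mp hy
  rw [Subgroup.mem_centralizer_iff, Subgroup.mem_centralizer_iff]
  constructor
  · intro h q hq
    have h4 := h (y * q * y⁻¹) ((hy1 q).mp hq)
    have h5 : y⁻¹ * (y * q * y⁻¹ * (y * g * y⁻¹)) * y = y⁻¹ * (y * g * y⁻¹ * (y * q * y⁻¹)) * y := by
      rw [h4]
    have e1 : y⁻¹ * (y * q * y⁻¹ * (y * g * y⁻¹)) * y = q * g := by group
    have e2 : y⁻¹ * (y * g * y⁻¹ * (y * q * y⁻¹)) * y = g * q := by group
    rw [e1, e2] at h5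
    exact h5
  · intro h q hq
    have hq' : y⁻¹ * q * y ∈ Q := by
      apply (hy1 _).mpr
      have e1 : y * (y⁻¹ * q * y) * y⁻¹ = q := by group
      rw [e1]
      exact hq
    have h4 := h _ hq'
    have h5 : y * (y⁻¹ * q * y * g) * y⁻¹ = y * (g * (y⁻¹ * q * y)) * y⁻¹ := by rw [h4]
    have e1 : y * (y⁻¹ * q * y * g) * y⁻¹ = q * (y * g * y⁻¹) := by group
    have e2 : y * (g * (y⁻¹ * q * y)) * y⁻¹ = (y * g * y⁻¹) * q := by group
    rw [e1, e2] at h5
    exact h5

/-- the restriction of a class function to `C(Q) ∩ S` -/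
def cutR {G : Type} [Group G] (Q S : Subgroup G) (F : G → ℂ) (x : S) : ℂ :=
  if (x : G) ∈ Subgroup.centralizer (Q : Set G) then F x else 0

theorem cutR_cl {G : Type} [Group G] {Q S : Subgroup G} (hS : ∀ w ∈ S, w ∈ NN Q) {F : G → ℂ}
    (hF : IsCl F) : IsCl (cutR Q S F) := by
  intro g y
  have e' : F ((y * g * y⁻¹ : S) : G) = F g := hF g y
  unfold cutR
  rw [e']
  exact if_congr (cent_conj (hS y y.2) g) rfl rfl

theorem cutR_mem {G : Type} [Group G] {Q S : Subgroup G} {F : G → ℂ} (hO : ∀ g, F g ∈ O) (x : S) :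
    cutR Q S F x ∈ O := by
  unfold cutR
  split_ifs
  · exact hO x
  · exact O.zero_mem

/-- the central characters of `S` vanish outside the centraliser of `Q` -/
def Cut (O : ValuationSubring ℂ) {G : Type} [Group G] [Fintype G] (Q S : Subgroup G) : Prop :=
  ∀ θ : S → ℂ, IsIrr θ → ∀ F : G → ℂ, IsCl F → (∀ g, F g ∈ O) →
    red O (Om (fun x : S => F x) θ) = red O (Om (cutR Q S F) θ)

end general

section surj

variable {T G W : Type} [Group T] [Fintype T] [Group G] [Fintype G] [Group W] [Fintype W]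
  {π : T →* G} {i : G →* T} {j : T →* W}

theorem indj_inv (j : T →* W) (f : T → ℂ) (w : W) : indj j (fun t => f t⁻¹) w = indj j f w⁻¹ := by
  unfold indj
  congr 1
  refine Finset.sum_congr rfl fun x _ => ?_
  unfold cst
  refine Fintype.sum_equiv (Equiv.inv T) _ _ fun t => ?_
  simp only [Equiv.inv_apply]
  refine if_congr ?_ rfl rfl
  rw [map_inv, inv_eq_iff_eq_inv]
  have e : (x⁻¹ * w⁻¹ * x)⁻¹ = x⁻¹ * w * x := by group
  rw [e]

/-- every class function of `G` comes from a class function of `W` -/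
theorem pu_surj (hπ : ∀ g, π (i g) = g) (hj : Function.Injective j) (Λ : T →* ℂ)
    (hM : Moves π j Λ) {c : G → ℂ} (hc : IsCl c) :
    pu π i (fun t => indj j (fun t => (Nat.card π.ker : ℂ)⁻¹ * Λ t⁻¹ * c (π t)) (j t) * Λ t) = c := by
  set f : T → ℂ := fun t => (Nat.card π.ker : ℂ)⁻¹ * Λ t⁻¹ * c (π t) with hf
  set c₁ : G → ℂ := fun g => (Nat.card π.ker : ℂ)⁻¹ * c g⁻¹ with hc₁
  have hη : tw π Λ c₁ = fun t => f t⁻¹ := by
    funext t
    simp only [tw, hc₁, hf, inv_inv, map_inv]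
    ring
  have hc1 : IsCl c₁ := by
    intro g y
    have e := inv_cl hc g y
    simp only at e
    simp only [hc₁]
    rw [e]
  have hF : IsCl (indj j f) := indj_cl j f
  have hcl : IsCl (fun t => indj j f (j t) * Λ t) := by
    intro g y
    have e1 : indj j f (j (y * g * y⁻¹)) = indj j f (j g) := cl_comp j hF g y
    simp only [e1, lin_cl Λ g y]
  refine eq_of_Om (pu_cl hcl) hc fun χ hχ => ?_
  rw [← Om_tw hπ, ← Om_indj hj _ hF]
  have ho : Orth j (twS π Λ Set.univ) := orth_tw hM Set.univ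
  have h1 := B_ind_ind hj ho (θ := tw π Λ χ) (η := tw π Λ c₁) ⟨χ, trivial, rfl⟩ ⟨c₁, trivial, rfl⟩
    (tw_cl Λ hc1)
  rw [B_tw hπ] at h1
  have e1 : ∑ w, indj j f w * indj j (tw π Λ χ) w =
      (Nat.card W : ℂ) * Pool.Agent.Helper884.IC.B (indj j (tw π Λ χ)) (indj j (tw π Λ c₁)) := by
    unfold Pool.Agent.Helper884.IC.B
    rw [← mul_assoc, mul_inv_cancel₀ (cardG_ne W), one_mul]
    refine Finset.sum_congr rfl fun w _ => ?_
    rw [hη, indj_inv, inv_inv, mul_comm]
  have e2 : Pool.Agent.Helper884.IC.B χ c₁ =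
      (Nat.card G : ℂ)⁻¹ * (Nat.card π.ker : ℂ)⁻¹ * ∑ g, c g * χ g := by
    unfold Pool.Agent.Helper884.IC.B
    rw [mul_assoc]
    congr 1
    rw [Finset.mul_sum]
    refine Finset.sum_congr rfl fun g _ => ?_
    simp only [hc₁, inv_inv]
    ring
  have e3 : tw π Λ χ 1 = χ 1 := by
    unfold tw
    rw [map_one, map_one, one_mul]
  unfold Om
  rw [e1, h1, e2, indj_one hj, e3]
  have hT : (Nat.card T : ℂ) = Nat.card π.ker * Nat.card G := by
    rw [card_split hπ]
    push_cast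
    ring
  rw [hT]
  have := cardG_ne π.ker
  have := cardG_ne G
  have := cardG_ne W
  have := hχ.one_ne
  field_simp

/-- characters which are not orthogonal to `Λ` on the kernel -/
theorem cover (hπ : ∀ g, π (i g) = g) (hj : Function.Injective j) (Λ : T →* ℂ)
    (hM : Moves π j Λ) {θ : W → ℂ} (hθ : IsIrr θ)
    (h : ∑ k : π.ker, Λ (k : T)⁻¹ * θ (j k) ≠ 0) :
    ∃ χ : G → ℂ, IsIrr χ ∧ θ = indj j (tw π Λ χ) := by
  have hcl : Pool.Agent.Helper884.IC.IsClass (fun t => θ (j t)) := cl_comp j (irr_cl hθ)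
  have h1 := Pool.Agent.Helper884.IC.expand (fun t => θ (j t)) hcl
  have h2 : ∀ k : T, θ (j k) = ∑ ψ ∈ Pool.Agent.Helper884.IC.Irr T,
      Pool.Agent.Helper884.IC.B (fun t => θ (j t)) ψ * ψ k := by
    intro k
    have h3 := congrFun h1 k
    simp only [Finset.sum_apply, Pi.smul_apply, smul_eq_mul] at h3
    exact h3
  have h3 : ∑ k : π.ker, Λ (k : T)⁻¹ * θ (j k) = ∑ ψ ∈ Pool.Agent.Helper884.IC.Irr T,
      Pool.Agent.Helper884.IC.B (fun t => θ (j t)) ψ * ∑ k : π.ker, Λ (k : T)⁻¹ * ψ k := by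
    rw [Finset.sum_congr rfl fun k _ => by rw [h2 (k : T), Finset.mul_sum], Finset.sum_comm]
    refine Finset.sum_congr rfl fun ψ _ => ?_
    rw [Finset.mul_sum]
    refine Finset.sum_congr rfl fun k _ => ?_
    ring
  rw [h3] at h
  obtain ⟨ψ, hψ, h4⟩ := Finset.exists_ne_zero_of_sum_ne_zero h
  have hi : IsIrr ψ := mem_Irr.mp hψ
  obtain ⟨χ, hχ, rfl⟩ := tw_cover hπ Λ hi (right_ne_zero_of_mul h4)
  refine ⟨χ, hχ, ?_⟩
  have ho : Orth j (twS π Λ Set.univ) := orth_tw hM Set.univ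
  have i1 : IsIrr (indj j (tw π Λ χ)) := indj_irr hj ho ⟨χ, trivial, rfl⟩ hi
  have h5 := B_indj j (tw π Λ χ) (irr_cl hθ)
  rw [Pool.Agent.Helper884.IC.B_irr i1 hθ, Pool.Agent.Helper884.IC.B_comm] at h5
  by_contra hne
  rw [if_neg (Ne.symm hne)] at h5
  exact left_ne_zero_of_mul h4 h5.symm

end surj

namespace LD

variable {T G W : Type} [Group T] [Fintype T] [Group G] [Fintype G] [Group W] [Fintype W]
  {π : T →* G} {i : G →* T} {j : T →* W} {P S : Subgroup G} {RT : Subgroup T} {RW : Subgroup W}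
  (h : LD π i j P S RT RW) {O : ValuationSubring ℂ} {p : ℕ} [hp : Fact p.Prime]

include h in
/-- the centralisers -/
theorem cent_iff (hπ : ∀ g, π (i g) = g) (hj : Function.Injective j) {t : T} (ht : t ∈ RT) :
    j t ∈ Subgroup.centralizer (((P.map i).map j : Subgroup W) : Set W) ↔
      π t ∈ Subgroup.centralizer (P : Set G) := by
  have hn := h.norm_mem hj ht
  rw [Subgroup.mem_centralizer_iff, Subgroup.mem_centralizer_iff]
  constructor
  · intro h1 d hd
    have h2 := h1 (j (i d)) ⟨i d, ⟨d, hd, rfl⟩, rfl⟩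
    rw [← map_mul, ← map_mul] at h2
    have h3 := congrArg π (hj h2)
    simpa only [map_mul, hπ] using h3
  · rintro h1 _ ⟨_, ⟨d, hd, rfl⟩, rfl⟩
    obtain ⟨e, he, h2⟩ := (Subgroup.mem_normalizer_iff.mp hn (i d)).mp ⟨d, hd, rfl⟩
    have h3 := congrArg π h2
    simp only [map_mul, map_inv, hπ] at h3
    have h4 := h1 d hd
    rw [← h4] at h3
    have h5 : e = d := by
      rw [h3]
      group
    rw [h5] at h2
    rw [← map_mul, ← map_mul]
    congr 1
    calc i d * t = t * i d * t⁻¹ * t := by rw [← h2]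
      _ = t * i d := by group

theorem star (hπ : ∀ g, π (i g) = g) (hj : Function.Injective j) (hpO : (p : ℂ) ∈ O.nonunits)
    (hP : IsPGroup p P) (Λ : T →* ℂ) (hG : Cut O P S) (hW : Cut O ((P.map i).map j) RW)
    {θ : S → ℂ} (hθ : IsIrr θ) (hθ' : IsIrr (indj h.jL (tw h.piL (h.lamL Λ) θ)))
    {F : W → ℂ} (hF : IsCl F) (hO : ∀ w, F w ∈ O) :
    red O (Om (fun x : RW => F x) (indj h.jL (tw h.piL (h.lamL Λ) θ))) =
      red O (Om (fun g : S => pu π i (fun t => F (j t) * Λ t) g) θ) := by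
  have hFΛ : IsCl (fun t => F (j t) * Λ t) := by
    intro g y
    have e1 : F (j (y * g * y⁻¹)) = F (j g) := cl_comp j hF g y
    simp only [e1, lin_cl Λ g y]
  have hOΛ : ∀ t, F (j t) * Λ t ∈ O := fun t => O.mul_mem _ _ (hO _) (lin_mem O Λ t)
  have hc := pu_cl (π := π) (i := i) hFΛ
  have hcO := pu_mem (π := π) (i := i) hOΛ
  rw [hW _ hθ' F hF hO, hG θ hθ _ hc hcO, Om_indj (h.jL_inj hj) _ (cutR_cl h.a4 hF),
    Om_tw (h.piL_iL hπ)]
  have hcl : IsCl (fun t : RT => cutR ((P.map i).map j) RW F (h.jL t) * h.lamL Λ t) := by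
    intro g y
    have e1 := cl_comp h.jL (cutR_cl h.a4 hF) g y
    simp only at e1
    simp only [e1, lin_cl (h.lamL Λ) g y]
  have hS : ∀ w ∈ S, w ∈ NN P := by
    intro w hw
    have h1 := h.norm_mem hj (h.a2 w hw)
    have h2 := pi_norm hπ P ⟨i w, h1⟩
    simpa only [hπ] using h2
  refine red_Om_eq hθ (pu_cl hcl) (pu_mem fun t => O.mul_mem _ _ (cutR_mem hO _)
    (lin_mem O (h.lamL Λ) t)) (cutR_cl hS hc) (cutR_mem hcO) fun g => ?_
  have hker : ∀ k : h.piL.ker, π (((k : RT) * h.iL g : RT) : T) = g := by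
    intro k
    have hk : π ((k : RT) : T) = 1 := congrArg (fun z : S => (z : G)) k.2
    change π (((k : RT) : T) * i g) = g
    rw [map_mul, hk, one_mul, hπ]
  by_cases hg : (g : G) ∈ Subgroup.centralizer (P : Set G)
  · have e1 : cutR P S (pu π i fun t => F (j t) * Λ t) g =
        pu π i (fun t => F (j t) * Λ t) g := if_pos hg
    rw [e1, h.pu_loc hπ hj hpO hP hFΛ hOΛ hg]
    congr 1
    unfold pu
    refine Finset.sum_congr rfl fun k _ => ?_
    have h2 : j (((k : RT) * h.iL g : RT) : T) ∈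
        Subgroup.centralizer (((P.map i).map j : Subgroup W) : Set W) := by
      rw [h.cent_iff hπ hj ((k : RT) * h.iL g : RT).2, hker k]
      exact hg
    have e2 : cutR ((P.map i).map j) RW F (h.jL ((k : RT) * h.iL g)) =
        F (j (((k : RT) * h.iL g : RT) : T)) := if_pos h2
    change cutR ((P.map i).map j) RW F (h.jL ((k : RT) * h.iL g)) * h.lamL Λ ((k : RT) * h.iL g) = _
    rw [e2]
    rfl
  · have e1 : cutR P S (pu π i fun t => F (j t) * Λ t) g = 0 := if_neg hg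
    rw [e1]
    congr 1
    unfold pu
    refine Finset.sum_eq_zero fun k _ => ?_
    have h2 : ¬ j (((k : RT) * h.iL g : RT) : T) ∈
        Subgroup.centralizer (((P.map i).map j : Subgroup W) : Set W) := by
      rw [h.cent_iff hπ hj ((k : RT) * h.iL g : RT).2, hker k]
      exact hg
    have e2 : cutR ((P.map i).map j) RW F (h.jL ((k : RT) * h.iL g)) = 0 := if_neg h2
    change cutR ((P.map i).map j) RW F (h.jL ((k : RT) * h.iL g)) * h.lamL Λ ((k : RT) * h.iL g) = _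
    rw [e2, zero_mul]

/-- **Fong–Reynolds**: the characters of `S` and `RW` whose blocks induce to `B` and to the block
above `B` -/
theorem mem_iff (hπ : ∀ g, π (i g) = g) (hj : Function.Injective j) (hpO : (p : ℂ) ∈ O.nonunits)
    (hK : ¬ p ∣ Nat.card π.ker) (hP : IsPGroup p P) (Λ : T →* ℂ) (hM : Moves π j Λ)
    (hG : Cut O P S) (hW : Cut O ((P.map i).map j) RW) {B : Set (G → ℂ)} (hB : IsBlock O B)
    {θ : S → ℂ} (hθ : IsIrr θ) (hθ' : IsIrr (indj h.jL (tw h.piL (h.lamL Λ) θ))) :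
    indj h.jL (tw h.piL (h.lamL Λ) θ) ∈ IndS O (indS j (twS π Λ B)) RW.subtype ↔
      θ ∈ IndS O B S.subtype := by
  obtain ⟨χ₀, h0⟩ := hB.nonempty
  have hB1 := twS_block hπ hK hpO Λ hB
  have ho : Orth j (twS π Λ B) := orth_tw hM B
  have hB' := indS_block hj ho hB1
  have h0' : indj j (tw π Λ χ₀) ∈ indS j (twS π Λ B) := ⟨_, ⟨χ₀, h0, rfl⟩, rfl⟩
  rw [mem_IndS_iff hB' h0', mem_IndS_iff hB h0]
  have hinv := inv_ker_mem (O := O) hpO hK
  have key : ∀ F : W → ℂ, IsCl F → red O (Om F (indj j (tw π Λ χ₀))) =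
      red O (Om (pu π i fun t => F (j t) * Λ t) χ₀) := by
    intro F hF
    rw [Om_indj hj _ hF, Om_tw hπ]
  constructor
  · rintro ⟨-, h2⟩
    refine ⟨hθ, fun c hc hcO => ?_⟩
    set f : T → ℂ := fun t => (Nat.card π.ker : ℂ)⁻¹ * Λ t⁻¹ * c (π t) with hf
    have hfc : IsCl f := by
      intro g y
      have e := inv_cl (lin_cl Λ) g y
      simp only at e
      have e2 : c (π (y * g * y⁻¹)) = c (π g) := cl_comp π hc g y
      simp only [hf]
      rw [e, e2]
    have hfO : ∀ t, f t ∈ O := fun t => O.mul_mem _ _ (O.mul_mem _ _ hinv (lin_mem O Λ _)) (hcO _)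
    have h3 := h2 (indj j f) (indj_cl j f) (indj_mem hj hfc hfO)
    have h4 := h.star hπ hj hpO hP Λ hG hW hθ hθ' (indj_cl j f) (indj_mem hj hfc hfO)
    rw [pu_surj hπ hj Λ hM hc] at h4
    have h5 := key (indj j f) (indj_cl j f)
    rw [pu_surj hπ hj Λ hM hc] at h5
    exact h4.symm.trans (h3.trans h5)
  · rintro ⟨-, h2⟩
    refine ⟨hθ', fun F hF hO => ?_⟩
    have hFΛ : IsCl (fun t => F (j t) * Λ t) := by
      intro g y
      have e1 : F (j (y * g * y⁻¹)) = F (j g) := cl_comp j hF g y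
      simp only [e1, lin_cl Λ g y]
    have hOΛ : ∀ t, F (j t) * Λ t ∈ O := fun t => O.mul_mem _ _ (hO _) (lin_mem O Λ t)
    rw [key F hF]
    refine (h.star hπ hj hpO hP Λ hG hW hθ hθ' hF hO).trans ?_
    exact h2 _ (pu_cl hFΛ) (pu_mem hOΛ)

end LD

end Pool.Agent.K4H11.FR
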