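import Pool.Agent.K4H11.FR.Brc

/-!
# Blocks above a linear character of a split normal `p'`-subgroup
-/

set_option autoImplicit false
set_option linter.unusedSectionVars false
set_option linter.style.haveILetI false

open scoped BigOperators Classical

noncomputable section

namespace Pool.Agent.K4H11.FR

open Pool.Agent.Q90.WR Pool.Agent.H254R3.IN Pool.Agent.Q259.BW Pool.Agent.Q288.MB

variable {T G : Type} [Group T] [Fintype T] [Group G] [Fintype G]

/-- inflation along `π`, multiplied by the linear character `Λ` -/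
def tw (π : T →* G) (Λ : T →* ℂ) (χ : G → ℂ) (t : T) : ℂ := Λ t * χ (π t)

/-- the set of the functions `tw π Λ χ`, `χ ∈ B` -/
def twS (π : T →* G) (Λ : T →* ℂ) (B : Set (G → ℂ)) : Set (T → ℂ) := {ψ | ∃ χ ∈ B, ψ = tw π Λ χ}

/-- sum over the fibres of `π`, for a section `i` of `π` -/
def pu (π : T →* G) (i : G →* T) (F : T → ℂ) (g : G) : ℂ := ∑ k : π.ker, F (k * i g)

/-- the inverse of a linear character -/
def linv (Λ : T →* ℂ) : T →* ℂ where
  toFun t := Λ t⁻¹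
  map_one' := by rw [inv_one, map_one]
  map_mul' s t := by rw [mul_inv_rev, map_mul, mul_comm]

theorem lin_mul (Λ : T →* ℂ) (t : T) : Λ t * Λ t⁻¹ = 1 := by
  rw [← map_mul, mul_inv_cancel, map_one]

theorem lin_ne (Λ : T →* ℂ) (t : T) : Λ t ≠ 0 := fun h => by
  have := lin_mul Λ t
  rw [h, zero_mul] at this
  exact zero_ne_one this

theorem lin_cl (Λ : T →* ℂ) : IsCl Λ := by
  intro g y
  rw [map_mul, map_mul, mul_comm (Λ y), mul_assoc, lin_mul, mul_one]

theorem lin_mem (O : ValuationSubring ℂ) (Λ : T →* ℂ) (t : T) : Λ t ∈ O := by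
  apply mem_of_isIntegral
  refine IsIntegral.of_pow (n := Nat.card T) Nat.card_pos ?_
  rw [← map_pow, pow_card_eq_one', map_one]
  exact isIntegral_one

section sums

variable {π : T →* G} {i : G →* T} (hπ : ∀ g, π (i g) = g)

/-- `T` is the product of the kernel of `π` and the image of `i`. -/
def splitE (π : T →* G) (i : G →* T) (hπ : ∀ g, π (i g) = g) : π.ker × G ≃ T where
  toFun q := q.1 * i q.2
  invFun t := (⟨t * (i (π t))⁻¹, by rw [MonoidHom.mem_ker, map_mul, map_inv, hπ, mul_inv_cancel]⟩,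
    π t)
  left_inv := by
    rintro ⟨⟨k, hk⟩, g⟩
    have hk' : π k = 1 := hk
    refine Prod.ext (Subtype.ext ?_) ?_
    · simp only [map_mul, hk', one_mul, hπ, mul_inv_cancel_right]
    · simp only [map_mul, hk', one_mul, hπ]
  right_inv := by
    intro t
    simp only [inv_mul_cancel_right]

include hπ in
theorem sum_split (F : T → ℂ) : ∑ t, F t = ∑ g : G, ∑ k : π.ker, F (k * i g) := by
  rw [← Fintype.sum_equiv (splitE π i hπ) (fun q => F (q.1 * i q.2)) F fun q => rfl,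
    Fintype.sum_prod_type, Finset.sum_comm]

include hπ in
theorem card_split : Nat.card T = Nat.card π.ker * Nat.card G := by
  rw [← Nat.card_congr (splitE π i hπ), Nat.card_prod]

include hπ in
theorem sum_pu (F : T → ℂ) (χ : G → ℂ) : ∑ t, F t * χ (π t) = ∑ g, pu π i F g * χ g := by
  rw [sum_split hπ]
  refine Finset.sum_congr rfl fun g _ => ?_
  unfold pu
  rw [Finset.sum_mul]
  refine Finset.sum_congr rfl fun k _ => ?_
  have hk : π (k : T) = 1 := k.2
  rw [map_mul, hk, one_mul, hπ]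

theorem pu_cl {F : T → ℂ} (hF : IsCl F) : IsCl (pu π i F) := by
  intro g y
  unfold pu
  refine Fintype.sum_equiv (MulAut.conjNormal (i y)⁻¹).toEquiv _ _ fun k => ?_
  have e1 : (((MulAut.conjNormal (i y)⁻¹).toEquiv k : π.ker) : T) = (i y)⁻¹ * k * i y := by
    have : ((MulAut.conjNormal (i y)⁻¹ k : π.ker) : T) = (i y)⁻¹ * k * (i y)⁻¹⁻¹ :=
      MulAut.conjNormal_apply _ _
    rw [inv_inv] at this
    exact this
  rw [e1, ← hF ((i y)⁻¹ * k * i y * i g) (i y), map_mul, map_mul, map_inv]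
  congr 1
  group

theorem pu_mem {O : ValuationSubring ℂ} {F : T → ℂ} (hO : ∀ t, F t ∈ O) (g : G) :
    pu π i F g ∈ O := sum_mem fun _ _ => hO _

include hπ in
theorem Om_tw (Λ : T →* ℂ) (F : T → ℂ) (χ : G → ℂ) :
    Om F (tw π Λ χ) = Om (pu π i fun t => F t * Λ t) χ := by
  unfold Om tw
  rw [map_one, map_one, one_mul, ← sum_pu hπ]
  congr 1
  refine Finset.sum_congr rfl fun t _ => ?_
  ring

include hπ in
theorem pu_inv (Λ : T →* ℂ) (c : G → ℂ) (g : G) :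
    pu π i (fun t => (Nat.card π.ker : ℂ)⁻¹ * Λ t⁻¹ * c (π t) * Λ t) g = c g := by
  unfold pu
  have h1 : ∀ k : π.ker, (Nat.card π.ker : ℂ)⁻¹ * Λ ((k : T) * i g)⁻¹ * c (π ((k : T) * i g)) *
      Λ ((k : T) * i g) = (Nat.card π.ker : ℂ)⁻¹ * c g := by
    intro k
    have hk : π (k : T) = 1 := k.2
    rw [map_mul π, hk, one_mul, hπ]
    linear_combination ((Nat.card π.ker : ℂ)⁻¹ * c g) * lin_mul Λ ((k : T) * i g)
  rw [Finset.sum_congr rfl fun k _ => h1 k, Finset.sum_const, Finset.card_univ, nsmul_eq_mul,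
    ← Nat.card_eq_fintype_card, ← mul_assoc, mul_inv_cancel₀ (cardG_ne π.ker), one_mul]

include hπ in
theorem Om_tw_inv (Λ : T →* ℂ) (c : G → ℂ) (χ : G → ℂ) :
    Om (fun t => (Nat.card π.ker : ℂ)⁻¹ * Λ t⁻¹ * c (π t)) (tw π Λ χ) = Om c χ := by
  rw [Om_tw hπ]
  congr 1
  funext g
  exact pu_inv hπ Λ c g

include hπ in
theorem B_tw (Λ : T →* ℂ) (χ ψ : G → ℂ) :
    Pool.Agent.Helper884.IC.B (tw π Λ χ) (tw π Λ ψ) = Pool.Agent.Helper884.IC.B χ ψ := by
  unfold Pool.Agent.Helper884.IC.B tw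
  have h1 : ∑ t : T, Λ t * χ (π t) * (Λ t⁻¹ * ψ (π t⁻¹)) =
      (Nat.card π.ker : ℂ) * ∑ g : G, χ g * ψ g⁻¹ := by
    rw [sum_split hπ, Finset.mul_sum]
    refine Finset.sum_congr rfl fun g _ => ?_
    have h2 : ∀ k : π.ker, Λ ((k : T) * i g) * χ (π ((k : T) * i g)) *
        (Λ ((k : T) * i g)⁻¹ * ψ (π ((k : T) * i g)⁻¹)) = χ g * ψ g⁻¹ := by
      intro k
      have hk : π (k : T) = 1 := k.2
      rw [map_inv π, map_mul π, hk, one_mul, hπ]
      linear_combination (χ g * ψ g⁻¹) * lin_mul Λ ((k : T) * i g)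
    rw [Finset.sum_congr rfl fun k _ => h2 k, Finset.sum_const, Finset.card_univ, nsmul_eq_mul,
      ← Nat.card_eq_fintype_card]
  rw [h1, card_split hπ]
  have := cardG_ne π.ker
  have := cardG_ne G
  push_cast
  field_simp

end sums

/-- the twisted representation -/
def twRep (π : T →* G) (Λ : T →* ℂ) {V : Type} [AddCommGroup V] [Module ℂ V]
    (ρ : Representation ℂ G V) : Representation ℂ T V where
  toFun t := Λ t • ρ (π t)
  map_one' := by rw [map_one, map_one, map_one, one_smul]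
  map_mul' s t := by rw [map_mul, map_mul, map_mul, smul_mul_smul_comm]

theorem twRep_char (π : T →* G) (Λ : T →* ℂ) {V : Type} [AddCommGroup V] [Module ℂ V]
    (ρ : Representation ℂ G V) : (twRep π Λ ρ).character = tw π Λ ρ.character := by
  funext t
  change LinearMap.trace ℂ V (Λ t • ρ (π t)) = Λ t * LinearMap.trace ℂ V (ρ (π t))
  rw [map_smul, smul_eq_mul]

section irr

variable {π : T →* G} {i : G →* T} (hπ : ∀ g, π (i g) = g)

theorem tw_cl (Λ : T →* ℂ) {χ : G → ℂ} (h : IsCl χ) : IsCl (tw π Λ χ) := by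
  intro g y
  have e : χ (π (y * g * y⁻¹)) = χ (π g) := cl_comp π h g y
  change Λ (y * g * y⁻¹) * χ (π (y * g * y⁻¹)) = Λ g * χ (π g)
  rw [lin_cl Λ g y, e]

include hπ in
theorem tw_irr (Λ : T →* ℂ) {χ : G → ℂ} (h : IsIrr χ) : IsIrr (tw π Λ χ) := by
  refine irr_of_norm (tw_cl Λ (irr_cl h)) ?_ ?_ ?_
  · intro ψ hψ
    obtain ⟨V₁, _, _, _, ρ₁, _, rfl⟩ := id h
    obtain ⟨V₂, _, _, _, ρ₂, _, rfl⟩ := id hψ
    obtain ⟨n, hn⟩ := B_nat (twRep π Λ ρ₁) ρ₂
    rw [twRep_char] at hn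
    exact ⟨n, hn⟩
  · rw [B_tw hπ, Pool.Agent.Helper884.IC.B_irr h h, if_pos rfl]
  · obtain ⟨n, -, hn⟩ := h.deg
    refine ⟨n, ?_⟩
    unfold tw
    rw [map_one, map_one, one_mul, hn]

include hπ in
theorem tw_inj (Λ : T →* ℂ) {χ ψ : G → ℂ} (h : tw π Λ χ = tw π Λ ψ) : χ = ψ := by
  funext g
  have h1 := congrFun h (i g)
  unfold tw at h1
  rw [hπ] at h1
  exact mul_left_cancel₀ (lin_ne Λ _) h1

include hπ in
theorem twS_irr (Λ : T →* ℂ) {B : Set (G → ℂ)} (hB : ∀ χ ∈ B, IsIrr χ) :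
    ∀ χ ∈ twS π Λ B, IsIrr χ := by
  rintro _ ⟨χ, hχ, rfl⟩
  exact tw_irr hπ Λ (hB χ hχ)

include hπ in
theorem card_twS (Λ : T →* ℂ) (A : Set (G → ℂ)) : Nat.card (twS π Λ A) = Nat.card A := by
  refine (Nat.card_congr (Equiv.ofBijective
    (fun θ : A => (⟨tw π Λ θ, θ, θ.2, rfl⟩ : twS π Λ A)) ⟨?_, ?_⟩)).symm
  · intro θ η h
    exact Subtype.ext (tw_inj hπ Λ (congrArg Subtype.val h))
  · rintro ⟨_, θ, hθ, rfl⟩
    exact ⟨⟨θ, hθ⟩, rfl⟩

theorem const_of_sum {K : Subgroup T} [K.Normal] [Fintype K] {ψ : T → ℂ} (hi : IsIrr ψ)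
    (h : ∑ k : K, ψ k ≠ 0) (g k : T) (hk : k ∈ K) : ψ (g * k) = ψ g := by
  obtain ⟨c, -, hav⟩ := avg (D := K) hi
  have hc0 : c ≠ 0 := by
    rintro rfl
    apply h
    have h1 := hav 1
    rw [zero_mul] at h1
    rw [← h1]
    have h2 : ∀ x : T, (1 : T)⁻¹ * x = x := fun x => by rw [inv_one, one_mul]
    simp only [h2]
    rw [← Finset.sum_filter]
    exact (Finset.sum_subtype _ (fun t => by simp) ψ).symm
  apply mul_left_cancel₀ hc0
  rw [← hav, ← hav]
  refine Finset.sum_congr rfl fun x _ => if_congr ?_ rfl rfl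
  have e : (g * k)⁻¹ * x = k⁻¹ * (g⁻¹ * x) := by group
  rw [e]
  exact Subgroup.mul_mem_cancel_left _ (K.inv_mem hk)

include hπ in
/-- an irreducible character which is not orthogonal to `Λ` on the kernel -/
theorem tw_cover (Λ : T →* ℂ) {ψ : T → ℂ} (hψ : IsIrr ψ)
    (h : ∑ k : π.ker, Λ (k : T)⁻¹ * ψ k ≠ 0) : ∃ χ : G → ℂ, IsIrr χ ∧ ψ = tw π Λ χ := by
  set ψ' : T → ℂ := tw (MonoidHom.id T) (linv Λ) ψ with hψ'
  have hid : ∀ g : T, (MonoidHom.id T) ((MonoidHom.id T) g) = g := fun g => rfl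
  have i' : IsIrr ψ' := tw_irr hid (linv Λ) hψ
  have e' : ∀ t, ψ' t = Λ t⁻¹ * ψ t := fun t => rfl
  have hconst : ∀ g k : T, k ∈ π.ker → ψ' (g * k) = ψ' g := fun g k hk =>
    const_of_sum (K := π.ker) i' h g k hk
  have hfac : ∀ t, ψ' (i (π t)) = ψ' t := by
    intro t
    have hk : t⁻¹ * i (π t) ∈ π.ker := by
      rw [MonoidHom.mem_ker, map_mul, map_inv, hπ, inv_mul_cancel]
    have := hconst t _ hk
    rwa [mul_inv_cancel_left] at this
  set χ : G → ℂ := fun g => ψ' (i g) with hχ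
  have hinf : tw π 1 χ = ψ' := by
    funext t
    change (1 : T →* ℂ) t * ψ' (i (π t)) = ψ' t
    rw [hfac, MonoidHom.one_apply, one_mul]
  refine ⟨χ, ?_, ?_⟩
  · refine irr_of_norm (cl_comp i (irr_cl i')) ?_ ?_ ?_
    · intro σ hσ
      have h2 := B_tw hπ 1 χ σ
      rw [hinf] at h2
      obtain ⟨V₁, _, _, _, ρ₁, _, h3⟩ := id i'
      obtain ⟨V₂, _, _, _, ρ₂, _, rfl⟩ := id hσ
      obtain ⟨n, hn⟩ := B_nat ρ₁ (twRep π 1 ρ₂)
      rw [twRep_char, ← h3, h2] at hn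
      exact ⟨n, hn⟩
    · have h2 := B_tw hπ 1 χ χ
      rw [hinf, Pool.Agent.Helper884.IC.B_irr i' i', if_pos rfl] at h2
      exact h2.symm
    · obtain ⟨n, -, hn⟩ := i'.deg
      refine ⟨n, ?_⟩
      change ψ' (i 1) = n
      rw [map_one, hn]
  · funext t
    change ψ t = Λ t * ψ' (i (π t))
    rw [hfac, e', ← mul_assoc, lin_mul, one_mul]

end irr

section block

variable {O : ValuationSubring ℂ} {p : ℕ} [hp : Fact p.Prime]
  {π : T →* G} {i : G →* T} (hπ : ∀ g, π (i g) = g) (hK : ¬ p ∣ Nat.card π.ker)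

include hπ in
theorem coeff_twS (Λ : T →* ℂ) {B : Set (G → ℂ)} (hB : ∀ χ ∈ B, IsIrr χ) (t : T) :
    blockCoeff (twS π Λ B) t = (Nat.card π.ker : ℂ)⁻¹ * Λ t⁻¹ * blockCoeff B (π t) := by
  rw [blockCoeff_eq (twS_irr hπ Λ hB), blockCoeff_eq hB]
  have h1 : ∑ ψ ∈ (Pool.Agent.Helper884.IC.Irr T).filter (· ∈ twS π Λ B), ψ 1 * ψ t⁻¹ =
      ∑ χ ∈ (Pool.Agent.Helper884.IC.Irr G).filter (· ∈ B), Λ t⁻¹ * (χ 1 * χ (π t)⁻¹) := by
    symm
    refine Finset.sum_bij (fun χ _ => tw π Λ χ) ?_ ?_ ?_ ?_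
    · intro χ hχ
      have hb := (Finset.mem_filter.mp hχ).2
      exact Finset.mem_filter.mpr ⟨mem_Irr.mpr (tw_irr hπ Λ (hB χ hb)), χ, hb, rfl⟩
    · intro χ _ ψ _ h
      exact tw_inj hπ Λ h
    · intro ψ hψ
      obtain ⟨χ, hχ, rfl⟩ := (Finset.mem_filter.mp hψ).2
      exact ⟨χ, Finset.mem_filter.mpr ⟨mem_Irr.mpr (hB χ hχ), hχ⟩, rfl⟩
    · intro χ _
      unfold tw
      rw [map_one, map_one, map_inv π]
      ring
  rw [h1, ← Finset.mul_sum, card_split hπ]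
  push_cast
  rw [mul_inv]
  ring

theorem inv_ker_mem (hpO : (p : ℂ) ∈ O.nonunits) (hK : ¬ p ∣ Nat.card π.ker) :
    (Nat.card π.ker : ℂ)⁻¹ ∈ O := nat_inv_mem hpO hK

theorem mem_of_red' {B : Set (G → ℂ)} (hB : IsBlock O B) {χ₀ χ : G → ℂ} (h0 : χ₀ ∈ B)
    (hχ : IsIrr χ) (h : ∀ a, red O (omega χ a) = red O (omega χ₀ a)) : χ ∈ B := by
  by_contra hn
  obtain ⟨x, hx⟩ := hB.exists_ne h0 hχ hn
  first
  | exact hx (h x)
  | exact hx (h x).symm

include hπ hK in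
theorem twS_block (hpO : (p : ℂ) ∈ O.nonunits) (Λ : T →* ℂ) {B : Set (G → ℂ)}
    (hB : IsBlock O B) : IsBlock O (twS π Λ B) := by
  have hi := hB.irr
  obtain ⟨χ₀, h0⟩ := hB.nonempty
  have m0 : tw π Λ χ₀ ∈ twS π Λ B := ⟨χ₀, h0, rfl⟩
  have i0 := tw_irr hπ Λ (hi χ₀ h0)
  have hinv := inv_ker_mem (O := O) hpO hK
  refine ⟨tw π Λ χ₀, i0, Set.Subset.antisymm ?_ ?_⟩
  · rintro _ ⟨χ, hχ, rfl⟩
    have i1 := tw_irr hπ Λ (hi χ hχ)
    refine ⟨i1, fun w => ?_⟩
    rw [← red_eq_iff (i1.omega_mem O w) (i0.omega_mem O w), ← Om_ind i1, ← Om_ind i0, Om_tw hπ,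
      Om_tw hπ]
    refine red_Om_congr (hi χ hχ) (hi χ₀ h0) (fun x => hB.red_eq hχ h0 x) (pu_cl ?_)
      (pu_mem fun t => O.mul_mem _ _ (ind_mem O w t) (lin_mem O Λ t))
    intro g y
    change ind w (y * g * y⁻¹) * Λ (y * g * y⁻¹) = ind w g * Λ g
    rw [ind_cl w g y, lin_cl Λ g y]
  · rintro ψ ⟨hψ, h⟩
    have hred : ∀ w, red O (omega ψ w) = red O (omega (tw π Λ χ₀) w) := fun w =>
      (red_eq_iff (hψ.omega_mem O w) (i0.omega_mem O w)).mpr (h w)
    -- a class function on `T` from one on `G`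
    have hF : ∀ c : G → ℂ, IsCl c → (∀ g, c g ∈ O) →
        red O (Om (fun t => (Nat.card π.ker : ℂ)⁻¹ * Λ t⁻¹ * c (π t)) ψ) = red O (Om c χ₀) := by
      intro c hc hcO
      rw [← Om_tw_inv hπ Λ c χ₀]
      refine red_Om_congr hψ i0 hred ?_ fun t =>
        O.mul_mem _ _ (O.mul_mem _ _ hinv (lin_mem O Λ _)) (hcO _)
      intro g y
      have e := lin_cl (linv Λ) g y
      have e' : Λ (y * g * y⁻¹)⁻¹ = Λ g⁻¹ := e
      have e2 : c (π (y * g * y⁻¹)) = c (π g) := cl_comp π hc g y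
      change (Nat.card π.ker : ℂ)⁻¹ * Λ (y * g * y⁻¹)⁻¹ * c (π (y * g * y⁻¹)) =
        (Nat.card π.ker : ℂ)⁻¹ * Λ g⁻¹ * c (π g)
      rw [e', e2]
    have h1 := hF dl dl_cl (dl_mem O)
    rw [Om_dl (hi χ₀ h0), red_one] at h1
    have h2 : ∑ k : π.ker, Λ (k : T)⁻¹ * ψ k ≠ 0 := by
      intro h3
      have h4 : Om (fun t => (Nat.card π.ker : ℂ)⁻¹ * Λ t⁻¹ * dl (π t)) ψ = 0 := by
        unfold Om
        have h5 : ∑ t, (Nat.card π.ker : ℂ)⁻¹ * Λ t⁻¹ * dl (π t) * ψ t =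
            (Nat.card π.ker : ℂ)⁻¹ * ∑ k : π.ker, Λ (k : T)⁻¹ * ψ k := by
          rw [Finset.mul_sum, ← Finset.sum_subtype (p := fun t : T => t ∈ π.ker)
            (Finset.univ.filter fun t : T => t ∈ π.ker) (fun t => by simp)
            (fun t => (Nat.card π.ker : ℂ)⁻¹ * (Λ t⁻¹ * ψ t)), Finset.sum_filter]
          refine Finset.sum_congr rfl fun t _ => ?_
          by_cases ht : t ∈ π.ker
          · have : dl (π t) = 1 := if_pos ht
            rw [if_pos ht, this]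
            ring
          · have : dl (π t) = 0 := if_neg ht
            rw [if_neg ht, this]
            ring
        rw [h5, h3, mul_zero, zero_div]
      rw [h4, red_zero] at h1
      exact zero_ne_one h1
    obtain ⟨χ, hχ, rfl⟩ := tw_cover hπ Λ hψ h2
    refine ⟨χ, mem_of_red' hB h0 hχ fun a => ?_, rfl⟩
    have h6 := hF (ind a) (ind_cl a) (ind_mem O a)
    rw [Om_tw_inv hπ, Om_ind hχ, Om_ind (hi χ₀ h0)] at h6
    exact h6

theorem not_nonunit_mul {u x : ℂ} (hu : u ∈ O) (hx : x ∈ O) (h : u * x ∉ O.nonunits) :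
    x ∉ O.nonunits := by
  intro hn
  apply h
  rw [← red_eq_zero_iff (O.mul_mem _ _ hu hx), red_mul hu hx, red_eq_zero hn, mul_zero]

theorem mul_not_nonunit {u v x : ℂ} (hu : u ∈ O) (hv : v ∈ O) (huv : u * v = 1) (hx : x ∈ O)
    (h : x ∉ O.nonunits) : u * x ∉ O.nonunits := by
  intro hn
  apply h
  have : x = v * (u * x) := by rw [← mul_assoc, mul_comm v, huv, one_mul]
  rw [this, ← red_eq_zero_iff (O.mul_mem _ _ hv (O.mul_mem _ _ hu hx)),
    red_mul hv (O.mul_mem _ _ hu hx), red_eq_zero hn, mul_zero]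

include hπ in
theorem sec_inj : Function.Injective i := fun a b h => by
  rw [← hπ a, h, hπ]

/-- a `p`-subgroup meets the kernel trivially -/
theorem card_map_ker (hK : ¬ p ∣ Nat.card π.ker) {P : Subgroup T} (hP : IsPGroup p P) :
    Nat.card (P.map π) = Nat.card P := by
  have hinj : Function.Injective (π.comp P.subtype) := by
    rw [injective_iff_map_eq_one]
    intro x hx
    have h1 : (x : T) ∈ π.ker := hx
    obtain ⟨n, hn⟩ := hP x
    have h2 : orderOf (x : T) ∣ p ^ n := by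
      apply orderOf_dvd_of_pow_eq_one
      exact congrArg Subtype.val hn
    have h3 : orderOf (x : T) ∣ Nat.card π.ker := by
      rw [← Subgroup.orderOf_mk (x : T) h1]
      exact orderOf_dvd_natCard _
    have h4 : Nat.Coprime (p ^ n) (Nat.card π.ker) :=
      Nat.Coprime.pow_left n ((Nat.Prime.coprime_iff_not_dvd hp.out).mpr hK)
    have h5 : orderOf (x : T) = 1 := Nat.eq_one_of_dvd_coprimes h4 h2 h3
    exact Subtype.ext (orderOf_eq_one_iff.mp h5)
  have h1 : P.map π = (π.comp P.subtype).range := by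
    rw [MonoidHom.range_comp, Subgroup.range_subtype]
  rw [h1, card_range hinj]

include hπ hK in
theorem twS_defect (hpO : (p : ℂ) ∈ O.nonunits) (Λ : T →* ℂ) {B : Set (G → ℂ)}
    (hB : IsBlock O B) {D : Subgroup G} (hD : IsDefectGroup p O B D) :
    IsDefectGroup p O (twS π Λ B) (D.map i) := by
  obtain ⟨d1, d2⟩ := defect_bound hpO hB hD
  obtain ⟨z, h1, h2, h3, h4, h5⟩ := isDefectGroup_iff.mp hD
  have hbl := twS_block hπ hK hpO Λ hB
  have hi := hB.irr
  have hinv := inv_ker_mem (O := O) hpO hK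
  refine defect_of hbl (h2.map i) ?_ ?_
  · intro w hw
    have h6 : blockCoeff (twS π Λ B) (i z) ∉ O.nonunits := by
      rw [coeff_twS hπ Λ hi, hπ]
      refine mul_not_nonunit (v := Λ (i z) * (Nat.card π.ker : ℂ))
        (O.mul_mem _ _ hinv (lin_mem O Λ _))
        (O.mul_mem _ _ (lin_mem O Λ _) (natCast_mem' _)) ?_ (blockCoeff_mem hB z) h5
      have := lin_mul Λ (i z)
      have h7 := cardG_ne π.ker
      field_simp
      linear_combination this
    refine minmax hpO hbl hw h6 (h2.map i) ?_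
    rintro _ ⟨d, hd, rfl⟩
    rw [Subgroup.mem_centralizer_singleton_iff, ← map_mul,
      Subgroup.mem_centralizer_singleton_iff.mp (h1 hd), map_mul]
  · intro w hw P hP hPw
    rw [coeff_twS hπ Λ hi] at hw
    have h6 := not_nonunit_mul (O.mul_mem _ _ hinv (lin_mem O Λ _)) (blockCoeff_mem hB _) hw
    rw [card_map_inj (sec_inj hπ), ← card_map_ker hK hP]
    refine d2 (π w) h6 _ (hP.map π) ?_
    rintro _ ⟨y, hy, rfl⟩
    rw [Subgroup.mem_centralizer_singleton_iff, ← map_mul,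
      Subgroup.mem_centralizer_singleton_iff.mp (hPw hy), map_mul]

end block

end Pool.Agent.K4H11.FR
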