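import Pool.Agent.K4H11.FR.Tw

/-!
# Brauer correspondents of blocks above a linear character of a split normal `p'`-subgroup
-/

set_option autoImplicit false
set_option linter.unusedSectionVars false
set_option linter.style.haveILetI false

open scoped BigOperators Classical

noncomputable section

namespace Pool.Agent.K4H11.FR

open Pool.Agent.Q90.WR Pool.Agent.H254R3.IN Pool.Agent.Q259.BW Pool.Agent.Q288.MB

variable {T G : Type} [Group T] [Fintype T] [Group G] [Fintype G]
  {π : T →* G} {i : G →* T} (hπ : ∀ g, π (i g) = g)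

include hπ in
theorem pi_norm (D : Subgroup G) (n : NN (D.map i)) : π n ∈ NN D := by
  rw [Subgroup.mem_normalizer_iff]
  intro h
  have h0 := Subgroup.mem_normalizer_iff.mp n.2
  have h1 : ∀ d : G, i d ∈ D.map i ↔ d ∈ D := fun d =>
    ⟨fun ⟨e, he, hh⟩ => by rw [← sec_inj hπ hh]; exact he, fun hd => ⟨d, hd, rfl⟩⟩
  have h2 : ∀ d : G, ∀ e : D.map i, (n : T) * i d * (n : T)⁻¹ = e → π n * d * (π n)⁻¹ ∈ D := by
    rintro d ⟨_, e, he, rfl⟩ hh
    have h3 := congrArg π hh
    simp only [map_mul, map_inv, hπ] at h3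
    rw [h3]
    exact he
  constructor
  · intro hd
    exact h2 h ⟨_, (h0 (i h)).mp ((h1 h).mpr hd)⟩ rfl
  · intro hd
    have h4 : (n : T)⁻¹ * i (π n * h * (π n)⁻¹) * n ∈ D.map i := by
      apply (h0 _).mpr
      have e : (n : T) * ((n : T)⁻¹ * i (π n * h * (π n)⁻¹) * n) * (n : T)⁻¹ =
        i (π n * h * (π n)⁻¹) := by group
      rw [e]
      exact (h1 _).mpr hd
    obtain ⟨e, he, hh⟩ := h4
    have h3 := congrArg π hh
    simp only [map_mul, map_inv, hπ] at h3
    have h5 : h = e := by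
      rw [h3]
      group
    rw [h5]
    exact he

/-- the projection of the normalisers -/
def piN (hπ : ∀ g, π (i g) = g) (D : Subgroup G) : NN (D.map i) →* NN D :=
  (π.comp (NN (D.map i)).subtype).codRestrict _ fun n => pi_norm hπ D n

theorem piN_coe (D : Subgroup G) (n : NN (D.map i)) : ((piN hπ D n : NN D) : G) = π n := rfl

theorem piN_jN (D : Subgroup G) (n : NN D) : piN hπ D (jN i D n) = n := Subtype.ext (hπ n)

/-- the restriction of a linear character to the normaliser -/
def linN (Λ : T →* ℂ) (D : Subgroup T) : NN D →* ℂ := Λ.comp (NN D).subtype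

theorem ker_piN {p : ℕ} (hK : ¬ p ∣ Nat.card π.ker) (D : Subgroup G) :
    ¬ p ∣ Nat.card (piN hπ D).ker := by
  intro h
  apply hK
  refine h.trans ?_
  refine Subgroup.card_dvd_of_injective
    (((NN (D.map i)).subtype.comp (piN hπ D).ker.subtype).codRestrict π.ker fun k => ?_) ?_
  · have h1 : piN hπ D k = 1 := k.2
    exact congrArg Subtype.val h1
  · intro a b hab
    have h1 : ((a : NN (D.map i)) : T) = ((b : NN (D.map i)) : T) :=
      congrArg (fun z : π.ker => (z : T)) hab
    exact Subtype.ext (Subtype.ext h1)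

variable {O : ValuationSubring ℂ} {p : ℕ} [hp : Fact p.Prime] (hK : ¬ p ∣ Nat.card π.ker)

include hπ in
theorem mem_ker_norm (D : Subgroup G) (n : NN (D.map i)) (hn : π n = 1) {d : G} (hd : d ∈ D) :
    i d * (n : T) * (i d)⁻¹ = n := by
  have h0 := (Subgroup.mem_normalizer_iff.mp n.2 (i d)).mp ⟨d, hd, rfl⟩
  obtain ⟨e, he, hh⟩ := h0
  have h3 := congrArg π hh
  simp only [map_mul, map_inv, hπ, hn] at h3
  have h4 : e = d := by
    rw [h3]
    group
  rw [h4] at hh
  have h5 : i d * (n : T) = n * i d := by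
    have := congrArg (· * (n : T)) hh
    simpa only [inv_mul_cancel_right] using this
  rw [h5]
  group

/-- the sums over the kernels agree modulo the maximal ideal -/
theorem pu_red (hpO : (p : ℂ) ∈ O.nonunits) {D : Subgroup G} (hDp : IsPGroup p D)
    {F : T → ℂ} (hF : IsCl F) (hO : ∀ t, F t ∈ O) {g : NN D}
    (hg : (g : G) ∈ Subgroup.centralizer (D : Set G)) :
    red O (pu π i F g) = red O (pu (piN hπ D) (jN i D) (fun n => F n) g) := by
  haveI := charP_RF hpO
  unfold pu
  rw [red_sum _ _ fun k _ => hO _, red_sum _ _ fun k _ => hO _]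
  letI : MulAction D π.ker := MulAction.compHom π.ker
    ((MulAut.conjNormal : T →* MulAut π.ker).comp (i.comp D.subtype))
  have hact : ∀ (d : D) (k : π.ker), ((d • k : π.ker) : T) = i d * k * (i d)⁻¹ := fun d k =>
    MulAut.conjNormal_apply (i (d : G)) k
  rw [sum_fixed hDp (X := π.ker) (F := RF O)
    (fun a => by rw [← Nat.cast_smul_eq_nsmul (RF O), CharP.cast_eq_zero, zero_smul])
    (fun k => red O (F (k * i g))) ?_]
  · symm
    refine Finset.sum_bij (fun (n : (piN hπ D).ker) _ =>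
      (⟨((n : NN (D.map i)) : T), congrArg Subtype.val (show piN hπ D n = 1 from n.2)⟩ : π.ker))
      ?_ ?_ ?_ ?_
    · intro n _
      simp only [Finset.mem_filter, Finset.mem_univ, true_and]
      intro d
      apply Subtype.ext
      rw [hact]
      exact mem_ker_norm hπ D n (congrArg Subtype.val (show piN hπ D n = 1 from n.2)) d.2
    · intro a _ b _ hab
      have h1 : ((a : NN (D.map i)) : T) = ((b : NN (D.map i)) : T) :=
        congrArg (fun z : π.ker => (z : T)) hab
      exact Subtype.ext (Subtype.ext h1)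
    · intro k hk
      simp only [Finset.mem_filter, Finset.mem_univ, true_and] at hk
      have h1 : ∀ d ∈ D, i d * (k : T) = k * i d := by
        intro d hd
        have h2 := congrArg Subtype.val (hk ⟨d, hd⟩)
        rw [hact] at h2
        have h3 := congrArg (· * i d) h2
        simpa only [inv_mul_cancel_right] using h3
      have h2 : (k : T) ∈ NN (D.map i) := by
        apply cent_le_NN
        rw [Subgroup.mem_centralizer_iff]
        rintro _ ⟨d, hd, rfl⟩
        exact h1 d hd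
      refine ⟨⟨⟨k, h2⟩, Subtype.ext k.2⟩, ?_, rfl⟩
      simp
    · intro n _
      rfl
  · intro d k
    simp only [hact]
    have h1 := Subgroup.mem_centralizer_iff.mp hg d d.2
    have h2 : i d * (k : T) * (i d)⁻¹ * i g = i d * ((k : T) * i g) * (i d)⁻¹ := by
      have h3 : (i (d : G))⁻¹ * i g = i g * (i (d : G))⁻¹ := by
        rw [inv_mul_eq_iff_eq_mul, ← mul_assoc, ← map_mul, h1, map_mul, mul_assoc, mul_inv_cancel,
          mul_one]
      calc i d * (k : T) * (i d)⁻¹ * i g = i d * (k : T) * ((i (d : G))⁻¹ * i g) := by group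
        _ = i d * (k : T) * (i g * (i (d : G))⁻¹) := by rw [h3]
        _ = _ := by group
    rw [h2, hF]

include hπ hK in
theorem twS_brauer (hpO : (p : ℂ) ∈ O.nonunits) (Λ : T →* ℂ) {B : Set (G → ℂ)} (hB : IsBlock O B)
    {D : Subgroup G} (hD : IsDefectGroup p O B D) {c : Set (NN D → ℂ)}
    (hc : IsBrauerCorrespondent p O D B c) :
    IsBrauerCorrespondent p O (D.map i) (twS π Λ B)
      (twS (piN hπ D) (linN Λ (D.map i)) c) := by
  have hπN : ∀ g, piN hπ D (jN i D g) = g := piN_jN hπ D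
  have hKN := ker_piN hπ hK D
  have hDp : IsPGroup p D := (isDefectGroup_iff.mp hD).choose_spec.2.1
  refine ⟨twS_block hπN hKN hpO _ hc.1, ?_, ?_⟩
  · have h := twS_defect hπN hKN hpO (linN Λ (D.map i)) hc.1 hc.2.1
    rw [show (D.subgroupOf (Subgroup.normalizer (D : Set G))).map (jN i D) = DD (D.map i) from
      map_DD (sec_inj hπ) D] at h
    exact h
  · rintro _ ⟨χ, hχ, rfl⟩ _ ⟨θ, hθ, rfl⟩ w
    have iχ := hB.irr χ hχ
    have iθ := hc.1.irr θ hθ
    have i1 := tw_irr hπ Λ iχ
    have i2 := tw_irr hπN (linN Λ (D.map i)) iθ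
    haveI : (DD D).Normal := Subgroup.normal_in_normalizer
    set F : T → ℂ := fun t => ind w t * Λ t with hF
    have hFcl : IsCl F := by
      intro g y
      change ind w (y * g * y⁻¹) * Λ (y * g * y⁻¹) = ind w g * Λ g
      rw [ind_cl w g y, lin_cl Λ g y]
    have hFO : ∀ t, F t ∈ O := fun t => O.mul_mem _ _ (ind_mem O w t) (lin_mem O Λ t)
    have e1 : omega (tw π Λ χ) w = Om (pu π i F) χ := by
      rw [← Om_ind i1, Om_tw hπ]
    have hA := brauer_Om (p := p) hB hc hχ hθ (pu_cl hFcl (π := π) (i := i))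
      (pu_mem (π := π) (i := i) hFO)
    have e2 : L (NN (D.map i)).subtype (tw (piN hπ D) (linN Λ (D.map i)) θ) w =
        Om (pu (piN hπ D) (jN i D) fun n => F n) θ := by
      rw [L_eq, Om_tw hπN]
      rfl
    have hFN : IsCl (fun n : NN (D.map i) => F n) := cl_comp (NN (D.map i)).subtype hFcl
    have m2 := (red_Om (O := O) iθ (pu_cl (π := piN hπ D) (i := jN i D) hFN)
      (pu_mem (π := piN hπ D) (i := jN i D) fun n => hFO n))
    have m1 := (red_Om (O := O) iθ (cl_comp (NN D).subtype (pu_cl (π := π) (i := i) hFcl))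
      (fun n => pu_mem (π := π) (i := i) hFO n))
    rw [sum_eq_L]
    change omega (tw π Λ χ) w - L (NN (D.map i)).subtype
      (tw (piN hπ D) (linN Λ (D.map i)) θ) w ∈ O.nonunits
    rw [← red_eq_iff (i1.omega_mem O w) (by rw [e2]; exact m2.1), e1, ← hA.2, e2, m2.2]
    change red O (Om (fun n : NN D => pu π i F ((NN D).subtype n)) θ) = _
    rw [m1.2]
    refine Finset.sum_congr rfl fun C _ => ?_
    by_cases hx : rep C ∈ Subgroup.centralizer (DD D : Set (NN D))
    · congr 1
      exact pu_red hπ hpO hDp hFcl hFO ((mem_cent_DD _).mp hx)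
    · rw [lam_zero hpO (pgroup_DD hDp) iθ hx, mul_zero, mul_zero]

include hπ in
/-- heights -/
theorem irr0_twS (hK : ¬ p ∣ Nat.card π.ker) (Λ : T →* ℂ) (B : Set (G → ℂ)) (D : Subgroup G) :
    Irr0 p (D.map i) (twS π Λ B) = twS π Λ (Irr0 p D B) := by
  have hk0 : Nat.card π.ker ≠ 0 := Nat.card_pos.ne'
  have hidx : (D.map i).index = Nat.card π.ker * D.index := by
    have h1 := (D.map i).card_mul_index
    have h2 := D.card_mul_index
    rw [card_map_inj (sec_inj hπ), card_split hπ, ← h2] at h1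
    apply Nat.eq_of_mul_eq_mul_left (Nat.card_pos (α := D))
    rw [h1]
    ring
  have hD0 : D.index ≠ 0 := Subgroup.index_ne_zero_of_finite
  have h3 : (D.map i).index.factorization p = D.index.factorization p := by
    rw [hidx, Nat.factorization_mul hk0 hD0, Finsupp.add_apply,
      Nat.factorization_eq_zero_of_not_dvd hK, zero_add]
  have h4 : ∀ χ : G → ℂ, tw π Λ χ 1 = χ 1 := fun χ => by
    unfold tw
    rw [map_one, map_one, one_mul]
  ext ψ
  constructor
  · rintro ⟨⟨χ, hχ, rfl⟩, n, hn, hf⟩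
    exact ⟨χ, ⟨hχ, n, by rw [hn, h4], by rw [hf, h3]⟩, rfl⟩
  · rintro ⟨χ, ⟨hχ, n, hn, hf⟩, rfl⟩
    exact ⟨⟨χ, hχ, rfl⟩, n, by rw [hn, h4], by rw [hf, h3]⟩

/-- The block above a linear character, with its local data. -/
def Dtw (X : Dat) [Fintype X.G] {T : Type} [Group T] [Fintype T] {π : T →* X.G} {i : X.G →* T} (hπ : ∀ g, π (i g) = g)
    (Λ : T →* ℂ) : Dat where
  G := T
  D := X.D.map i
  B := twS π Λ X.B
  b := twS (piN hπ X.D) (linN Λ (X.D.map i)) X.b

theorem Dtw_spec (hpO : (p : ℂ) ∈ O.nonunits) {X : Dat} [Fintype X.G] (hX : X.IsBrauer p O)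
    {T : Type} [Group T] [Fintype T] {π : T →* X.G} {i : X.G →* T} (hπ : ∀ g, π (i g) = g)
    (hK : ¬ p ∣ Nat.card π.ker) (Λ : T →* ℂ) :
    (Dtw X hπ Λ).IsBrauer p O ∧
      Nat.card ((Dtw X hπ Λ).ht0 p) = Nat.card (X.ht0 p) ∧
      Nat.card ((Dtw X hπ Λ).ht0' p) = Nat.card (X.ht0' p) := by
  refine ⟨⟨inferInstanceAs (Finite T), twS_block hπ hK hpO Λ hX.block,
    twS_defect hπ hK hpO Λ hX.block hX.defect,
    twS_brauer hπ hK hpO Λ hX.block hX.defect hX.brauer⟩, ?_, ?_⟩
  · have h1 : (Dtw X hπ Λ).ht0 p = twS π Λ (X.ht0 p) := irr0_twS hπ hK Λ X.B X.D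
    rw [h1]
    exact card_twS hπ Λ _
  · have h1 : (Dtw X hπ Λ).ht0' p =
        twS (piN hπ X.D) (linN Λ (X.D.map i)) (X.ht0' p) := by
      have h2 := irr0_twS (piN_jN hπ X.D) (ker_piN hπ hK X.D) (linN Λ (X.D.map i)) X.b (DD X.D)
      rw [map_DD (sec_inj hπ)] at h2
      exact h2
    rw [h1]
    exact card_twS (piN_jN hπ X.D) _ _

end Pool.Agent.K4H11.FR
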