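import Pool.Agent.K4H11.FR.Lam
import Pool.Agent.K4H11.FR.Conc

/-!
# Every block is realised in a perfect group `V ⋊ Aₙ`
-/

set_option autoImplicit false
set_option linter.unusedSectionVars false
set_option linter.style.haveILetI false

open scoped BigOperators Classical

noncomputable section

namespace Pool.Agent.K4H11.FR

open Pool.Agent.Q90.WR Pool.Agent.H254R3.IN Pool.Agent.Q259.BW Pool.Agent.Q288.MB

section stab

variable {G H : Type} [Group G] [Fintype G] [Group H] [Fintype H] (ι : G →* H) (q : ℕ)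
  [hq : Fact q.Prime]

/-- the base point -/
def bp : H ⧸ ι.range := ((1 : H) : H ⧸ ι.range)

/-- the linear character of the module given by the value at the base point -/
def lam (f : V0 ι.range q) : ℂ := ZMod.stdAddChar (Multiplicative.toAdd ((f : Fn ι.range q) (bp ι)))

theorem lam_one : lam ι q 1 = 1 := by
  unfold lam
  change ZMod.stdAddChar (0 : ZMod q) = 1
  exact AddChar.map_zero_eq_one _

theorem lam_mul (f g : V0 ι.range q) : lam ι q (f * g) = lam ι q f * lam ι q g := by
  unfold lam
  exact AddChar.map_add_eq_mul _ _ _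

theorem smul_bp (g : G) : (ι g)⁻¹ • bp ι = bp ι := by
  change (((ι g)⁻¹ * 1 : H) : H ⧸ ι.range) = ((1 : H) : H ⧸ ι.range)
  rw [mul_one, QuotientGroup.eq, inv_inv, mul_one]
  exact ⟨g, rfl⟩

theorem lam_inv (g : G) (f : V0 ι.range q) : lam ι q (phi (ι g) f) = lam ι q f := by
  unfold lam
  rw [phi_coe]
  unfold tr
  rw [smul_bp]

/-- the stabiliser of the character -/
abbrev TT : Type := V0 ι.range q ⋊[(phi (R := ι.range) (q := q)).comp ι] G

instance : Finite (TT ι q) := Finite.of_equiv _ (SemidirectProduct.equivProd).symm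

/-- the extension of the character to its stabiliser -/
def Lam : TT ι q →* ℂ where
  toFun t := lam ι q t.left
  map_one' := lam_one ι q
  map_mul' s t := by
    rw [SemidirectProduct.mul_left, lam_mul]
    congr 1
    exact lam_inv ι q s.right t.left

/-- the inclusion of the stabiliser -/
def jj : TT ι q →* WW ι.range q where
  toFun t := ⟨t.left, ι t.right⟩
  map_one' := by
    apply SemidirectProduct.ext
    · rfl
    · exact map_one ι
  map_mul' s t := by
    apply SemidirectProduct.ext
    · rfl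
    · exact map_mul ι _ _

theorem jj_left (t : TT ι q) : (jj ι q t).left = t.left := rfl

theorem jj_right (t : TT ι q) : (jj ι q t).right = ι t.right := rfl

theorem jj_inj (hι : Function.Injective ι) : Function.Injective (jj ι q) := by
  intro s t h
  have h1 : (jj ι q s).left = (jj ι q t).left := by rw [h]
  have h2 : (jj ι q s).right = (jj ι q t).right := by rw [h]
  exact SemidirectProduct.ext h1 (hι h2)

theorem conj_left (x : WW ι.range q) (v : V0 ι.range q) :
    x⁻¹ * (⟨v, 1⟩ : WW ι.range q) * x = ⟨phi x.right⁻¹ v, 1⟩ := by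
  apply SemidirectProduct.ext
  · simp only [SemidirectProduct.mul_left, SemidirectProduct.inv_left, SemidirectProduct.mul_right,
      SemidirectProduct.inv_right, mul_one]
    rw [mul_right_comm, ← map_mul, inv_mul_cancel, map_one, one_mul]
  · simp only [SemidirectProduct.mul_right, SemidirectProduct.inv_right, mul_one, inv_mul_cancel]

theorem normal_ker (x : WW ι.range q) (k : TT ι q)
    (hk : (SemidirectProduct.rightHom : TT ι q →* G) k = 1) :
    ∃ k' : TT ι q, (SemidirectProduct.rightHom : TT ι q →* G) k' = 1 ∧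
      jj ι q k' = x⁻¹ * jj ι q k * x := by
  have h1 : k.right = 1 := hk
  refine ⟨⟨phi x.right⁻¹ k.left, 1⟩, rfl, ?_⟩
  have h2 : jj ι q k = ⟨k.left, 1⟩ := by
    apply SemidirectProduct.ext
    · rfl
    · change ι k.right = 1
      rw [h1, map_one]
  rw [h2, conj_left]
  apply SemidirectProduct.ext
  · rfl
  · exact map_one ι

/-- an element outside the stabiliser moves the character -/
theorem exists_moved (h3 : 3 ≤ Nat.card (H ⧸ ι.range)) {a : H} (ha : a ∉ ι.range) :
    ∃ f : V0 ι.range q, lam ι q f ≠ lam ι q (phi a⁻¹ f) := by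
  have hne : a • bp ι ≠ bp ι := by
    intro h
    apply ha
    have h1 : ((a * 1 : H) : H ⧸ ι.range) = ((1 : H) : H ⧸ ι.range) := h
    rw [mul_one, eq_comm, QuotientGroup.eq, inv_one, one_mul] at h1
    exact h1
  obtain ⟨ω₁, h1, h2⟩ : ∃ ω : H ⧸ ι.range, ω ≠ bp ι ∧ ω ≠ a • bp ι := by
    by_contra hcon
    push Not at hcon
    have h4 : (Finset.univ : Finset (H ⧸ ι.range)) ⊆ {bp ι, a • bp ι} := by
      intro ω _
      by_cases h : ω = bp ι
      · rw [h]
        exact Finset.mem_insert_self _ _
      · rw [hcon ω h]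
        exact Finset.mem_insert_of_mem (Finset.mem_singleton_self _)
    have h5 := Finset.card_le_card h4
    have h6 := Finset.card_le_two (a := bp ι) (b := a • bp ι)
    rw [Finset.card_univ, ← Nat.card_eq_fintype_card] at h5
    omega
  set c : Multiplicative (ZMod q) := Multiplicative.ofAdd 1 with hc
  set f : Fn ι.range q := Pi.mulSingle (bp ι) c * (Pi.mulSingle ω₁ c)⁻¹ with hf
  have hfm : f ∈ V0 ι.range q := by
    rw [mem_V0]
    simp only [hf, Pi.mul_apply, Pi.inv_apply, Finset.prod_mul_distrib, Finset.prod_inv_distrib]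
    rw [Finset.prod_pi_mulSingle', Finset.prod_pi_mulSingle', if_pos (by simp),
      if_pos (by simp), mul_inv_cancel]
  refine ⟨⟨f, hfm⟩, fun h => ?_⟩
  unfold lam at h
  rw [phi_coe] at h
  have e1 : f (bp ι) = c := by
    simp only [hf, Pi.mul_apply, Pi.inv_apply]
    rw [Pi.mulSingle_eq_same, Pi.mulSingle_eq_of_ne h1.symm, inv_one, mul_one]
  have e2 : tr a⁻¹ f (bp ι) = 1 := by
    unfold tr
    rw [inv_inv]
    simp only [hf, Pi.mul_apply, Pi.inv_apply]
    rw [Pi.mulSingle_eq_of_ne hne, Pi.mulSingle_eq_of_ne h2.symm, inv_one, mul_one]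
  simp only [e1, e2] at h
  have h7 := ZMod.injective_stdAddChar h
  have h8 : (1 : ZMod q) = 0 := h7
  haveI : Fact (1 < q) := ⟨hq.out.one_lt⟩
  exact one_ne_zero h8

theorem moves (h3 : 3 ≤ Nat.card (H ⧸ ι.range)) :
    Moves (SemidirectProduct.rightHom : TT ι q →* G) (jj ι q) (Lam ι q) := by
  intro x hx
  have ha : x.right ∉ ι.range := by
    rintro ⟨g, hg⟩
    exact hx ⟨⟨x.left, g⟩, SemidirectProduct.ext rfl hg⟩
  obtain ⟨f, hf⟩ := exists_moved ι q h3 ha
  refine ⟨⟨f, 1⟩, ⟨phi x.right⁻¹ f, 1⟩, rfl, rfl, ?_, hf⟩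
  have h2 : jj ι q ⟨f, 1⟩ = ⟨f, 1⟩ := SemidirectProduct.ext rfl (map_one ι)
  rw [h2, conj_left]
  exact SemidirectProduct.ext rfl (map_one ι)

theorem ker_card {p : ℕ} (hp : p.Prime) (hpq : q ≠ p) :
    ¬ p ∣ Nat.card (SemidirectProduct.rightHom : TT ι q →* G).ker := by
  haveI : Fintype (TT ι q) := Fintype.ofFinite _
  have h1 := card_split (π := (SemidirectProduct.rightHom : TT ι q →* G))
    (i := SemidirectProduct.inr) fun g => SemidirectProduct.rightHom_inr g
  rw [SemidirectProduct.card] at h1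
  have h2 := Nat.eq_of_mul_eq_mul_right (Nat.card_pos (α := G)) h1
  rw [← h2]
  intro h
  have h3 : p ∣ Nat.card (Fn ι.range q) := h.trans (Subgroup.card_subgroup_dvd_card _)
  rw [Nat.card_fun, Nat.card_eq_fintype_card (α := Multiplicative (ZMod q)),
    Fintype.card_multiplicative, ZMod.card] at h3
  exact hpq ((Nat.prime_dvd_prime_iff_eq hp hq.out).mp (hp.dvd_of_dvd_pow h3)).symm

end stab

section emb

variable (G : Type) [Group G] [Fintype G]

/-- the degree -/
def deg : ℕ := Fintype.card (G ⊕ (G ⊕ Fin 5))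

/-- the even permutation representation of `G` -/
def toPerm : G →* Equiv.Perm (Fin (deg G)) :=
  ((Fintype.equivFin (G ⊕ (G ⊕ Fin 5))).permCongrHom.toMonoidHom.comp
    (Equiv.Perm.sumCongrHom G (G ⊕ Fin 5))).comp
    ((MulAction.toPermHom G G).prod ((Equiv.Perm.sumCongrHom G (Fin 5)).comp
      ((MulAction.toPermHom G G).prod 1)))

theorem toPerm_sign (g : G) : Equiv.Perm.sign (toPerm G g) = 1 := by
  change Equiv.Perm.sign ((Fintype.equivFin (G ⊕ (G ⊕ Fin 5))).permCongr
    (Equiv.Perm.sumCongr (MulAction.toPerm g) (Equiv.Perm.sumCongr (MulAction.toPerm g) 1))) = 1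
  rw [Equiv.Perm.sign_permCongr, Equiv.Perm.sign_sumCongr, Equiv.Perm.sign_sumCongr, map_one,
    mul_one]
  exact Int.units_mul_self _

/-- the embedding in the alternating group -/
def toAlt : G →* alternatingGroup (Fin (deg G)) :=
  (toPerm G).codRestrict _ fun g => Equiv.Perm.mem_alternatingGroup.mpr (toPerm_sign G g)

theorem toAlt_inj : Function.Injective (toAlt G) := by
  intro g h hgh
  have h1 : toPerm G g = toPerm G h := congrArg Subtype.val hgh
  have h2 := (Fintype.equivFin (G ⊕ (G ⊕ Fin 5))).permCongrHom.injective h1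
  have h3 := congrArg (fun σ : Equiv.Perm (G ⊕ (G ⊕ Fin 5)) => σ (Sum.inl 1)) h2
  have h4 : (Sum.inl (g * 1) : G ⊕ (G ⊕ Fin 5)) = Sum.inl (h * 1) := h3
  have h5 := Sum.inl_injective h4
  rwa [mul_one, mul_one] at h5

theorem deg_eq : deg G = 2 * Fintype.card G + 5 := by
  unfold deg
  rw [Fintype.card_sum, Fintype.card_sum, Fintype.card_fin]
  ring

theorem index_toAlt : 3 ≤ Nat.card (alternatingGroup (Fin (deg G)) ⧸ (toAlt G).range) := by
  set N := Nat.card (alternatingGroup (Fin (deg G)) ⧸ (toAlt G).range) with hN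
  have h1 := (toAlt G).range.card_mul_index
  have h2 : (toAlt G).range.index = N := rfl
  rw [card_range (toAlt_inj G), h2] at h1
  have h3 : Nontrivial (Fin (deg G)) := by
    rw [Fin.nontrivial_iff_two_le, deg_eq]
    omega
  have h4 := two_mul_nat_card_alternatingGroup (α := Fin (deg G))
  rw [← h1, Nat.card_perm, Nat.card_eq_fintype_card (α := Fin (deg G)), Fintype.card_fin,
    Nat.card_eq_fintype_card (α := G), deg_eq] at h4
  by_contra hcon
  have h5 : N ≤ 2 := by omega
  have h6 : (2 * Fintype.card G + 5) * (2 * Fintype.card G + 4) ≤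
      (2 * Fintype.card G + 5).factorial := by
    rw [Nat.factorial_succ, Nat.factorial_succ (2 * Fintype.card G + 3)]
    have h7 := Nat.factorial_pos (2 * Fintype.card G + 3)
    exact Nat.mul_le_mul_left _ (Nat.le_mul_of_pos_right _ h7)
  have h8 : 2 * (Fintype.card G * N) ≤ 4 * Fintype.card G := by nlinarith
  nlinarith

end emb

end Pool.Agent.K4H11.FR
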